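import Pool.Agent.Lib_helper54.GKP.Base

/-! Block CS1, written by helper26. -/

/-!
MP_49c8ed_al, block CS1: sums, intersections and finiteness of subcoalgebras.
-/

set_option autoImplicit false

universe u v

namespace Pool.Agent.GKP

open TensorProduct Pool.Agent.GK Pool.Agent.GKC Filter Topology

section bialg
variable (k : Type u) [Field k] {H : Type v} [Ring H] [Bialgebra k H]

theorem cs_inf {C D : Submodule k H} (hC : IsSubcoalgebra k C) (hD : IsSubcoalgebra k D) :
    IsSubcoalgebra k (C ⊓ D) :=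
  (sub_iff k).2 ⟨LS_inf k (LS_of_sub k hC) (LS_of_sub k hD),
    RS_inf k (RS_of_sub k hC) (RS_of_sub k hD)⟩

theorem cs_sup {C D : Submodule k H} (hC : IsSubcoalgebra k C) (hD : IsSubcoalgebra k D) :
    IsSubcoalgebra k (C ⊔ D) :=
  (sub_iff k).2 ⟨LS_sup k (LS_of_sub k hC) (LS_of_sub k hD),
    RS_sup k (RS_of_sub k hC) (RS_of_sub k hD)⟩

theorem cs_iSup {ι : Sort*} {C : ι → Submodule k H} (hC : ∀ i, IsSubcoalgebra k (C i)) :
    IsSubcoalgebra k (⨆ i, C i) :=
  (sub_iff k).2 ⟨LS_iSup k fun i => LS_of_sub k (hC i), RS_iSup k fun i => RS_of_sub k (hC i)⟩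

theorem cs1_fgL (U : Submodule k H) (hU : U.FG) : (⨆ g, U.map (FLAG_L k g)).FG := by
  obtain ⟨s, rfl⟩ := hU
  choose W hW1 hW2 using fun x : H => FLAG_finL k (Coalgebra.comul (R := k) x)
  have : Module.Finite k ↥(⨆ x ∈ s, W x) := by
    rw [Module.Finite.iff_fg]
    exact Submodule.fg_biSup s W (fun x _ => hW1 x)
  have hle : (⨆ g, (Submodule.span k (s : Set H)).map (FLAG_L k g)) ≤ ⨆ x ∈ s, W x := by
    refine iSup_le fun g => ?_
    rw [Submodule.map_span_le]
    intro x hx
    exact Submodule.mem_iSup_of_mem x (Submodule.mem_iSup_of_mem (by simpa using hx) (hW2 x g))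
  rw [← Module.Finite.iff_fg]
  exact Submodule.finiteDimensional_of_le hle

theorem cs1_fgR (U : Submodule k H) (hU : U.FG) : (⨆ g, U.map (FLAG_R k g)).FG := by
  obtain ⟨s, rfl⟩ := hU
  choose W hW1 hW2 using fun x : H => FLAG_finR k (Coalgebra.comul (R := k) x)
  have : Module.Finite k ↥(⨆ x ∈ s, W x) := by
    rw [Module.Finite.iff_fg]
    exact Submodule.fg_biSup s W (fun x _ => hW1 x)
  have hle : (⨆ g, (Submodule.span k (s : Set H)).map (FLAG_R k g)) ≤ ⨆ x ∈ s, W x := by
    refine iSup_le fun g => ?_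
    rw [Submodule.map_span_le]
    intro x hx
    exact Submodule.mem_iSup_of_mem x (Submodule.mem_iSup_of_mem (by simpa using hx) (hW2 x g))
  rw [← Module.Finite.iff_fg]
  exact Submodule.finiteDimensional_of_le hle

/-- the closure under the right action is stable under it -/
theorem cs1_cloR (U : Submodule k H) : RS k (⨆ g, U.map (FLAG_R k g)) := by
  intro f x hx
  have : (⨆ g, U.map (FLAG_R k g)) ≤ (⨆ g, U.map (FLAG_R k g)).comap (FLAG_R k f) := by
    refine iSup_le fun g' => ?_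
    rw [Submodule.map_le_iff_le_comap]
    intro w hw
    simp only [Submodule.mem_comap]
    rw [FLAG_RR]
    exact Submodule.mem_iSup_of_mem _ (Submodule.mem_map_of_mem hw)
  exact this hx

theorem cs1_cloL (U : Submodule k H) : LS k (⨆ g, U.map (FLAG_L k g)) := by
  intro f x hx
  have : (⨆ g, U.map (FLAG_L k g)) ≤ (⨆ g, U.map (FLAG_L k g)).comap (FLAG_L k f) := by
    refine iSup_le fun g' => ?_
    rw [Submodule.map_le_iff_le_comap]
    intro w hw
    simp only [Submodule.mem_comap]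
    rw [FLAG_LL]
    exact Submodule.mem_iSup_of_mem _ (Submodule.mem_map_of_mem hw)
  exact this hx

/-- the left closure of a right stable subspace is right stable -/
theorem cs1_cloLR (U : Submodule k H) (hU : RS k U) : RS k (⨆ g, U.map (FLAG_L k g)) := by
  intro f x hx
  have : (⨆ g, U.map (FLAG_L k g)) ≤ (⨆ g, U.map (FLAG_L k g)).comap (FLAG_R k f) := by
    refine iSup_le fun g' => ?_
    rw [Submodule.map_le_iff_le_comap]
    intro w hw
    simp only [Submodule.mem_comap]
    rw [← FLAG_LR]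
    exact Submodule.mem_iSup_of_mem _ (Submodule.mem_map_of_mem (hU f w hw))
  exact this hx

/-- the right closure of a left stable subspace is left stable -/
theorem cs1_cloRL (U : Submodule k H) (hU : LS k U) : LS k (⨆ g, U.map (FLAG_R k g)) := by
  intro f x hx
  have : (⨆ g, U.map (FLAG_R k g)) ≤ (⨆ g, U.map (FLAG_R k g)).comap (FLAG_L k f) := by
    refine iSup_le fun g' => ?_
    rw [Submodule.map_le_iff_le_comap]
    intro w hw
    simp only [Submodule.mem_comap]
    rw [FLAG_LR]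
    exact Submodule.mem_iSup_of_mem _ (Submodule.mem_map_of_mem (hU f w hw))
  exact this hx

/-- a finite-dimensional subspace generates a finite-dimensional subcoalgebra -/
theorem cs1_clo (V : Submodule k H) (hV : V.FG) : ∃ U : Submodule k H, V ≤ U ∧ U.FG ∧
    IsSubcoalgebra k U ∧ ∀ D : Submodule k H, IsSubcoalgebra k D → V ≤ D → U ≤ D := by
  refine ⟨⨆ g, (⨆ g', V.map (FLAG_R k g')).map (FLAG_L k g), ?_, ?_, ?_, ?_⟩
  · intro x hx
    refine Submodule.mem_iSup_of_mem (Coalgebra.counit (R := k)) ⟨x, ?_, FLAG_Lcounit k x⟩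
    exact Submodule.mem_iSup_of_mem (Coalgebra.counit (R := k)) ⟨x, hx, FLAG_Rcounit k x⟩
  · exact cs1_fgL k _ (cs1_fgR k _ hV)
  · exact (sub_iff k).2 ⟨cs1_cloL k _, cs1_cloLR k _ (cs1_cloR k _)⟩
  · intro D hD hVD
    refine iSup_le fun g => ?_
    rw [Submodule.map_le_iff_le_comap]
    refine iSup_le fun g' => ?_
    rw [Submodule.map_le_iff_le_comap]
    intro x hx
    exact LS_of_sub k hD g _ (RS_of_sub k hD g' x (hVD hx))

/-- the fundamental theorem of coalgebras -/
theorem cs_fund {V : Submodule k H} (hV : V.FG) :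
    ∃ C : Submodule k H, V ≤ C ∧ (1 : H) ∈ C ∧ C.FG ∧ IsSubcoalgebra k C := by
  obtain ⟨U, h1, h2, h3, -⟩ := cs1_clo k (V ⊔ Submodule.span k {(1 : H)})
    (hV.sup (Submodule.fg_span_singleton _))
  exact ⟨U, le_sup_left.trans h1, h1 (Submodule.mem_sup_right
    (Submodule.mem_span_singleton_self _)), h2, h3⟩

/-- a nonzero subcoalgebra contains a simple one -/
theorem cs_exists {D : Submodule k H} (hD : IsSubcoalgebra k D) (h0 : D ≠ ⊥) :
    ∃ E : Submodule k H, IsSimpleSubcoalgebra k E ∧ E ≤ D := by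
  classical
  obtain ⟨x, hxD, hx0⟩ := D.ne_bot_iff.1 h0
  obtain ⟨U, h1, h2, h3, h4⟩ := cs1_clo k (Submodule.span k {x}) (Submodule.fg_span_singleton _)
  have hUD : U ≤ D := h4 D hD ((Submodule.span_singleton_le_iff_mem _ _).2 hxD)
  have hex : ∃ n : ℕ, ∃ E : Submodule k H, IsSubcoalgebra k E ∧ E ≠ ⊥ ∧ E ≤ D ∧ E.FG ∧
      Module.finrank k E = n := by
    refine ⟨_, U, h3, ?_, hUD, h2, rfl⟩
    intro h
    apply hx0
    have := h1 (Submodule.mem_span_singleton_self x)
    rwa [h, Submodule.mem_bot] at this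
  obtain ⟨E, e1, e2, e3, e4, e5⟩ := Nat.find_spec hex
  refine ⟨E, ⟨e1, e2, fun F hF hFE => ?_⟩, e3⟩
  by_contra hcon
  push Not at hcon
  have : Module.Finite k E := Module.Finite.iff_fg.2 e4
  have hFfg : F.FG := Module.Finite.iff_fg.1 (Submodule.finiteDimensional_of_le hFE)
  have hlt : Module.finrank k F < Module.finrank k E :=
    Submodule.finrank_lt_finrank_of_lt (lt_of_le_of_ne hFE hcon.2)
  exact Nat.find_min hex (e5 ▸ hlt) ⟨F, hF, hcon.1, hFE.trans e3, hFfg, rfl⟩

/-- simple subcoalgebras are finite-dimensional -/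
theorem cs_fg {D : Submodule k H} (hD : IsSimpleSubcoalgebra k D) : D.FG := by
  obtain ⟨x, hxD, hx0⟩ := D.ne_bot_iff.1 hD.2.1
  obtain ⟨U, h1, h2, h3, h4⟩ := cs1_clo k (Submodule.span k {x}) (Submodule.fg_span_singleton _)
  have hUD : U ≤ D := h4 D hD.1 ((Submodule.span_singleton_le_iff_mem _ _).2 hxD)
  rcases hD.2.2 U h3 hUD with h | h
  · exfalso
    apply hx0
    have := h1 (Submodule.mem_span_singleton_self x)
    rwa [h, Submodule.mem_bot] at this
  · rwa [h] at h2

end bialg

end Pool.Agent.GKP
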