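import Pool.Agent.Lib_helper54.GKP.Base
import Pool.Agent.Lib_helper54.GKP.CS1

/-! Block CS2, written by helper95. -/

/-!
Block CS2: simple subcoalgebras of a sum, subcoalgebras of the coradical.
-/

set_option autoImplicit false

universe u v

namespace Pool.Agent.GKP

open TensorProduct Pool.Agent.GK Pool.Agent.GKC

section bialg
variable (k : Type u) [Field k] {H : Type v} [Ring H] [Bialgebra k H]

private theorem cs2_inf {C E : Submodule k H} (hC : IsSubcoalgebra k C)
    (hE : IsSimpleSubcoalgebra k E) (h : ¬ E ≤ C) : Disjoint E C := by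
  have h1 : IsSubcoalgebra k (E ⊓ C) :=
    (sub_iff k).2 ⟨LS_inf k (LS_of_sub k hE.1) (LS_of_sub k hC),
      RS_inf k (RS_of_sub k hE.1) (RS_of_sub k hC)⟩
  rcases hE.2.2 _ h1 inf_le_left with h2 | h2
  · exact disjoint_iff.2 h2
  · exact absurd (by rw [← h2]; exact inf_le_right) h

/-- a functional which is the counit on `E` and vanishes on `C` -/
private theorem cs2_fun {C E : Submodule k H} (hC : IsSubcoalgebra k C)
    (hE : IsSimpleSubcoalgebra k E) (h : ¬ E ≤ C) : ∃ ψ : Module.Dual k H,
      (∀ a ∈ E, FLAG_L k ψ a = a) ∧ ∀ c ∈ C, FLAG_L k ψ c = 0 := by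
  obtain ⟨σ, h1, h2, h3⟩ := exists_proj_disj k (cs2_inf k hC hE h)
  refine ⟨Coalgebra.counit (R := k) ∘ₗ σ, fun a ha => ?_, fun c hc => ?_⟩
  · have h4 : FLAG_L k (Coalgebra.counit (R := k) ∘ₗ σ - Coalgebra.counit (R := k)) a = 0 := by
      rw [FLAG_L_apply]
      refine rid_lTensor_zero k (F := E) (G := E) ?_ (hE.1 a ha)
      intro x hx
      simp [h1 x hx]
    rw [map_sub, LinearMap.sub_apply, FLAG_Lcounit] at h4
    exact sub_eq_zero.1 h4
  · rw [FLAG_L_apply]
    refine rid_lTensor_zero k (F := C) (G := C) ?_ (hC c hc)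
    intro x hx
    simp [h3 x hx]

theorem cs_simple_sup {C D E : Submodule k H} (hC : IsSubcoalgebra k C) (hD : IsSubcoalgebra k D)
    (hE : IsSimpleSubcoalgebra k E) (h : E ≤ C ⊔ D) : E ≤ C ∨ E ≤ D := by
  by_cases hED : E ≤ D
  · exact Or.inr hED
  · left
    obtain ⟨ψ, h1, h2⟩ := cs2_fun k hD hE hED
    intro x hx
    obtain ⟨c, hc, d, hd, hcd⟩ := Submodule.mem_sup.1 (h hx)
    have h3 : FLAG_L k ψ x = FLAG_L k ψ c := by
      rw [← hcd, map_add, h2 d hd, add_zero]
    rw [← h1 x hx, h3]
    exact LS_of_sub k hC ψ c hc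

/-- a subcoalgebra of the coradical is a sum of simple subcoalgebras -/
theorem cs_main {D : Submodule k H} (hD : IsSubcoalgebra k D) (hDA : D ≤ coradical k H) :
    D ≤ sSup {E | IsSimpleSubcoalgebra k E ∧ E ≤ D} := by
  classical
  have key : ∀ s : Finset (Submodule k H), (∀ K ∈ s, IsSimpleSubcoalgebra k K) →
      ∀ x ∈ D, x ∈ s.sup id → x ∈ sSup {E | IsSimpleSubcoalgebra k E ∧ E ≤ D} := by
    intro s
    induction s using Finset.induction_on with
    | empty =>
      intro _ x _ hx
      rw [Finset.sup_empty, Submodule.mem_bot] at hx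
      rw [hx]
      exact Submodule.zero_mem _
    | insert K s hKs ih =>
      intro hs x hxD hx
      have hK : IsSimpleSubcoalgebra k K := hs K (Finset.mem_insert_self _ _)
      have hs' : ∀ K ∈ s, IsSimpleSubcoalgebra k K := fun K' h' => hs K' (Finset.mem_insert_of_mem h')
      rw [Finset.sup_insert, id] at hx
      have hsub : IsSubcoalgebra k (s.sup id) := by
        rw [Finset.sup_eq_iSup]
        rw [sub_iff]
        exact ⟨LS_iSup k fun K' => LS_iSup k fun h' => LS_of_sub k (hs' K' h').1,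
          RS_iSup k fun K' => RS_iSup k fun h' => RS_of_sub k (hs' K' h').1⟩
      by_cases hKC : K ≤ s.sup id
      · rw [sup_eq_right.2 hKC] at hx
        exact ih hs' x hxD hx
      · obtain ⟨ψ, h1, h2⟩ := cs2_fun k hsub hK hKC
        obtain ⟨a, ha, c, hc, hac⟩ := Submodule.mem_sup.1 hx
        have h3 : FLAG_L k ψ x = a := by
          rw [← hac, map_add, h1 a ha, h2 c hc, add_zero]
        have haD : a ∈ D := by
          rw [← h3]
          exact LS_of_sub k hD ψ x hxD
        have hcD : c ∈ D := by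
          have : c = x - a := by rw [← hac]; abel
          rw [this]
          exact D.sub_mem hxD haD
        have hc' := ih hs' c hcD hc
        have hKD : IsSubcoalgebra k (K ⊓ D) :=
          (sub_iff k).2 ⟨LS_inf k (LS_of_sub k hK.1) (LS_of_sub k hD),
            RS_inf k (RS_of_sub k hK.1) (RS_of_sub k hD)⟩
        have ha' : a ∈ sSup {E | IsSimpleSubcoalgebra k E ∧ E ≤ D} := by
          rcases hK.2.2 _ hKD inf_le_left with h4 | h4
          · have : a ∈ K ⊓ D := ⟨ha, haD⟩
            rw [h4, Submodule.mem_bot] at this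
            rw [this]
            exact Submodule.zero_mem _
          · have h5 : K ≤ D := by rw [← h4]; exact inf_le_right
            exact (le_sSup (show K ∈ {E | IsSimpleSubcoalgebra k E ∧ E ≤ D} from ⟨hK, h5⟩)) ha
        rw [← hac]
        exact Submodule.add_mem _ ha' hc'
  intro x hx
  have h1 : x ∈ sSup {E | IsSimpleSubcoalgebra k E} := hDA hx
  rw [sSup_eq_iSup'] at h1
  obtain ⟨s, hs⟩ := Submodule.mem_iSup_iff_exists_finset.1 h1
  refine key (s.image Subtype.val) ?_ x hx ?_
  · intro K hK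
    obtain ⟨K', _, rfl⟩ := Finset.mem_image.1 hK
    exact K'.2
  · have h2 : (⨆ i ∈ s, (i : Submodule k H)) ≤ (s.image Subtype.val).sup id := by
      refine iSup₂_le fun i hi => ?_
      exact Finset.le_sup (f := id) (Finset.mem_image_of_mem _ hi)
    exact h2 hs

end bialg

end Pool.Agent.GKP
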