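import Pool.Agent.Lib_helper54.GKP.Base

/-! Block CX1, written by helper62. -/

/-!
MP_49c8ed_al, gap theorems relative to the coradical: block CX1 (the algebra generated by a
subcoalgebra).
-/

set_option autoImplicit false

universe u v

namespace Pool.Agent.GKP

open TensorProduct Pool.Agent.GK Pool.Agent.GKC Filter Topology

section hopf
variable (k : Type u) [Field k] {H : Type v} [Ring H] [HopfAlgebra k H]

theorem kc_facts {C : Submodule k H} (h1 : (1 : H) ∈ C) : (1 : H) ∈ Kc k C ∧ C ≤ Kc k C ∧
    Kc k C * Kc k C ≤ Kc k C ∧ (∀ n, C ^ n ≤ Kc k C) ∧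
    (∀ X : Submodule k H, X.FG → X ≤ Kc k C → ∃ n, X ≤ C ^ n) ∧
    (IsSubcoalgebra k C → IsSubcoalgebra k (Kc k C)) := by
  classical
  have h1C : (1 : Submodule k H) ≤ C := Submodule.one_le.2 h1
  have hmono : Monotone fun n : ℕ => C ^ n := fun a b hab => pow_le_pow_right' h1C hab
  have hle : ∀ n, C ^ n ≤ Kc k C := fun n => le_iSup (fun n : ℕ => C ^ n) n
  have hdir : Directed (· ≤ ·) fun n : ℕ => C ^ n := hmono.directed_le
  refine ⟨?_, ?_, ?_, hle, ?_, ?_⟩
  · have := hle 0
    rw [pow_zero] at this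
    exact this (Submodule.one_le.1 le_rfl)
  · have := hle 1
    rwa [pow_one] at this
  · rw [Submodule.mul_le]
    intro a ha b hb
    obtain ⟨m, hm⟩ := (Submodule.mem_iSup_of_directed _ hdir).1 ha
    obtain ⟨n, hn⟩ := (Submodule.mem_iSup_of_directed _ hdir).1 hb
    refine hle (m + n) ?_
    rw [pow_add]
    exact Submodule.mul_mem_mul hm hn
  · intro X hX hXK
    obtain ⟨s, rfl⟩ := hX
    induction s using Finset.induction_on with
    | empty => exact ⟨0, by simp⟩
    | insert a s _ ih =>
      have h2 : Submodule.span k (s : Set H) ≤ Kc k C :=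
        (Submodule.span_mono (by simp)).trans hXK
      obtain ⟨n, hn⟩ := ih h2
      have h3 : a ∈ Kc k C := hXK (Submodule.subset_span (by simp))
      obtain ⟨m, hm⟩ := (Submodule.mem_iSup_of_directed _ hdir).1 h3
      refine ⟨max n m, ?_⟩
      rw [Submodule.span_le]
      intro z hz
      rcases Finset.mem_insert.1 (Finset.mem_coe.1 hz) with rfl | hz
      · exact hmono (le_max_right n m) hm
      · exact hmono (le_max_left n m) (hn (Submodule.subset_span hz))
  · intro hC x hx
    obtain ⟨n, hn⟩ := (Submodule.mem_iSup_of_directed _ hdir).1 hx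
    exact tsp_mono k (hle n) (hle n) (GKC.sub_pow hC n x hn)

end hopf

end Pool.Agent.GKP
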