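import Pool.Agent.Lib_helper54.GKP.Base

/-! Block AC, written by helper43. -/

/-!
MP_49c8ed_al, block AC: the antipode reverses the comultiplication.
-/

set_option autoImplicit false

universe u v

namespace Pool.Agent.GKP

open TensorProduct Pool.Agent.GK Pool.Agent.GKC Filter Topology

section hopf
variable (k : Type u) [Field k] {H : Type v} [Ring H] [HopfAlgebra k H]

/-- `S(y₁) y₂ ⊗ y₃ = 1 ⊗ y` -/
private theorem ac_step (y : H) :
    LinearMap.mul' k (H ⊗[k] H) (TensorProduct.map
      ((Algebra.TensorProduct.includeLeft : H →ₐ[k] H ⊗[k] H).toLinearMap ∘ₗ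
        HopfAlgebra.antipode k) (Coalgebra.comul (R := k)) (Coalgebra.comul (R := k) y)) =
      (1 : H) ⊗ₜ[k] y := by
  have h1 : ∀ (q : H) (s : H ⊗[k] H), (HopfAlgebra.antipode k q ⊗ₜ[k] (1 : H)) * s =
      LinearMap.rTensor H (LinearMap.mul' k H ∘ₗ LinearMap.rTensor H (HopfAlgebra.antipode k))
        ((TensorProduct.assoc k H H H).symm (q ⊗ₜ[k] s)) := by
    intro q s
    induction s with
    | zero => simp
    | tmul a b => simp
    | add s t hs ht => simp only [mul_add, TensorProduct.tmul_add, map_add, hs, ht]
  have h2 : ∀ t : H ⊗[k] H, LinearMap.mul' k (H ⊗[k] H) (TensorProduct.map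
      ((Algebra.TensorProduct.includeLeft : H →ₐ[k] H ⊗[k] H).toLinearMap ∘ₗ
        HopfAlgebra.antipode k) (Coalgebra.comul (R := k)) t) =
      LinearMap.rTensor H (LinearMap.mul' k H ∘ₗ LinearMap.rTensor H (HopfAlgebra.antipode k))
        ((TensorProduct.assoc k H H H).symm
          (LinearMap.lTensor H (Coalgebra.comul (R := k)) t)) := by
    intro t
    induction t with
    | zero => simp
    | tmul a b =>
      rw [LinearMap.lTensor_tmul, ← h1]
      simp
    | add s t hs ht => simp only [map_add, hs, ht]
  rw [h2, Coalgebra.coassoc_symm_apply, ← LinearMap.comp_apply, ← LinearMap.rTensor_comp]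
  have h3 : (LinearMap.mul' k H ∘ₗ LinearMap.rTensor H (HopfAlgebra.antipode k)) ∘ₗ
      Coalgebra.comul (R := k) = Algebra.linearMap k H ∘ₗ Coalgebra.counit (R := k) := by
    ext z
    simp
  rw [h3, LinearMap.rTensor_comp, LinearMap.comp_apply, Coalgebra.rTensor_counit_comul]
  simp

theorem ac_comul (x : H) : Coalgebra.comul (R := k) (HopfAlgebra.antipode k x) =
    TensorProduct.map (HopfAlgebra.antipode k) (HopfAlgebra.antipode k)
      (TensorProduct.comm k H H (Coalgebra.comul (R := k) x)) := by
  have key : WithConv.toConv (TensorProduct.map (HopfAlgebra.antipode k) (HopfAlgebra.antipode k) ∘ₗ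
      (TensorProduct.comm k H H).toLinearMap ∘ₗ Coalgebra.comul (R := k) (A := H)) *
      WithConv.toConv (Coalgebra.comul (R := k) (A := H)) = 1 := by
    ext y
    rw [LinearMap.convMul_apply, LinearMap.convOne_apply]
    -- `(S q ⊗ S p) s` as a function of `(p ⊗ q) ⊗ r`
    have h1 : ∀ t : H ⊗[k] H, LinearMap.mul' k (H ⊗[k] H) (TensorProduct.map
        (TensorProduct.map (HopfAlgebra.antipode k) (HopfAlgebra.antipode k) ∘ₗ
          (TensorProduct.comm k H H).toLinearMap ∘ₗ Coalgebra.comul (R := k) (A := H))
        (Coalgebra.comul (R := k) (A := H)) t) =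
        LinearMap.mul' k (H ⊗[k] H) (TensorProduct.map
          ((Algebra.TensorProduct.includeRight : H →ₐ[k] H ⊗[k] H).toLinearMap ∘ₗ
            HopfAlgebra.antipode k)
          (LinearMap.mul' k (H ⊗[k] H) ∘ₗ TensorProduct.map
            ((Algebra.TensorProduct.includeLeft : H →ₐ[k] H ⊗[k] H).toLinearMap ∘ₗ
              HopfAlgebra.antipode k) (Coalgebra.comul (R := k)))
          (TensorProduct.assoc k H H H
            (LinearMap.rTensor H (Coalgebra.comul (R := k)) t))) := by
      intro t
      induction t with
      | zero => simp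
      | tmul a b =>
        rw [LinearMap.rTensor_tmul, TensorProduct.map_tmul]
        simp only [LinearMap.comp_apply, LinearMap.mul'_apply, LinearEquiv.coe_coe]
        generalize Coalgebra.comul (R := k) a = s
        induction s with
        | zero => simp
        | tmul p q =>
          simp [← mul_assoc]
        | add s t hs ht => simp only [map_add, TensorProduct.add_tmul, add_mul, hs, ht]
      | add s t hs ht => simp only [map_add, hs, ht]
    have h2 : ∀ t : H ⊗[k] H, TensorProduct.map
          ((Algebra.TensorProduct.includeRight : H →ₐ[k] H ⊗[k] H).toLinearMap ∘ₗ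
            HopfAlgebra.antipode k)
          (LinearMap.mul' k (H ⊗[k] H) ∘ₗ TensorProduct.map
            ((Algebra.TensorProduct.includeLeft : H →ₐ[k] H ⊗[k] H).toLinearMap ∘ₗ
              HopfAlgebra.antipode k) (Coalgebra.comul (R := k)))
          (LinearMap.lTensor H (Coalgebra.comul (R := k)) t) =
        TensorProduct.map ((Algebra.TensorProduct.includeRight : H →ₐ[k] H ⊗[k] H).toLinearMap ∘ₗ
            HopfAlgebra.antipode k)
          (Algebra.TensorProduct.includeRight : H →ₐ[k] H ⊗[k] H).toLinearMap t := by
      intro t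
      induction t with
      | zero => simp
      | tmul a b =>
        rw [LinearMap.lTensor_tmul, TensorProduct.map_tmul, TensorProduct.map_tmul,
          LinearMap.comp_apply, LinearMap.comp_apply, ac_step]
        rfl
      | add s t hs ht => simp only [map_add, hs, ht]
    have h3 : ∀ t : H ⊗[k] H, LinearMap.mul' k (H ⊗[k] H) (TensorProduct.map
        ((Algebra.TensorProduct.includeRight : H →ₐ[k] H ⊗[k] H).toLinearMap ∘ₗ
            HopfAlgebra.antipode k)
          (Algebra.TensorProduct.includeRight : H →ₐ[k] H ⊗[k] H).toLinearMap t) =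
        (1 : H) ⊗ₜ[k] (LinearMap.mul' k H (LinearMap.rTensor H (HopfAlgebra.antipode k) t)) := by
      intro t
      induction t with
      | zero => simp
      | tmul a b => simp
      | add s t hs ht => simp only [map_add, hs, ht, TensorProduct.tmul_add]
    have h4 := h1 (Coalgebra.comul (R := k) y)
    rw [Coalgebra.coassoc_apply, h2, h3, HopfAlgebra.mul_antipode_rTensor_comul_apply] at h4
    refine h4.trans ?_
    rw [Algebra.TensorProduct.algebraMap_apply']
  have h := left_inv_eq_right_inv key (LinearMap.comul_right_inv (R := k) (C := H))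
  have h' := LinearMap.congr_fun (WithConv.toConv_injective h) x
  exact h'.symm

theorem ac_sub {M : Submodule k H} (hM : IsSubcoalgebra k M) :
    IsSubcoalgebra k (M.map (HopfAlgebra.antipode k)) := by
  rintro _ ⟨x, hx, rfl⟩
  rw [ac_comul]
  have h1 : tsp k M M ≤ (tsp k (M.map (HopfAlgebra.antipode k))
      (M.map (HopfAlgebra.antipode k))).comap
      (TensorProduct.map (HopfAlgebra.antipode k) (HopfAlgebra.antipode k) ∘ₗ
        (TensorProduct.comm k H H).toLinearMap) := by
    rw [tsp_le]
    intro a ha b hb
    exact tmul_mem_tsp k (Submodule.mem_map_of_mem hb) (Submodule.mem_map_of_mem ha)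
  exact h1 (hM x hx)

end hopf

end Pool.Agent.GKP
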