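import Pool.Agent.Lib_helper54.GKP.Base
import Pool.Agent.Lib_helper54.GKP.CS2
import Pool.Agent.Lib_helper54.GKP.AC

/-! Block LAR, written by helper30. -/

/-!
MP_49c8ed_al, block LAR: the square of the antipode fixes the simple subcoalgebras, when the
coradical is a Hopf subalgebra.
-/

set_option autoImplicit false

universe u v

namespace Pool.Agent.GKP

open TensorProduct Pool.Agent.GK Pool.Agent.GKC Pool.Agent.GKP Filter Topology

section bialg
variable (k : Type u) [Field k] {H : Type v} [Ring H] [Bialgebra k H]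

include k in
private theorem one_ne : (1 : H) ≠ 0 := by
  intro h
  have h2 := congrArg (Coalgebra.counit (R := k)) h
  rw [Bialgebra.counit_one, map_zero] at h2
  exact one_ne_zero h2

private theorem simple_one : IsSimpleSubcoalgebra k (Submodule.span k {(1 : H)}) := by
  refine ⟨?_, ?_, ?_⟩
  · rw [← Submodule.one_eq_span]
    exact sub_one_mem
  · intro h
    exact one_ne k ((Submodule.span_singleton_eq_bot.1 h))
  · intro E _ hE
    by_cases h0 : E = ⊥
    · exact Or.inl h0
    right
    refine le_antisymm hE ?_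
    obtain ⟨x, hx, hx0⟩ := (Submodule.ne_bot_iff E).1 h0
    obtain ⟨c, rfl⟩ := Submodule.mem_span_singleton.1 (hE hx)
    rw [Submodule.span_singleton_le_iff_mem]
    have hc : c ≠ 0 := by
      rintro rfl
      exact hx0 (zero_smul _ _)
    have h2 := E.smul_mem c⁻¹ hx
    rwa [smul_smul, inv_mul_cancel₀ hc, one_smul] at h2

private theorem simple_sup {E : Submodule k H} (hE : IsSimpleSubcoalgebra k E)
    (t : Finset (Submodule k H)) (ht : ∀ D ∈ t, IsSubcoalgebra k D) (h : E ≤ t.sup id) :
    ∃ D ∈ t, E ≤ D := by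
  classical
  have h2 : IsSubcoalgebra k (t.sup id) ∧ (E ≤ t.sup id → ∃ D ∈ t, E ≤ D) := by
    clear h
    induction t using Finset.induction_on with
    | empty =>
      refine ⟨?_, fun h => ?_⟩
      · rw [Finset.sup_empty]
        intro x hx
        rw [Submodule.mem_bot] at hx
        rw [hx, map_zero]
        exact Submodule.zero_mem _
      · rw [Finset.sup_empty] at h
        exact absurd (le_bot_iff.1 h) hE.2.1
    | insert a s ha ih =>
      obtain ⟨h3, h4⟩ := ih (fun D hD => ht D (Finset.mem_insert_of_mem hD))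
      have h5 := ht a (Finset.mem_insert_self a s)
      rw [Finset.sup_insert, id_eq]
      refine ⟨cs_sup k h5 h3, fun h => ?_⟩
      rcases cs_simple_sup k h5 h3 hE h with h6 | h6
      · exact ⟨a, Finset.mem_insert_self a s, h6⟩
      · obtain ⟨D, hD, h7⟩ := h4 h6
        exact ⟨D, Finset.mem_insert_of_mem hD, h7⟩
  exact h2.2 h

private theorem fin_sup {V : Submodule k H} (hV : V.FG) (s : Set (Submodule k H))
    (h : V ≤ sSup s) : ∃ t : Finset (Submodule k H), ↑t ⊆ s ∧ V ≤ t.sup id :=
  (CompleteLattice.isCompactElement_iff_exists_le_sSup_of_le_sSup _ V).1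
    ((Submodule.fg_iff_compact V).1 hV) s h

/-- the integral -/
private theorem exists_int : ∃ l : Module.Dual k H, l 1 = 1 ∧
    ∀ x ∈ coradical k H, FLAG_R k l x = l x • (1 : H) := by
  set T : Submodule k H := sSup {D | IsSimpleSubcoalgebra k D ∧ D ≠ Submodule.span k {(1 : H)}}
    with hT
  have h1 : (1 : H) ∉ T := by
    intro h
    have h2 : Submodule.span k {(1 : H)} ≤ T := by
      rwa [Submodule.span_singleton_le_iff_mem]
    obtain ⟨t, ht, h3⟩ := fin_sup k (Submodule.fg_span_singleton 1) _ h2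
    obtain ⟨D, hD, h4⟩ := simple_sup k (simple_one k) t (fun D hD => (ht hD).1.1) h3
    have h5 : IsSimpleSubcoalgebra k D ∧ D ≠ Submodule.span k {(1 : H)} := ht hD
    rcases h5.1.2.2 _ (simple_one k).1 h4 with h6 | h6
    · exact (simple_one k).2.1 h6
    · exact h5.2 h6.symm
  obtain ⟨l, hl, hl1⟩ := exists_Van k h1
  refine ⟨l, hl1, fun x hx => ?_⟩
  have h2 : coradical k H ≤
      LinearMap.ker (FLAG_R k l - (LinearMap.toSpanSingleton k H (1 : H)) ∘ₗ l) := by
    refine sSup_le fun D hD => ?_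
    intro y hy
    rw [LinearMap.mem_ker, LinearMap.sub_apply, LinearMap.comp_apply,
      LinearMap.toSpanSingleton_apply, sub_eq_zero]
    by_cases hD1 : D = Submodule.span k {(1 : H)}
    · rw [hD1] at hy
      obtain ⟨c, rfl⟩ := Submodule.mem_span_singleton.1 hy
      rw [map_smul, FLAG_R_one, map_smul, smul_assoc]
    · have h3 : D ≤ T := le_sSup ⟨hD, hD1⟩
      have h4 : ∀ z ∈ D, l z = 0 := fun z hz => hl z (h3 hz)
      rw [h4 y hy, zero_smul, FLAG_R_apply]
      have h5 : tsp k D D ≤ LinearMap.ker ((TensorProduct.lid k H).toLinearMap ∘ₗ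
          LinearMap.rTensor H l) := by
        rw [tsp_le]
        intro a ha b _
        simp [h4 a ha]
      exact h5 (hD.1 y hy)
  have h3 := h2 hx
  rw [LinearMap.mem_ker, LinearMap.sub_apply, LinearMap.comp_apply,
    LinearMap.toSpanSingleton_apply, sub_eq_zero] at h3
  exact h3

/-- a nonzero subcoalgebra has an element of counit one -/
private theorem exists_counit {D : Submodule k H} (hD : IsSubcoalgebra k D) (h0 : D ≠ ⊥) :
    ∃ d ∈ D, Coalgebra.counit (R := k) d = 1 := by
  by_contra hcon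
  apply h0
  rw [eq_bot_iff]
  intro x hx
  have h1 : Van k D (Coalgebra.counit (R := k) (A := H)) := by
    intro y hy
    by_contra hy0
    exact hcon ⟨(Coalgebra.counit (R := k) y)⁻¹ • y, D.smul_mem _ hy, by
      rw [map_smul, smul_eq_mul, inv_mul_cancel₀ hy0]⟩
  have h2 := rid_lTensor_zero k h1 (hD x hx)
  rw [← FLAG_L_apply, FLAG_Lcounit] at h2
  rw [h2]
  exact Submodule.zero_mem _

end bialg

section hopf
variable (k : Type u) [Field k] {H : Type v} [Ring H] [HopfAlgebra k H]

/-- `d₁ ⊗ d₂ S(d₃) = d ⊗ 1` -/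
private theorem lar_three (d : H) :
    LinearMap.lTensor H (LinearMap.mul' k H ∘ₗ LinearMap.lTensor H (HopfAlgebra.antipode k))
      (TensorProduct.assoc k H H H (LinearMap.rTensor H (Coalgebra.comul (R := k))
        (Coalgebra.comul (R := k) d))) = d ⊗ₜ[k] (1 : H) := by
  rw [Coalgebra.coassoc_apply, ← LinearMap.comp_apply, ← LinearMap.lTensor_comp,
    LinearMap.comp_assoc, HopfAlgebra.mul_antipode_lTensor_comul, LinearMap.lTensor_comp,
    LinearMap.comp_apply, Coalgebra.lTensor_counit_comul, LinearMap.lTensor_tmul,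
    Algebra.linearMap_apply, map_one]

/-- `(**)`: `λ(x₁ d) x₂ = λ(x d₁) S(d₂)` -/
private theorem lar_star {l : Module.Dual k H} {A : Submodule k H}
    (hA : IsHopfSubalgebra k A) (hl : ∀ x ∈ A, FLAG_R k l x = l x • (1 : H))
    {x d : H} (hx : x ∈ A) (hd : d ∈ A) :
    FLAG_R k (l ∘ₗ LinearMap.mulRight k d) x =
      HopfAlgebra.antipode k (FLAG_R k (l ∘ₗ LinearMap.mulLeft k x) d) := by
  -- the two sides of the middle expression
  let P : H ⊗[k] H →ₗ[k] H := LinearMap.mul' k H ∘ₗ
    TensorProduct.map (FLAG_R k l ∘ₗ LinearMap.mulLeft k x) (HopfAlgebra.antipode k)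
  have h1 : P (Coalgebra.comul (R := k) d) =
      HopfAlgebra.antipode k (FLAG_R k (l ∘ₗ LinearMap.mulLeft k x) d) := by
    have h2 : tsp k A A ≤ LinearMap.ker (P - HopfAlgebra.antipode k ∘ₗ
        (TensorProduct.lid k H).toLinearMap ∘ₗ LinearMap.rTensor H (l ∘ₗ
          LinearMap.mulLeft k x)) := by
      rw [tsp_le]
      intro a ha b _
      rw [LinearMap.mem_ker, LinearMap.sub_apply, sub_eq_zero]
      simp only [P, LinearMap.comp_apply, TensorProduct.map_tmul, LinearMap.mul'_apply,
        LinearMap.mulLeft_apply, LinearEquiv.coe_coe, LinearMap.rTensor_tmul,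
        TensorProduct.lid_tmul, map_smul]
      rw [hl _ (hA.mul_mem x hx a ha), smul_mul_assoc, one_mul]
    have h3 := h2 (hA.sub d hd)
    rw [LinearMap.mem_ker, LinearMap.sub_apply, sub_eq_zero] at h3
    exact h3
  have h2 : ∀ t s : H ⊗[k] H, ∀ c : H,
      (TensorProduct.lid k H (LinearMap.rTensor H l (t * s))) * HopfAlgebra.antipode k c =
      TensorProduct.lid k H (LinearMap.rTensor H l (t * LinearMap.lTensor H
        (LinearMap.mul' k H ∘ₗ LinearMap.lTensor H (HopfAlgebra.antipode k))
        (TensorProduct.assoc k H H H (s ⊗ₜ[k] c)))) := by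
    intro t s c
    induction s with
    | zero => simp
    | add s s' hs hs' => 
      rw [TensorProduct.add_tmul]
      simp only [map_add, mul_add, add_mul, hs, hs']
    | tmul a b =>
      induction t with
      | zero => simp
      | add t t' ht ht' => simp only [map_add, add_mul, ht, ht']
      | tmul u w =>
        simp only [Algebra.TensorProduct.tmul_mul_tmul, LinearMap.rTensor_tmul,
          TensorProduct.lid_tmul, TensorProduct.assoc_tmul, LinearMap.lTensor_tmul,
          LinearMap.comp_apply, LinearMap.mul'_apply, smul_mul_assoc, mul_assoc]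
  have h3 : ∀ s : H ⊗[k] H, P s = TensorProduct.lid k H (LinearMap.rTensor H l
      (Coalgebra.comul (R := k) x * LinearMap.lTensor H
        (LinearMap.mul' k H ∘ₗ LinearMap.lTensor H (HopfAlgebra.antipode k))
        (TensorProduct.assoc k H H H (LinearMap.rTensor H (Coalgebra.comul (R := k)) s)))) := by
    intro s
    induction s with
    | zero => simp
    | add s s' hs hs' => simp only [map_add, mul_add, hs, hs']
    | tmul a b =>
      rw [LinearMap.rTensor_tmul, ← h2, ← Bialgebra.comul_mul]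
      simp only [P, LinearMap.comp_apply, TensorProduct.map_tmul, LinearMap.mul'_apply,
        LinearMap.mulLeft_apply, FLAG_R_apply]
  rw [← h1, h3, lar_three, FLAG_R_apply]
  generalize Coalgebra.comul (R := k) x = t
  induction t with
  | zero => simp
  | add t t' ht ht' => simp only [map_add, add_mul, ht, ht']
  | tmul u w => simp

private theorem map_le {A D : Submodule k H} (hA : IsHopfSubalgebra k A) (h : D ≤ A) :
    D.map (HopfAlgebra.antipode k) ≤ A := by
  rintro _ ⟨x, hx, rfl⟩
  exact hA.antipode_mem x (h hx)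

theorem lar_simple (hA : IsHopfSubalgebra k (coradical k H)) {D : Submodule k H}
    (hD : IsSimpleSubcoalgebra k D) :
    (D.map (HopfAlgebra.antipode k)).map (HopfAlgebra.antipode k) = D := by
  obtain ⟨l, hl1, hl⟩ := exists_int k (H := H)
  have hDA : D ≤ coradical k H := le_sSup hD
  obtain ⟨d, hd, hd1⟩ := exists_counit k hD.1 hD.2.1
  -- `1 = d₁ S(d₂)`
  have h1 : ∃ x ∈ D, ∃ z ∈ D.map (HopfAlgebra.antipode k), l (x * z) ≠ 0 := by
    by_contra hcon
    push Not at hcon
    have h2 : tsp k D D ≤ LinearMap.ker (l ∘ₗ LinearMap.mul' k H ∘ₗ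
        LinearMap.lTensor H (HopfAlgebra.antipode k)) := by
      rw [tsp_le]
      intro a ha b hb
      rw [LinearMap.mem_ker]
      simp only [LinearMap.comp_apply, LinearMap.lTensor_tmul, LinearMap.mul'_apply]
      exact hcon a ha _ ⟨b, hb, rfl⟩
    have h3 := h2 (hD.1 d hd)
    rw [LinearMap.mem_ker, LinearMap.comp_apply, LinearMap.comp_apply,
      HopfAlgebra.mul_antipode_lTensor_comul_apply, hd1, map_one, hl1] at h3
    exact one_ne_zero h3
  obtain ⟨x, hx, z, hz, hxz⟩ := h1
  have hSD : IsSubcoalgebra k (D.map (HopfAlgebra.antipode k)) := ac_sub k hD.1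
  obtain ⟨D', hD', hle, y, hy, hxy⟩ : ∃ D', IsSimpleSubcoalgebra k D' ∧
      D' ≤ D.map (HopfAlgebra.antipode k) ∧ ∃ y ∈ D', l (x * y) ≠ 0 := by
    by_contra hcon
    push Not at hcon
    have h2 : D.map (HopfAlgebra.antipode k) ≤ LinearMap.ker (l ∘ₗ LinearMap.mulLeft k x) := by
      refine (cs_main k hSD (map_le k hA hDA)).trans (sSup_le ?_)
      rintro E ⟨hE, hE'⟩ y hy
      rw [LinearMap.mem_ker, LinearMap.comp_apply, LinearMap.mulLeft_apply]
      exact hcon E hE hE' y hy
    exact hxz (h2 hz)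
  have h4 := lar_star k hA hl (hDA hx) ((le_sSup hD' : D' ≤ coradical k H) hy)
  have h5 : FLAG_R k (l ∘ₗ LinearMap.mulRight k y) x ∈
      D ⊓ D'.map (HopfAlgebra.antipode k) := by
    refine ⟨RS_of_sub k hD.1 _ x hx, ?_⟩
    rw [h4]
    exact ⟨_, RS_of_sub k hD'.1 _ y hy, rfl⟩
  have h6 : D ≤ D'.map (HopfAlgebra.antipode k) := by
    rcases hD.2.2 (D ⊓ D'.map (HopfAlgebra.antipode k))
      (cs_inf k hD.1 (ac_sub k hD'.1)) inf_le_left with h7 | h7
    · exfalso
      rw [h7, Submodule.mem_bot] at h5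
      have h8 := FLAG_counitR k (l ∘ₗ LinearMap.mulRight k y) x
      rw [h5, map_zero, LinearMap.comp_apply, LinearMap.mulRight_apply] at h8
      exact hxy h8.symm
    · rw [← h7]
      exact inf_le_right
  have h7 : D ≤ (D.map (HopfAlgebra.antipode k)).map (HopfAlgebra.antipode k) :=
    h6.trans (Submodule.map_mono hle)
  have hfg := cs_fg k hD
  haveI : Module.Finite k ↥D := Module.Finite.iff_fg.2 hfg
  haveI : Module.Finite k ↥(D.map (HopfAlgebra.antipode k)) :=
    Module.Finite.iff_fg.2 (hfg.map _)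
  haveI : Module.Finite k ↥((D.map (HopfAlgebra.antipode k)).map (HopfAlgebra.antipode k)) :=
    Module.Finite.iff_fg.2 ((hfg.map _).map _)
  refine (Submodule.eq_of_le_of_finrank_le h7 ?_).symm
  exact (Submodule.finrank_map_le _ _).trans (Submodule.finrank_map_le _ _)

theorem lar_main (hA : IsHopfSubalgebra k (coradical k H)) {V : Submodule k H} (hV : V.FG)
    (hVA : V ≤ coradical k H) : ∃ E : Submodule k H, E.FG ∧ IsSubcoalgebra k E ∧ V ≤ E ∧
      (1 : H) ∈ E ∧ E ≤ coradical k H ∧ ∀ x ∈ E, HopfAlgebra.antipode k x ∈ E := by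
  let P : Submodule k H → Prop := fun E => E.FG ∧ IsSubcoalgebra k E ∧ E ≤ coradical k H ∧
    (E.map (HopfAlgebra.antipode k)).map (HopfAlgebra.antipode k) ≤ E
  have hsup : ∀ E F : Submodule k H, P E → P F → P (E ⊔ F) := by
    rintro E F ⟨a1, a2, a3, a4⟩ ⟨b1, b2, b3, b4⟩
    refine ⟨a1.sup b1, cs_sup k a2 b2, sup_le a3 b3, ?_⟩
    rw [Submodule.map_sup, Submodule.map_sup]
    exact sup_le_sup a4 b4
  have hsimp : ∀ D : Submodule k H, IsSimpleSubcoalgebra k D → P D := fun D hD =>
    ⟨cs_fg k hD, hD.1, le_sSup hD, (lar_simple k hA hD).le⟩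
  obtain ⟨t, ht, hVt⟩ := fin_sup k hV _ hVA
  have hbot : P ⊥ := by
    refine ⟨Submodule.fg_bot, ?_, bot_le, ?_⟩
    · intro x hx
      rw [Submodule.mem_bot] at hx
      rw [hx, map_zero]
      exact Submodule.zero_mem _
    · rw [Submodule.map_bot, Submodule.map_bot]
  have h1 : P (t.sup id) :=
    Finset.sup_induction hbot (fun a ha b hb => hsup a b ha hb) (fun b hb => hsimp b (ht hb))
  obtain ⟨c1, c2, c3, c4⟩ := hsup _ _ h1 (hsimp _ (simple_one k))
  set E := t.sup id ⊔ Submodule.span k {(1 : H)} with hE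
  refine ⟨E ⊔ E.map (HopfAlgebra.antipode k), c1.sup (c1.map _), cs_sup k c2 (ac_sub k c2),
    hVt.trans (le_sup_left.trans le_sup_left), ?_, sup_le c3 (map_le k hA c3), ?_⟩
  · exact Submodule.mem_sup_left (Submodule.mem_sup_right (Submodule.mem_span_singleton_self 1))
  · intro x hx
    have h2 : (E ⊔ E.map (HopfAlgebra.antipode k)).map (HopfAlgebra.antipode k) ≤
        E ⊔ E.map (HopfAlgebra.antipode k) := by
      rw [Submodule.map_sup]
      exact sup_le le_sup_right (c4.trans le_sup_left)
    exact h2 ⟨x, hx, rfl⟩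

end hopf

end Pool.Agent.GKP
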