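import Pool.Agent.Lib_helper54.GKP.Base
import Pool.Agent.Lib_helper54.GKP.CS1

/-! Block SOC, written by helper26. -/

/-!
MP_49c8ed_al, block SOC: the socle of a comodule is in the coradical.
-/

set_option autoImplicit false

universe u v

namespace Pool.Agent.GKP

open TensorProduct Pool.Agent.GK Pool.Agent.GKC Filter Topology

section abs
variable (k : Type u) [Field k] {H : Type v} [AddCommGroup H] [Module k H]

/-- stability, abstractly -/
def soc_St (L : Module.Dual k H →ₗ[k] H →ₗ[k] H) (D : Submodule k H) : Prop :=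
  ∀ f : Module.Dual k H, ∀ x ∈ D, L f x ∈ D

theorem soc_sep {x y : H} (h : ∀ f : Module.Dual k H, f x = f y) : x = y := by
  rw [← sub_eq_zero, ← Module.forall_dual_apply_eq_zero_iff k]
  intro f
  rw [map_sub, h f, sub_self]

/-- the two commuting actions of the dual on a coalgebra, abstractly -/
structure soc_Pair (ε : Module.Dual k H) (L R : Module.Dual k H →ₗ[k] H →ₗ[k] H) : Prop where
  dual : ∀ (f h : Module.Dual k H) (x : H), f (R h x) = h (L f x)
  LR : ∀ (f g : Module.Dual k H) (x : H), L f (R g x) = R g (L f x)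
  RR : ∀ f g : Module.Dual k H, ∃ h : Module.Dual k H, ∀ x, R f (R g x) = R h x
  Lε : ∀ x, L ε x = x
  Rε : ∀ x, R ε x = x

variable {k}

/-- a minimal left stable subspace lies in a simple bi-stable subspace -/
theorem soc_simple {ε : Module.Dual k H} {L R : Module.Dual k H →ₗ[k] H →ₗ[k] H}
    (P : soc_Pair k ε L R) {M Y : Submodule k H} (hMf : M.FG)
    (hMR : soc_St k R M) (hYM : Y ≤ M) (hYL : soc_St k L Y) (hY0 : Y ≠ ⊥)
    (hYmin : ∀ Y' : Submodule k H, soc_St k L Y' → Y' ≤ Y → Y' = ⊥ ∨ Y' = Y) :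
    ∃ E : Submodule k H, E ≠ ⊥ ∧ soc_St k L E ∧ soc_St k R E ∧
      (∀ D : Submodule k H, soc_St k L D → soc_St k R D → D ≤ E → D = ⊥ ∨ D = E) ∧
      E ≤ M ∧ Y ≤ E := by
  classical
  set U : Submodule k H := ⨆ g, Y.map (R g) with hU
  have hYU : Y ≤ U := fun y hy => Submodule.mem_iSup_of_mem ε ⟨y, hy, P.Rε y⟩
  have hUL : soc_St k L U := by
    intro f x hx
    have : U ≤ U.comap (L f) := by
      rw [hU]
      refine iSup_le fun g' => ?_
      rw [Submodule.map_le_iff_le_comap]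
      intro w hw
      simp only [Submodule.mem_comap]
      rw [P.LR]
      exact Submodule.mem_iSup_of_mem _ (Submodule.mem_map_of_mem (hYL f w hw))
    exact this hx
  have hUR : soc_St k R U := by
    intro f x hx
    have : U ≤ U.comap (R f) := by
      rw [hU]
      refine iSup_le fun g' => ?_
      rw [Submodule.map_le_iff_le_comap]
      intro w hw
      simp only [Submodule.mem_comap]
      obtain ⟨h, hh⟩ := P.RR f g'
      rw [hh]
      exact Submodule.mem_iSup_of_mem _ (Submodule.mem_map_of_mem hw)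
    exact this hx
  have hUM : U ≤ M := by
    refine iSup_le fun g => ?_
    rw [Submodule.map_le_iff_le_comap]
    exact fun w hw => hMR g w (hYM hw)
  have hU0 : U ≠ ⊥ := fun h => hY0 (by rw [eq_bot_iff, ← h]; exact hYU)
  have hMfin : Module.Finite k M := Module.Finite.iff_fg.2 hMf
  -- a simple bi-stable subspace
  have hex : ∃ n : ℕ, ∃ E : Submodule k H, E ≠ ⊥ ∧ soc_St k L E ∧ soc_St k R E ∧ E ≤ U ∧
      Module.finrank k E = n := ⟨_, U, hU0, hUL, hUR, le_rfl, rfl⟩
  obtain ⟨E, e0, eL, eR, eU, en⟩ := Nat.find_spec hex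
  have eM : E ≤ M := eU.trans hUM
  have hEfin : Module.Finite k E := Submodule.finiteDimensional_of_le eM
  have hEmin : ∀ D : Submodule k H, soc_St k L D → soc_St k R D → D ≤ E → D = ⊥ ∨ D = E := by
    intro D hDL hDR hDE
    by_contra hcon
    push Not at hcon
    have hlt : Module.finrank k D < Module.finrank k E :=
      Submodule.finrank_lt_finrank_of_lt (lt_of_le_of_ne hDE hcon.2)
    exact Nat.find_min hex (en ▸ hlt) ⟨D, hcon.1, hDL, hDR, hDE.trans eU, rfl⟩
  refine ⟨E, e0, eL, eR, hEmin, eM, ?_⟩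
  by_contra hYE
  -- `Y ⊓ E = ⊥`
  have hYE0 : Y ⊓ E = ⊥ := by
    rcases hYmin (Y ⊓ E) (fun f x hx => ⟨hYL f x hx.1, eL f x hx.2⟩) inf_le_left with h | h
    · exact h
    · exact absurd (inf_eq_left.1 h) hYE
  -- all finite stages
  have key : ∀ s : Finset (Module.Dual k H), E ⊓ ⨆ g ∈ s, Y.map (R g) = ⊥ := by
    intro s
    induction s using Finset.induction_on with
    | empty => simp
    | insert g s _ ih =>
      set T : Submodule k H := ⨆ g ∈ s, Y.map (R g) with hT
      have hTL : soc_St k L T := by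
        intro f x hx
        have : T ≤ T.comap (L f) := by
          rw [hT]
          refine iSup_le fun g' => iSup_le fun hg' => ?_
          rw [Submodule.map_le_iff_le_comap]
          intro w hw
          simp only [Submodule.mem_comap]
          rw [P.LR]
          exact Submodule.mem_iSup_of_mem _ (Submodule.mem_iSup_of_mem hg'
            (Submodule.mem_map_of_mem (hYL f w hw)))
        exact this hx
      rw [Finset.iSup_insert, eq_bot_iff]
      rintro e ⟨heE, he⟩
      obtain ⟨a, ha, z, hz, haz⟩ := Submodule.mem_sup.1 he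
      obtain ⟨y, hy, rfl⟩ := Submodule.mem_map.1 ha
      -- the kernel of `R_g` modulo `T`
      rcases hYmin (Y ⊓ T.comap (R g)) (fun f x hx => ⟨hYL f x hx.1, by
          change R g (L f x) ∈ T
          rw [← P.LR]
          exact hTL f _ hx.2⟩) inf_le_left with h1 | h1
      swap
      · have hyT : R g y ∈ T := (inf_eq_left.1 h1 hy)
        have : e ∈ E ⊓ T := ⟨heE, by rw [← haz]; exact T.add_mem hyT hz⟩
        rwa [ih] at this
      rcases hYmin (Y ⊓ (E ⊔ T).comap (R g)) (fun f x hx => ⟨hYL f x hx.1, by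
          change R g (L f x) ∈ E ⊔ T
          rw [← P.LR]
          obtain ⟨p, hp, q, hq, hpq⟩ := Submodule.mem_sup.1 (Submodule.mem_comap.1 hx.2)
          rw [← hpq, map_add]
          exact Submodule.add_mem_sup (eL f p hp) (hTL f q hq)⟩) inf_le_left with h2 | h2
      · have hy2 : y ∈ Y ⊓ (E ⊔ T).comap (R g) := ⟨hy, by
          change R g y ∈ E ⊔ T
          have : R g y = e - z := by rw [← haz]; abel
          rw [this]
          exact Submodule.sub_mem _ (Submodule.mem_sup_left heE) (Submodule.mem_sup_right hz)⟩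
        rw [h2, Submodule.mem_bot] at hy2
        rw [hy2, map_zero, zero_add] at haz
        have : e ∈ E ⊓ T := ⟨heE, by rw [← haz]; exact hz⟩
        rwa [ih] at this
      · exfalso
        -- projection onto `E` along `T`
        have hd : Disjoint E T := disjoint_iff.2 ih
        obtain ⟨ρ, ρ1, ρ2, ρ3⟩ : ∃ ρ : H →ₗ[k] H, (∀ x ∈ E, ρ x = x) ∧ (∀ x, ρ x ∈ E) ∧
            ∀ x ∈ T, ρ x = 0 := by
          obtain ⟨C', hle, hC'⟩ : ∃ C' : Submodule k H, T ≤ C' ∧ IsCompl E C' :=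
            hd.symm.exists_isCompl.imp fun C' h => ⟨h.1, h.2.symm⟩
          refine ⟨E.subtype ∘ₗ E.projectionOnto C' hC', fun x hx => ?_, fun x => ?_,
            fun x hx => ?_⟩
          · simp only [LinearMap.comp_apply, Submodule.subtype_apply]
            exact congrArg Subtype.val (Submodule.projectionOnto_apply_left hC' ⟨x, hx⟩)
          · simp
          · simp only [LinearMap.comp_apply, Submodule.subtype_apply]
            rw [Submodule.projectionOnto_apply_eq_zero_iff hC' |>.2 (hle hx)]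
            rfl
        have hcomm : ∀ f, ∀ w ∈ Y, ρ (R g (L f w)) = L f (ρ (R g w)) := by
          intro f w hw
          have hw2 : w ∈ Y ⊓ (E ⊔ T).comap (R g) := by rw [h2]; exact hw
          obtain ⟨p, hp, q, hq, hpq⟩ := Submodule.mem_sup.1 (Submodule.mem_comap.1 hw2.2)
          rw [← P.LR, ← hpq, map_add, map_add, map_add, ρ1 _ (eL f p hp), ρ3 _ (hTL f q hq),
            ρ1 _ hp, ρ3 _ hq, add_zero, add_zero]
        have hinj : ∀ w ∈ Y, ρ (R g w) = 0 → w = 0 := by
          intro w hw h0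
          have hw2 : w ∈ Y ⊓ (E ⊔ T).comap (R g) := by rw [h2]; exact hw
          obtain ⟨p, hp, q, hq, hpq⟩ := Submodule.mem_sup.1 (Submodule.mem_comap.1 hw2.2)
          rw [← hpq, map_add, ρ1 _ hp, ρ3 _ hq, add_zero] at h0
          rw [h0, zero_add] at hpq
          have : w ∈ Y ⊓ T.comap (R g) := ⟨hw, by change R g w ∈ T; rw [← hpq]; exact hq⟩
          rwa [h1, Submodule.mem_bot] at this
        -- the functional
        obtain ⟨p, hp⟩ := (ρ ∘ₗ R g ∘ₗ Y.subtype).exists_leftInverse_of_injective (by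
          rw [LinearMap.ker_eq_bot']
          intro w hw
          exact Subtype.ext (hinj w.1 w.2 hw))
        set h : Module.Dual k H := ε ∘ₗ Y.subtype ∘ₗ p with hh
        have hval : ∀ w ∈ Y, h (ρ (R g w)) = ε w := by
          intro w hw
          have h3 := LinearMap.congr_fun hp ⟨w, hw⟩
          simp only [LinearMap.comp_apply, Submodule.subtype_apply, LinearMap.id_apply] at h3
          simp only [hh, LinearMap.comp_apply, Submodule.subtype_apply, h3]
        apply hYE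
        intro w hw
        have : w = R h (ρ (R g w)) := by
          apply soc_sep k
          intro f
          rw [P.dual, ← hcomm f w hw, hval _ (hYL f w hw), ← P.dual, P.Rε]
        rw [this]
        exact eR h _ (ρ2 _)
  -- contradiction
  obtain ⟨e, heE, he0⟩ := E.ne_bot_iff.1 e0
  obtain ⟨s, hs⟩ := Submodule.exists_finset_of_mem_iSup _ (eU heE)
  have : e ∈ E ⊓ ⨆ g ∈ s, Y.map (R g) := ⟨heE, hs⟩
  rw [key s, Submodule.mem_bot] at this
  exact he0 this

theorem soc_abs {ε : Module.Dual k H} {L R : Module.Dual k H →ₗ[k] H →ₗ[k] H}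
    (P : soc_Pair k ε L R) {A M X F : Submodule k H} (hMf : M.FG)
    (hMR : soc_St k R M)
    (hA : ∀ D : Submodule k H, D ≠ ⊥ → soc_St k L D → soc_St k R D →
      (∀ D' : Submodule k H, soc_St k L D' → soc_St k R D' → D' ≤ D → D' = ⊥ ∨ D' = D) →
      D ≤ M → D ≤ A) (hX : soc_St k L X)
    (hXM : X ≤ M) (hF : soc_St k L F) (hne : ¬ X ≤ F) :
    ∃ w ∈ X, w ∉ F ∧ ∀ g : Module.Dual k H, (∀ x ∈ A, g x = 0) → L g w ∈ F := by
  classical
  have hMfin : Module.Finite k M := Module.Finite.iff_fg.2 hMf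
  -- minimal `X₁ ≤ X`
  have hex : ∃ n : ℕ, ∃ X₁ : Submodule k H, X₁ ≤ X ∧ soc_St k L X₁ ∧ ¬ X₁ ≤ F ∧
      Module.finrank k X₁ = n := ⟨_, X, le_rfl, hX, hne, rfl⟩
  obtain ⟨X₁, a1, a2, a3, a4⟩ := Nat.find_spec hex
  have hX₁M : X₁ ≤ M := a1.trans hXM
  have hX₁fin : Module.Finite k X₁ := Submodule.finiteDimensional_of_le hX₁M
  have hmin : ∀ X' : Submodule k H, soc_St k L X' → X' ≤ X₁ → X' ≠ X₁ → X' ≤ F := by
    intro X' h1 h2 h3
    by_contra hcon
    have hlt : Module.finrank k X' < Module.finrank k X₁ :=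
      Submodule.finrank_lt_finrank_of_lt (lt_of_le_of_ne h2 h3)
    exact Nat.find_min hex (a4 ▸ hlt) ⟨X', h2.trans a1, h1, hcon, rfl⟩
  obtain ⟨x₀, hx₀, hx₀F⟩ := SetLike.not_le_iff_exists.1 a3
  obtain ⟨ξ, hξF, hξ1⟩ : ∃ ξ : Module.Dual k H, (∀ y ∈ F, ξ y = 0) ∧ ξ x₀ ≠ 0 := by
    obtain ⟨ξ, hξ1, hξ2⟩ := Submodule.exists_dual_map_eq_bot_of_notMem hx₀F inferInstance
    refine ⟨ξ, fun y hy => ?_, hξ1⟩
    have h5 : ξ y ∈ F.map ξ := Submodule.mem_map_of_mem hy
    rw [hξ2, Submodule.mem_bot] at h5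
    exact h5
  have hRF : ∀ y ∈ F, R ξ y = 0 := by
    intro y hy
    apply soc_sep k
    intro f
    rw [P.dual, hξF _ (hF f y hy), map_zero]
  have hker : ∀ w ∈ X₁, R ξ w = 0 → w ∈ F := by
    intro w hw h0
    refine hmin (X₁ ⊓ LinearMap.ker (R ξ)) ?_ inf_le_left ?_ ⟨hw, h0⟩
    · intro f x hx
      refine ⟨a2 f x hx.1, ?_⟩
      change R ξ (L f x) = 0
      rw [← P.LR, LinearMap.mem_ker.1 hx.2, map_zero]
    · intro h
      have h1 : x₀ ∈ X₁ ⊓ LinearMap.ker (R ξ) := by rw [h]; exact hx₀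
      have h2 : ε (R ξ x₀) = ξ x₀ := by rw [P.dual, P.Lε]
      rw [LinearMap.mem_ker.1 h1.2, map_zero] at h2
      exact hξ1 h2.symm
  set Y : Submodule k H := X₁.map (R ξ) with hY
  have hYM : Y ≤ M := by
    rw [hY, Submodule.map_le_iff_le_comap]
    exact fun w hw => hMR ξ w (hX₁M hw)
  have hYL : soc_St k L Y := by
    rintro f _ ⟨w, hw, rfl⟩
    exact ⟨L f w, a2 f w hw, (P.LR f ξ w).symm⟩
  have hY0 : Y ≠ ⊥ := by
    intro h
    have : R ξ x₀ ∈ Y := Submodule.mem_map_of_mem hx₀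
    rw [h, Submodule.mem_bot] at this
    exact hx₀F (hker x₀ hx₀ this)
  have hYmin : ∀ Y' : Submodule k H, soc_St k L Y' → Y' ≤ Y → Y' = ⊥ ∨ Y' = Y := by
    intro Y' h1 h2
    by_cases h3 : X₁ ⊓ Y'.comap (R ξ) = X₁
    · right
      refine le_antisymm h2 ?_
      rw [hY, Submodule.map_le_iff_le_comap]
      exact inf_eq_left.1 h3
    · left
      have h4 := hmin (X₁ ⊓ Y'.comap (R ξ)) (fun f x hx => ⟨a2 f x hx.1, by
        change R ξ (L f x) ∈ Y'
        rw [← P.LR]
        exact h1 f _ hx.2⟩) inf_le_left h3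
      rw [eq_bot_iff]
      intro y hy
      obtain ⟨w, hw, rfl⟩ := Submodule.mem_map.1 (h2 hy)
      rw [Submodule.mem_bot]
      exact hRF w (h4 ⟨hw, hy⟩)
  obtain ⟨E, e0, eL, eR, emin, eM, hYE⟩ := soc_simple P hMf hMR hYM hYL hY0 hYmin
  have hEA : E ≤ A := hA E e0 eL eR emin eM
  refine ⟨x₀, a1 hx₀, hx₀F, fun g hg => ?_⟩
  apply hker _ (a2 g x₀ hx₀)
  rw [← P.LR]
  have hin : R ξ x₀ ∈ E := hYE (Submodule.mem_map_of_mem hx₀)
  apply soc_sep k
  intro f
  rw [map_zero, ← P.dual]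
  exact hg _ (hEA (eR f _ hin))

end abs

section bialg
variable (k : Type u) [Field k] {H : Type v} [Ring H] [Bialgebra k H]

theorem soc_dual (f h : Module.Dual k H) (x : H) : f (FLAG_R k h x) = h (FLAG_L k f x) := by
  rw [FLAG_R_apply, FLAG_L_apply]
  generalize Coalgebra.comul (R := k) x = t
  induction t with
  | zero => simp
  | tmul a b => simp [mul_comm]
  | add s t hs ht => simp only [map_add, hs, ht]

theorem soc_pairL : soc_Pair k (Coalgebra.counit (R := k) (A := H)) (FLAG_L k) (FLAG_R k) where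
  dual := soc_dual k
  LR := FLAG_LR k
  RR := fun f g => ⟨_, FLAG_RR k f g⟩
  Lε := FLAG_Lcounit k
  Rε := FLAG_Rcounit k

theorem soc_pairR : soc_Pair k (Coalgebra.counit (R := k) (A := H)) (FLAG_R k) (FLAG_L k) where
  dual := fun f h x => (soc_dual k h f x).symm
  LR := fun f g x => (FLAG_LR k g f x).symm
  RR := fun f g => ⟨_, FLAG_LL k f g⟩
  Lε := FLAG_Rcounit k
  Rε := FLAG_Lcounit k

theorem soc_L {A M X F : Submodule k H} (hMf : M.FG) (hM : IsSubcoalgebra k M)
    (hA : ∀ D : Submodule k H, IsSimpleSubcoalgebra k D → D ≤ M → D ≤ A) (hX : LS k X)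
    (hXM : X ≤ M) (hF : LS k F) (hne : ¬ X ≤ F) :
    ∃ w ∈ X, w ∉ F ∧ ∀ g : Module.Dual k H, Van k A g → FLAG_L k g w ∈ F := by
  refine soc_abs (soc_pairL k) hMf (RS_of_sub k hM) (fun D h0 h1 h2 h3 h4 => ?_) hX hXM hF hne
  refine hA D ⟨(sub_iff k).2 ⟨h1, h2⟩, h0, fun E hE hED => ?_⟩ h4
  exact h3 E (LS_of_sub k hE) (RS_of_sub k hE) hED

theorem soc_R {A M X F : Submodule k H} (hMf : M.FG) (hM : IsSubcoalgebra k M)
    (hA : ∀ D : Submodule k H, IsSimpleSubcoalgebra k D → D ≤ M → D ≤ A) (hX : RS k X)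
    (hXM : X ≤ M) (hF : RS k F) (hne : ¬ X ≤ F) :
    ∃ w ∈ X, w ∉ F ∧ ∀ g : Module.Dual k H, Van k A g → FLAG_R k g w ∈ F := by
  refine soc_abs (soc_pairR k) hMf (LS_of_sub k hM) (fun D h0 h1 h2 h3 h4 => ?_) hX hXM hF hne
  refine hA D ⟨(sub_iff k).2 ⟨h2, h1⟩, h0, fun E hE hED => ?_⟩ h4
  exact h3 E (RS_of_sub k hE) (LS_of_sub k hE) hED

end bialg

end Pool.Agent.GKP
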