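import Pool.Agent.Lib_helper54.GKP.Base
import Pool.Agent.Lib_helper54.GKP.CS2
import Pool.Agent.Lib_helper54.GKP.SOC

/-! Block ND, written by helper30. -/

/-!
MP_49c8ed_al, block ND: no distortion of the coradical.
-/

set_option autoImplicit false

universe u v

namespace Pool.Agent.GKP

open TensorProduct Pool.Agent.GK Pool.Agent.GKC Pool.Agent.GKP Filter Topology

section bialg
variable (k : Type u) [Field k] {H : Type v} [Ring H] [Bialgebra k H]

/-- a maximal proper subcoalgebra above a given one -/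
private theorem nd_wf {M P : Submodule k H} (hMf : M.FG) (hP : IsSubcoalgebra k P)
    (hPM : P ≤ M) (hne : P ≠ M) :
    ∃ M' : Submodule k H, IsSubcoalgebra k M' ∧ P ≤ M' ∧ M' ≤ M ∧ M' ≠ M ∧
      ∀ W : Submodule k H, IsSubcoalgebra k W → M' ≤ W → W ≤ M → W ≠ M → W = M' := by
  let s : Set (Submodule k H) := {C | IsSubcoalgebra k C ∧ P ≤ C ∧ C ≤ M ∧ C ≠ M}
  let f : Submodule k H → ℕ := fun C => Module.finrank k M - Module.finrank k C
  obtain ⟨C, ⟨hC1, hC2, hC3, hC4⟩, hmin⟩ := (measure f).wf.has_min s ⟨P, hP, le_rfl, hPM, hne⟩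
  refine ⟨C, hC1, hC2, hC3, hC4, fun W hW hCW hWM hWne => ?_⟩
  by_contra hcon
  have hlt : C < W := lt_of_le_of_ne hCW (Ne.symm hcon)
  have hlt' : W < M := lt_of_le_of_ne hWM hWne
  haveI : Module.Finite k ↥M := Module.Finite.iff_fg.2 hMf
  haveI : Module.Finite k ↥W := Module.Finite.iff_fg.2 (hMf.of_le hWM)
  have h1 := Submodule.finrank_lt_finrank_of_lt hlt
  have h2 := Submodule.finrank_lt_finrank_of_lt hlt'
  refine hmin W ⟨hW, hC2.trans hCW, hWM, hWne⟩ ?_
  change Module.finrank k M - Module.finrank k W < Module.finrank k M - Module.finrank k C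
  omega

private theorem nd_max {M M₀ : Submodule k H} (hMf : M.FG) (hM : IsSubcoalgebra k M)
    (hM₀ : IsSubcoalgebra k M₀)
    (h1 : ∀ D : Submodule k H, IsSimpleSubcoalgebra k D → D ≤ M → D ≤ M₀) (hne : ¬ M ≤ M₀) :
    ∃ M' : Submodule k H, IsSubcoalgebra k M' ∧ M' ≤ M ∧ M' ≠ M ∧
      ∀ w ∈ M, Coalgebra.comul (R := k) w ∈ tsp k M' ⊤ ⊔ tsp k ⊤ M' := by
  obtain ⟨M', hM', hP, hle, hne', hmax⟩ := nd_wf k hMf (cs_inf k hM hM₀) (inf_le_left)
    (fun h => hne (by rw [← h]; exact inf_le_right))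
  refine ⟨M', hM', hle, hne', fun w hw => ?_⟩
  set W : Submodule k H := M ⊓ ⨅ g : {g : Module.Dual k H // Van k M' g},
    M'.comap (FLAG_L k g.1) with hW
  have hWL : LS k W := LS_van k (LS_of_sub k hM') (LS_of_sub k hM)
  have hWR : RS k W := by
    intro f x hx
    obtain ⟨h2, h3⟩ := (mem_van k).1 hx
    refine (mem_van k).2 ⟨RS_of_sub k hM f x h2, fun g hg => ?_⟩
    rw [FLAG_LR]
    exact RS_of_sub k hM' f _ (h3 g hg)
  have hWs : IsSubcoalgebra k W := (sub_iff k).2 ⟨hWL, hWR⟩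
  have hMW : M' ≤ W := fun x hx =>
    (mem_van k).2 ⟨hle hx, fun g _ => LS_of_sub k hM' g x hx⟩
  have hWM : W = M := by
    by_contra hcon
    have h2 := hmax W hWs hMW inf_le_left hcon
    obtain ⟨x, hxM, hxM', hx⟩ := soc_L k (A := M') (F := M') (X := M) hMf hM
      (fun D hD hDM => (le_inf hDM (h1 D hD hDM)).trans hP) (LS_of_sub k hM) le_rfl
      (LS_of_sub k hM') (fun h => hne' (le_antisymm hle h))
    have h3 : x ∈ W := (mem_van k).2 ⟨hxM, hx⟩
    rw [h2] at h3
    exact hxM' h3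
  rw [mem_tsp_sup]
  intro g hg
  have h4 : w ∈ W := by rw [hWM]; exact hw
  exact ((mem_van k).1 h4).2 g hg

/-- a simple subcoalgebra whose comultiplication is in `Q ⊗ H + H ⊗ Q` is in `Q` -/
private theorem nd_le {Q D : Submodule k H} (hQ : IsSubcoalgebra k Q)
    (hD : IsSimpleSubcoalgebra k D)
    (h : ∀ x ∈ D, Coalgebra.comul (R := k) x ∈ tsp k Q ⊤ ⊔ tsp k ⊤ Q) : D ≤ Q := by
  rcases hD.2.2 (D ⊓ Q) (cs_inf k hD.1 hQ) inf_le_left with h0 | h0
  · exfalso
    apply hD.2.1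
    rw [eq_bot_iff]
    intro x hx
    have h2 : ∀ g : Module.Dual k H, Van k Q g → g x = 0 := by
      intro g hg
      have h3 : FLAG_L k g x ∈ Q := (mem_tsp_sup k).1 (h x hx) g hg
      have h4 : FLAG_L k g x ∈ D ⊓ Q := ⟨LS_of_sub k hD.1 g x hx, h3⟩
      rw [h0, Submodule.mem_bot] at h4
      have h5 := FLAG_counitL k g x
      rw [h4, map_zero] at h5
      exact h5.symm
    have h6 : x ∈ D ⊓ Q := ⟨hx, mem_of_Van k h2⟩
    rw [h0] at h6
    exact h6
  · rw [← h0]
    exact inf_le_right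

private theorem nd_left {M₀ N : Submodule k H} (hN : IsSubcoalgebra k N)
    (hM₀ : IsSubcoalgebra k M₀) {D : Submodule k H} (hD : IsSimpleSubcoalgebra k D) (d : ℕ) :
    ∀ M : Submodule k H, M.FG → Module.finrank k M ≤ d → IsSubcoalgebra k M →
      (∀ D : Submodule k H, IsSimpleSubcoalgebra k D → D ≤ M → D ≤ M₀) →
      D ≤ M * N → D ≤ M₀ * N := by
  induction d with
  | zero =>
    intro M hMf hd hM h1 h
    have h2 : M ≤ M₀ := by
      haveI : Module.Finite k ↥M := Module.Finite.iff_fg.2 hMf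
      have h3 : M = ⊥ := Submodule.finrank_eq_zero.1 (Nat.le_zero.1 hd)
      rw [h3]
      exact bot_le
    exact h.trans (mul_le_mul' h2 le_rfl)
  | succ d ih =>
    intro M hMf hd hM h1 h
    by_cases hne : M ≤ M₀
    · exact h.trans (mul_le_mul' hne le_rfl)
    obtain ⟨M', hM', hle, hne', hc⟩ := nd_max k hMf hM hM₀ h1 hne
    have hlt : M' < M := lt_of_le_of_ne hle hne'
    haveI : Module.Finite k ↥M := Module.Finite.iff_fg.2 hMf
    have h2 := Submodule.finrank_lt_finrank_of_lt hlt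
    refine ih M' (hMf.of_le hle) (by omega) hM' (fun E hE hEM => h1 E hE (hEM.trans hle)) ?_
    refine nd_le k (sub_mul hM' hN) hD fun x hx => ?_
    refine Submodule.mul_induction_on (h hx) ?_ ?_
    · intro a ha b hb
      rw [Bialgebra.comul_mul]
      obtain ⟨s, hs, t, ht, e⟩ := Submodule.mem_sup.1 (hc a ha)
      rw [← e, add_mul]
      refine Submodule.add_mem_sup ?_ ?_
      · exact tsp_mono k le_rfl le_top (tsp_mul_tsp k hs (hN b hb))
      · exact tsp_mono k le_top le_rfl (tsp_mul_tsp k ht (hN b hb))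
    · intro a b ha hb
      rw [map_add]
      exact Submodule.add_mem _ ha hb

private theorem nd_right {M N₀ : Submodule k H} (hM : IsSubcoalgebra k M)
    (hN₀ : IsSubcoalgebra k N₀) {D : Submodule k H} (hD : IsSimpleSubcoalgebra k D) (d : ℕ) :
    ∀ N : Submodule k H, N.FG → Module.finrank k N ≤ d → IsSubcoalgebra k N →
      (∀ D : Submodule k H, IsSimpleSubcoalgebra k D → D ≤ N → D ≤ N₀) →
      D ≤ M * N → D ≤ M * N₀ := by
  induction d with
  | zero =>
    intro N hNf hd hN h1 h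
    have h2 : N ≤ N₀ := by
      haveI : Module.Finite k ↥N := Module.Finite.iff_fg.2 hNf
      have h3 : N = ⊥ := Submodule.finrank_eq_zero.1 (Nat.le_zero.1 hd)
      rw [h3]
      exact bot_le
    exact h.trans (mul_le_mul' le_rfl h2)
  | succ d ih =>
    intro N hNf hd hN h1 h
    by_cases hne : N ≤ N₀
    · exact h.trans (mul_le_mul' le_rfl hne)
    obtain ⟨N', hN', hle, hne', hc⟩ := nd_max k hNf hN hN₀ h1 hne
    have hlt : N' < N := lt_of_le_of_ne hle hne'
    haveI : Module.Finite k ↥N := Module.Finite.iff_fg.2 hNf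
    have h2 := Submodule.finrank_lt_finrank_of_lt hlt
    refine ih N' (hNf.of_le hle) (by omega) hN' (fun E hE hEM => h1 E hE (hEM.trans hle)) ?_
    refine nd_le k (sub_mul hM hN') hD fun x hx => ?_
    refine Submodule.mul_induction_on (h hx) ?_ ?_
    · intro a ha b hb
      rw [Bialgebra.comul_mul]
      obtain ⟨s, hs, t, ht, e⟩ := Submodule.mem_sup.1 (hc b hb)
      rw [← e, mul_add]
      refine Submodule.add_mem_sup ?_ ?_
      · exact tsp_mono k le_rfl le_top (tsp_mul_tsp k (hM a ha) hs)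
      · exact tsp_mono k le_top le_rfl (tsp_mul_tsp k (hM a ha) ht)
    · intro a b ha hb
      rw [map_add]
      exact Submodule.add_mem _ ha hb

/-- a simple subcoalgebra of a product -/
theorem nd_simple {M M₀ N N₀ : Submodule k H} (hMf : M.FG) (hNf : N.FG)
    (hM : IsSubcoalgebra k M) (hN : IsSubcoalgebra k N) (hM₀ : IsSubcoalgebra k M₀)
    (hN₀ : IsSubcoalgebra k N₀)
    (h1 : ∀ D : Submodule k H, IsSimpleSubcoalgebra k D → D ≤ M → D ≤ M₀)
    (h2 : ∀ D : Submodule k H, IsSimpleSubcoalgebra k D → D ≤ N → D ≤ N₀)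
    {D : Submodule k H} (hD : IsSimpleSubcoalgebra k D) (h : D ≤ M * N) : D ≤ M₀ * N₀ :=
  nd_right k hM₀ hN₀ hD _ N hNf le_rfl hN h2
    (nd_left k hN hM₀ hD _ M hMf le_rfl hM h1 h)

/-- the intersection of a product with the coradical -/
theorem nd_mul {M N : Submodule k H} (hMf : M.FG) (hNf : N.FG)
    (hM : IsSubcoalgebra k M) (hN : IsSubcoalgebra k N) :
    (M * N) ⊓ coradical k H ≤ (M ⊓ coradical k H) * (N ⊓ coradical k H) := by
  have hc : IsSubcoalgebra k (coradical k H) := by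
    rw [sub_iff, coradical, sSup_eq_iSup']
    exact ⟨LS_iSup k fun D => LS_of_sub k D.2.1, RS_iSup k fun D => RS_of_sub k D.2.1⟩
  refine (cs_main k (cs_inf k (sub_mul hM hN) hc) inf_le_right).trans (sSup_le ?_)
  rintro E ⟨hE, hle⟩
  refine nd_simple k hMf hNf hM hN (cs_inf k hM hc) (cs_inf k hN hc) ?_ ?_ hE
    (hle.trans inf_le_left)
  · exact fun D hD hDM => le_inf hDM (le_sSup hD)
  · exact fun D hD hDM => le_inf hDM (le_sSup hD)

theorem nd_pow {M : Submodule k H} (hMf : M.FG) (hM : IsSubcoalgebra k M) (n : ℕ) :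
    M ^ n ⊓ coradical k H ≤ (M ⊓ coradical k H) ^ n := by
  induction n with
  | zero =>
    rw [pow_zero, pow_zero]
    exact inf_le_left
  | succ n ih =>
    rw [pow_succ, pow_succ]
    exact (nd_mul k (hMf.pow n) hMf (sub_pow hM n) hM).trans (mul_le_mul' ih le_rfl)

end bialg

end Pool.Agent.GKP
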