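import Pool.Agent.Lib_helper54.GKP.Base
import Pool.Agent.Lib_helper54.GKP.CS2
import Pool.Agent.Lib_helper54.GKP.ND
import Pool.Agent.Lib_helper54.GKP.LAR
import Pool.Agent.Lib_helper54.GKP.CX1

/-! Block CX2, written by helper61. -/

/-!
MP_49c8ed_al, gap theorems: block CX2 (contexts).
-/

set_option autoImplicit false

universe u v

namespace Pool.Agent.GKP

open TensorProduct Pool.Agent.GK Pool.Agent.GKC Filter Topology Pool.Agent.GKP

section hopf
variable (k : Type u) [Field k] {H : Type v} [Ring H] [HopfAlgebra k H]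

private theorem one_sub : IsSubcoalgebra k (1 : Submodule k H) := by
  intro x hx
  obtain ⟨c, rfl⟩ := Submodule.mem_one.1 hx
  have h1 : Coalgebra.comul (R := k) ((algebraMap k H) c) =
      ((algebraMap k H) c) ⊗ₜ[k] (1 : H) := by
    rw [Algebra.algebraMap_eq_smul_one, map_smul, Bialgebra.comul_one,
      Algebra.TensorProduct.one_def, TensorProduct.smul_tmul']
  rw [h1]
  exact tmul_mem_tsp k (Submodule.mem_one.2 ⟨c, rfl⟩) (Submodule.mem_one.2 ⟨1, map_one _⟩)

private theorem pow_sub {C : Submodule k H} (hC : IsSubcoalgebra k C) (n : ℕ) :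
    IsSubcoalgebra k (C ^ n) := by
  induction n with
  | zero => rw [pow_zero]; exact one_sub k
  | succ n ih =>
    rw [pow_succ, sub_iff]
    exact ⟨LS_mul k (LS_of_sub k ih) (LS_of_sub k hC), RS_mul k (RS_of_sub k ih) (RS_of_sub k hC)⟩

private theorem ant_pow {E : Submodule k H} (hE : ∀ x ∈ E, HopfAlgebra.antipode k x ∈ E)
    (n : ℕ) : ∀ x ∈ E ^ n, HopfAlgebra.antipode k x ∈ E ^ n := by
  induction n with
  | zero =>
    intro x hx
    rw [pow_zero] at hx ⊢
    obtain ⟨c, rfl⟩ := Submodule.mem_one.1 hx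
    rw [Algebra.algebraMap_eq_smul_one, map_smul, HopfAlgebra.antipode_one]
    exact Submodule.mem_one.2 ⟨c, Algebra.algebraMap_eq_smul_one c⟩
  | succ n ih =>
    intro x hx
    rw [pow_succ] at hx
    refine Submodule.mul_induction_on hx ?_ ?_
    · intro a ha b hb
      rw [HopfAlgebra.antipode_mul_antidistrib, pow_succ']
      exact Submodule.mul_mem_mul (hE b hb) (ih a ha)
    · intro a b ha hb
      rw [map_add]
      exact Submodule.add_mem _ ha hb

private theorem pow_le_of {A E : Submodule k H} (h1 : (1 : H) ∈ A) (hm : A * A ≤ A)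
    (hE : E ≤ A) (n : ℕ) : E ^ n ≤ A := by
  induction n with
  | zero => rw [pow_zero]; exact Submodule.one_le.2 h1
  | succ n ih => rw [pow_succ]; exact (mul_le_mul' ih hE).trans hm

private theorem kc_le_of {A E : Submodule k H} (h1 : (1 : H) ∈ A) (hm : A * A ≤ A)
    (hE : E ≤ A) : Kc k E ≤ A := iSup_le fun n => pow_le_of k h1 hm hE n

private theorem mem_kc {C : Submodule k H} (h1 : (1 : H) ∈ C) {x : H} (hx : x ∈ Kc k C) :
    ∃ n, x ∈ C ^ n := by
  obtain ⟨n, hn⟩ := (kc_facts k h1).2.2.2.2.1 (Submodule.span k {x})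
    (Submodule.fg_span (Set.finite_singleton x))
    (Submodule.span_le.2 (Set.singleton_subset_iff.2 hx))
  exact ⟨n, hn (Submodule.mem_span_singleton_self x)⟩

private theorem hopf_kc {E : Submodule k H} (h1 : (1 : H) ∈ E) (hE : IsSubcoalgebra k E)
    (hS : ∀ x ∈ E, HopfAlgebra.antipode k x ∈ E) : IsHopfSubalgebra k (Kc k E) where
  one_mem := (kc_facts k h1).1
  mul_mem := fun a ha b hb => (kc_facts k h1).2.2.1 (Submodule.mul_mem_mul ha hb)
  sub := (kc_facts k h1).2.2.2.2.2 hE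
  antipode_mem := by
    intro a ha
    obtain ⟨n, hn⟩ := mem_kc k h1 ha
    exact (kc_facts k h1).2.2.2.1 n (ant_pow k hS n a hn)

theorem ctx_of_pre (hA : IsHopfSubalgebra k (coradical k H)) {C : Submodule k H}
    (hC : Pre k C) : Ctx k (coradical k H) (Kc k (C ⊓ coradical k H)) (Kc k C) := by
  have h1 : (1 : H) ∈ C ⊓ coradical k H := ⟨hC.one, hA.one_mem⟩
  have hsub : IsSubcoalgebra k (C ⊓ coradical k H) := cs_inf k hC.sub hA.sub
  refine ⟨hA, hopf_kc k h1 hsub hC.ant, ?_, ?_, ?_, ?_, ?_⟩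
  · exact kc_le_of k hA.one_mem hA.mul_le inf_le_right
  · exact kc_le_of k (kc_facts k hC.one).1 (kc_facts k hC.one).2.2.1
      (inf_le_left.trans (kc_facts k hC.one).2.1)
  · exact (kc_facts k hC.one).2.2.2.2.2 hC.sub
  · exact (kc_facts k hC.one).2.2.1
  · rintro x ⟨hx, hxA⟩
    obtain ⟨n, hn⟩ := mem_kc k hC.one hx
    exact (kc_facts k h1).2.2.2.1 n (nd_pow k hC.fg hC.sub n ⟨hn, hxA⟩)

private theorem fg_of_le {C D : Submodule k H} (hD : D.FG) (h : C ≤ D) : C.FG := by
  have : Module.Finite k D := Module.Finite.iff_fg.2 hD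
  have h2 : Module.Finite k C :=
    Module.Finite.of_injective (Submodule.inclusion h) (Submodule.inclusion_injective h)
  exact Module.Finite.iff_fg.1 h2

theorem pre_exists (hA : IsHopfSubalgebra k (coradical k H)) {V : Submodule k H} (hV : V.FG) :
    ∃ C : Submodule k H, Pre k C ∧ V ≤ C := by
  obtain ⟨C₁, hVC, h1, hfg, hsub⟩ := cs_fund k hV
  obtain ⟨E, hEf, hEs, hle, hE1, hEA, hES⟩ :=
    lar_main k hA (V := C₁ ⊓ coradical k H) (fg_of_le k hfg inf_le_left) inf_le_right
  have hinf : (C₁ ⊔ E) ⊓ coradical k H = E := by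
    apply le_antisymm
    · rw [sup_comm, sup_inf_assoc_of_le C₁ hEA]
      exact sup_le le_rfl hle
    · exact le_inf le_sup_right hEA
  refine ⟨C₁ ⊔ E, ⟨hfg.sup hEf, cs_sup k hsub hEs, Submodule.mem_sup_left h1, ?_⟩,
    hVC.trans le_sup_left⟩
  rw [hinf]
  exact hES

/-- a stable subcoalgebra gives a good one -/
theorem good_of_stb (hA : IsHopfSubalgebra k (coradical k H)) {C B : Submodule k H}
    (hC : Pre k C) (hB : Stb k (Kc k (C ⊓ coradical k H)) (Kc k C) B) (hCB : C ≤ B) :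
    ∃ C' : Submodule k H, Good k C' ∧ C ≤ C' := by
  have hctx := ctx_of_pre k hA hC
  set E : Submodule k H := C ⊓ coradical k H with hE
  have h1 : (1 : H) ∈ E := ⟨hC.one, hA.one_mem⟩
  have hEs : IsSubcoalgebra k E := cs_inf k hC.sub hA.sub
  have hEf : E.FG := fg_of_le k hC.fg inf_le_left
  have hEA : E ≤ coradical k H := inf_le_right
  obtain ⟨-, hEK, hKK, hpow, hfin, -⟩ := kc_facts k h1
  obtain ⟨m, hm⟩ := hfin (B ⊓ coradical k H) (fg_of_le k hB.fg inf_le_left)
    (fun x hx => hctx.inf ⟨hB.le hx.1, hx.2⟩)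
  have hmono : Monotone fun n : ℕ => E ^ n :=
    fun a b hab => pow_le_pow_right' (Submodule.one_le.2 h1) hab
  set F : Submodule k H := E ^ (m + 1) with hF
  have hBF : B ⊓ coradical k H ≤ F := hm.trans (hmono (Nat.le_succ m))
  have hFA : F ≤ coradical k H := pow_le_of k hA.one_mem hA.mul_le hEA (m + 1)
  have hEF : E ≤ F := by
    have := hmono (show 1 ≤ m + 1 by omega)
    simpa using this
  have h1F : (1 : H) ∈ F := hEF h1
  have hFs : IsSubcoalgebra k F := pow_sub k hEs (m + 1)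
  have hinf : (B ⊔ F) ⊓ coradical k H = F := by
    apply le_antisymm
    · rw [sup_comm, sup_inf_assoc_of_le B hFA]
      exact sup_le le_rfl hBF
    · exact le_inf le_sup_right hFA
  have hKF : Kc k F = Kc k E := by
    apply le_antisymm
    · exact kc_le_of k (hEK h1) hKK (hpow (m + 1))
    · exact kc_le_of k (kc_facts k h1F).1 (kc_facts k h1F).2.2.1
        (hEF.trans (kc_facts k h1F).2.1)
  refine ⟨B ⊔ F, ⟨⟨hB.fg.sup (hEf.pow (m + 1)), cs_sup k hB.sub hFs,
    Submodule.mem_sup_left hB.one, ?_⟩, ?_⟩, hCB.trans le_sup_left⟩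
  · rw [hinf]
    exact ant_pow k hC.ant (m + 1)
  · rw [hinf, hKF, Submodule.mul_sup]
    refine sup_le (hB.stb.trans (mul_le_mul' le_sup_left le_rfl)) ?_
    calc Kc k E * F ≤ Kc k E * Kc k E := mul_le_mul' le_rfl (hpow (m + 1))
      _ ≤ Kc k E := hKK
      _ ≤ (B ⊔ F) * Kc k E := by
        intro x hx
        have := Submodule.mul_mem_mul (Submodule.mem_sup_left hB.one : (1 : H) ∈ B ⊔ F) hx
        rwa [one_mul] at this

end hopf

end Pool.Agent.GKP
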