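import Pool.Agent.Lib_helper54.GKP.Base
import Pool.Agent.Lib_helper54.GKP.AC

/-! Block CI, written by helper62. -/

/-!
MP_49c8ed_al, gap theorems relative to the coradical: block CI (existence of coinvariants).
-/

set_option autoImplicit false

universe u v

namespace Pool.Agent.GKP

open TensorProduct Pool.Agent.GK Pool.Agent.GKC Filter Topology

section hopf
variable (k : Type u) [Field k] {H : Type v} [Ring H] [HopfAlgebra k H]

/-- `(F ⊗ H) ∩ (H ⊗ G) = F ⊗ G` -/
private theorem ci_inf {F G : Submodule k H} {t : H ⊗[k] H} (h1 : t ∈ tsp k F ⊤)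
    (h2 : t ∈ tsp k ⊤ G) : t ∈ tsp k F G := by
  obtain ⟨ρ, hρ, hρm⟩ := exists_proj k F
  have h3 : LinearMap.rTensor H ρ t = t := by
    have : tsp k F ⊤ ≤ LinearMap.ker (LinearMap.rTensor H ρ - LinearMap.id) := by
      rw [tsp_le]
      intro a ha b _
      simp [hρ a ha]
    have h4 := this h1
    rw [LinearMap.mem_ker, LinearMap.sub_apply, LinearMap.id_apply, sub_eq_zero] at h4
    exact h4
  rw [← h3]
  have : tsp k ⊤ G ≤ (tsp k F G).comap (LinearMap.rTensor H ρ) := by
    rw [tsp_le]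
    intro a _ b hb
    rw [Submodule.mem_comap, LinearMap.rTensor_tmul]
    exact tmul_mem_tsp k (hρm a) hb
  exact this h2

/-- `U(w) = ∑ w₁ S(ρ(w₂))` -/
private noncomputable def ciU (ρ : H →ₗ[k] H) : H →ₗ[k] H :=
  LinearMap.mul' k H ∘ₗ LinearMap.lTensor H (HopfAlgebra.antipode k ∘ₗ ρ) ∘ₗ
    Coalgebra.comul (R := k)

private theorem ciU_apply (ρ : H →ₗ[k] H) (w : H) : ciU k ρ w =
    LinearMap.mul' k H (LinearMap.lTensor H (HopfAlgebra.antipode k ∘ₗ ρ)
      (Coalgebra.comul (R := k) w)) := rfl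

/-- `Ω (p ⊗ q ⊗ r) = S(r) ⊗ p S(q)` -/
private noncomputable def ciΩ : H ⊗[k] (H ⊗[k] H) →ₗ[k] H ⊗[k] H :=
  TensorProduct.comm k H H ∘ₗ
    TensorProduct.map (LinearMap.mul' k H ∘ₗ LinearMap.lTensor H (HopfAlgebra.antipode k))
      (HopfAlgebra.antipode k) ∘ₗ (TensorProduct.assoc k H H H).symm.toLinearMap

/-- `∑ (1 ⊗ a₁) Δ(S(a₂)) = S(a) ⊗ 1` -/
private theorem ci_key (a : H) : LinearMap.mul' k (H ⊗[k] H)
    (TensorProduct.map (TensorProduct.mk k H H 1)
      (Coalgebra.comul (R := k) ∘ₗ HopfAlgebra.antipode k) (Coalgebra.comul (R := k) a)) =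
    HopfAlgebra.antipode k a ⊗ₜ[k] (1 : H) := by
  have h1 : ∀ t : H ⊗[k] H, LinearMap.mul' k (H ⊗[k] H)
      (TensorProduct.map (TensorProduct.mk k H H 1)
        (Coalgebra.comul (R := k) ∘ₗ HopfAlgebra.antipode k) t) =
      ciΩ k (LinearMap.lTensor H (Coalgebra.comul (R := k)) t) := by
    intro t
    induction t with
    | zero => simp
    | tmul p q =>
      have h2 : ∀ s : H ⊗[k] H, ((1 : H) ⊗ₜ[k] p) * (TensorProduct.map (HopfAlgebra.antipode k)
          (HopfAlgebra.antipode k) (TensorProduct.comm k H H s)) = ciΩ k (p ⊗ₜ[k] s) := by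
        intro s
        induction s with
        | zero => simp
        | tmul b c => simp [ciΩ]
        | add s t hs ht => simp only [map_add, mul_add, TensorProduct.tmul_add, hs, ht]
      rw [TensorProduct.map_tmul, LinearMap.mul'_apply, LinearMap.comp_apply, ac_comul,
        LinearMap.lTensor_tmul, ← h2, TensorProduct.mk_apply]
    | add s t hs ht => simp only [map_add, hs, ht]
  rw [h1]
  have h3 : LinearMap.lTensor H (Coalgebra.comul (R := k)) (Coalgebra.comul (R := k) a) =
      TensorProduct.assoc k H H H (LinearMap.rTensor H (Coalgebra.comul (R := k))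
        (Coalgebra.comul (R := k) a)) := (Coalgebra.coassoc_apply a).symm
  rw [h3]
  have h4 : ∀ t : H ⊗[k] H, ciΩ k (TensorProduct.assoc k H H H
      (LinearMap.rTensor H (Coalgebra.comul (R := k)) t)) =
      TensorProduct.comm k H H (TensorProduct.map (LinearMap.id)
        (HopfAlgebra.antipode k) (LinearMap.rTensor H
          (Algebra.linearMap k H ∘ₗ Coalgebra.counit (R := k)) t)) := by
    intro t
    induction t with
    | zero => simp
    | tmul p q =>
      simp only [ciΩ, LinearMap.rTensor_tmul, LinearMap.comp_apply, LinearEquiv.coe_coe,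
        LinearEquiv.symm_apply_apply, TensorProduct.map_tmul, LinearMap.id_apply,
        Algebra.linearMap_apply]
      rw [← HopfAlgebra.mul_antipode_lTensor_comul_apply (R := k) p]
    | add s t hs ht => simp only [map_add, hs, ht]
  rw [h4, LinearMap.rTensor_comp, LinearMap.comp_apply, Coalgebra.rTensor_counit_comul]
  simp

theorem coinv {K F₁ F₂ X M : Submodule k H} (hK : IsHopfSubalgebra k K) (hF₁ : LS k F₁)
    (hF₁K : F₁ * K ≤ F₁) (hF₂K : F₂ * K ≤ F₂) (h12 : F₁ ≤ F₂) (hX : LS k X)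
    (hM : IsSubcoalgebra k M) (hXM : X ≤ M)
    (hXK : ∀ w ∈ X, ∀ g : Module.Dual k H, Van k K g → FLAG_L k g w ∈ F₁) (hne : ¬ X ≤ F₂) :
    ∃ u ∈ X * (M ⊓ K).map (HopfAlgebra.antipode k), u ∉ F₂ ∧ CoI k F₁ u := by
  obtain ⟨ρ, hρ1, hρ2, hρ3⟩ := exists_proj2 k K M
  -- `Δ(w) = (id ⊗ ρ) Δ(w)` modulo `F₁ ⊗ H`
  have hr : ∀ w ∈ X, Coalgebra.comul (R := k) w -
      LinearMap.lTensor H ρ (Coalgebra.comul (R := k) w) ∈ tsp k F₁ ⊤ := by
    intro w hw
    rw [mem_tsp_top]
    intro f
    have h1 := hXK w hw (f ∘ₗ (LinearMap.id - ρ)) (fun x hx => by simp [hρ1 x hx])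
    rw [FLAG_L_apply, LinearMap.lTensor_comp, LinearMap.comp_apply, LinearMap.lTensor_sub,
      LinearMap.lTensor_id, LinearMap.sub_apply, LinearMap.id_apply] at h1
    exact h1
  -- `U(w)` is in `X S(M ∩ K)`
  have hUX : ∀ w ∈ X, ciU k ρ w ∈ X * (M ⊓ K).map (HopfAlgebra.antipode k) := by
    intro w hw
    have h1 : Coalgebra.comul (R := k) w ∈ tsp k X M :=
      ci_inf k ((LS_iff k).1 hX w hw) ((RS_iff k).1 (RS_of_sub k hM) w (hXM hw))
    have h2 : tsp k X M ≤ (X * (M ⊓ K).map (HopfAlgebra.antipode k)).comap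
        (LinearMap.mul' k H ∘ₗ LinearMap.lTensor H (HopfAlgebra.antipode k ∘ₗ ρ)) := by
      rw [tsp_le]
      intro a ha b hb
      simp only [Submodule.mem_comap, LinearMap.comp_apply, LinearMap.lTensor_tmul,
        LinearMap.mul'_apply]
      exact Submodule.mul_mem_mul ha (Submodule.mem_map_of_mem ⟨hρ3 b hb, hρ2 b⟩)
    exact h2 h1
  -- coinvariance
  have hUco : ∀ w ∈ X, CoI k F₁ (ciU k ρ w) := by
    intro w hw
    rw [CoI_iff]
    -- the map `Φ' (x ⊗ a) = ∑ (x ⊗ a₁) Δ(S(ρ(a₂)))`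
    set Φ : H ⊗[k] (H ⊗[k] H) →ₗ[k] H ⊗[k] H := LinearMap.mul' k (H ⊗[k] H) ∘ₗ
      LinearMap.lTensor (H ⊗[k] H) (Coalgebra.comul (R := k) ∘ₗ HopfAlgebra.antipode k ∘ₗ ρ) ∘ₗ
        (TensorProduct.assoc k H H H).symm.toLinearMap with hΦ
    have hΦt : ∀ x y a : H, Φ (x ⊗ₜ[k] (y ⊗ₜ[k] a)) =
        (x ⊗ₜ[k] y) * Coalgebra.comul (R := k) (HopfAlgebra.antipode k (ρ a)) := by
      intro x y a
      simp [hΦ]
    have e1 : Coalgebra.comul (R := k) (ciU k ρ w) =
        Φ (LinearMap.lTensor H (Coalgebra.comul (R := k)) (Coalgebra.comul (R := k) w)) := by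
      have h1 : ∀ t : H ⊗[k] H, Coalgebra.comul (R := k) (LinearMap.mul' k H
          (LinearMap.lTensor H (HopfAlgebra.antipode k ∘ₗ ρ) t)) =
          LinearMap.mul' k (H ⊗[k] H) (LinearMap.lTensor (H ⊗[k] H)
            (Coalgebra.comul (R := k) ∘ₗ HopfAlgebra.antipode k ∘ₗ ρ)
              (LinearMap.rTensor H (Coalgebra.comul (R := k)) t)) := by
        intro t
        induction t with
        | zero => simp
        | tmul p q => simp [Bialgebra.comul_mul]
        | add s t hs ht => simp only [map_add, hs, ht]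
      rw [ciU_apply, h1, ← Coalgebra.coassoc_apply]
      simp [hΦ]
    have e2 : ∀ x : H, ∀ a ∈ K, Φ (x ⊗ₜ[k] Coalgebra.comul (R := k) a) =
        (x * HopfAlgebra.antipode k a) ⊗ₜ[k] (1 : H) := by
      intro x a ha
      have h1 : ∀ s ∈ tsp k K K, Φ (x ⊗ₜ[k] s) = (x ⊗ₜ[k] (1 : H)) *
          LinearMap.mul' k (H ⊗[k] H) (TensorProduct.map (TensorProduct.mk k H H 1)
            (Coalgebra.comul (R := k) ∘ₗ HopfAlgebra.antipode k) s) := by
        intro s hs
        have h2 : tsp k K K ≤ LinearMap.ker ((Φ ∘ₗ TensorProduct.mk k H (H ⊗[k] H) x) -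
            (LinearMap.mulLeft k (x ⊗ₜ[k] (1 : H)) ∘ₗ LinearMap.mul' k (H ⊗[k] H) ∘ₗ
              TensorProduct.map (TensorProduct.mk k H H 1)
                (Coalgebra.comul (R := k) ∘ₗ HopfAlgebra.antipode k))) := by
          rw [tsp_le]
          intro p hp q hq
          rw [LinearMap.mem_ker, LinearMap.sub_apply, sub_eq_zero]
          simp only [LinearMap.comp_apply, TensorProduct.mk_apply, TensorProduct.map_tmul,
            LinearMap.mul'_apply, LinearMap.mulLeft_apply]
          rw [hΦt, hρ1 q hq, ← mul_assoc]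
          simp
        have h3 := h2 hs
        rw [LinearMap.mem_ker, LinearMap.sub_apply, sub_eq_zero] at h3
        simpa only [LinearMap.comp_apply, TensorProduct.mk_apply,
          LinearMap.mulLeft_apply] using h3
      rw [h1 _ (hK.sub a ha), ci_key]
      simp
    have e3 : ∀ t : H ⊗[k] H, Φ (LinearMap.lTensor H (Coalgebra.comul (R := k))
        (LinearMap.lTensor H ρ t)) = (LinearMap.mul' k H
          (LinearMap.lTensor H (HopfAlgebra.antipode k ∘ₗ ρ) t)) ⊗ₜ[k] (1 : H) := by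
      intro t
      induction t with
      | zero => simp
      | tmul p q =>
        simp only [LinearMap.lTensor_tmul]
        rw [e2 p (ρ q) (hρ2 q)]
        simp
      | add s t hs ht => simp only [map_add, hs, ht, TensorProduct.add_tmul]
    have e4 : ∀ t ∈ tsp k F₁ ⊤, Φ (LinearMap.lTensor H (Coalgebra.comul (R := k)) t) ∈
        tsp k F₁ ⊤ := by
      have h1 : ∀ x ∈ F₁, ∀ s : H ⊗[k] H, Φ (x ⊗ₜ[k] s) ∈ tsp k F₁ ⊤ := by
        intro x hx s
        induction s with
        | zero => simp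
        | tmul p q =>
          rw [hΦt]
          have h2 : Coalgebra.comul (R := k) (HopfAlgebra.antipode k (ρ q)) ∈ tsp k K K :=
            hK.sub _ (hK.antipode_mem _ (hρ2 q))
          exact tsp_mono k hF₁K le_top (tsp_mul_tsp k (tmul_mem_tsp k hx
            (Submodule.mem_top (x := p))) h2)
        | add s t hs ht =>
          rw [TensorProduct.tmul_add, map_add]
          exact Submodule.add_mem _ hs ht
      have h2 : tsp k F₁ ⊤ ≤ (tsp k F₁ ⊤).comap (Φ ∘ₗ
          LinearMap.lTensor H (Coalgebra.comul (R := k))) := by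
        rw [tsp_le]
        intro a ha b _
        simp only [Submodule.mem_comap, LinearMap.comp_apply, LinearMap.lTensor_tmul]
        exact h1 a ha _
      exact fun t ht => h2 ht
    have e5 : Coalgebra.comul (R := k) (ciU k ρ w) - ciU k ρ w ⊗ₜ[k] (1 : H) =
        Φ (LinearMap.lTensor H (Coalgebra.comul (R := k)) (Coalgebra.comul (R := k) w -
          LinearMap.lTensor H ρ (Coalgebra.comul (R := k) w))) := by
      rw [map_sub, map_sub, e3, ← e1]
      rfl
    rw [e5]
    exact e4 _ (hr w hw)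
  -- `w = ∑ U(w₁) ρ(w₂)` modulo `F₁`
  by_contra hcon'
  have hcon : ∀ u ∈ X * (M ⊓ K).map (HopfAlgebra.antipode k), u ∉ F₂ → ¬ CoI k F₁ u :=
    fun u h1 h2 h3 => hcon' ⟨u, h1, h2, h3⟩
  apply hne
  intro w hw
  have hUF : ∀ x ∈ X, ciU k ρ x ∈ F₂ := by
    intro x hx
    by_contra hx2
    exact hcon _ (hUX x hx) hx2 (hUco x hx)
  have e6 : LinearMap.mul' k H (TensorProduct.map (ciU k ρ) ρ (Coalgebra.comul (R := k) w)) ∈
      F₂ := by
    have h1 : tsp k X ⊤ ≤ F₂.comap (LinearMap.mul' k H ∘ₗ TensorProduct.map (ciU k ρ) ρ) := by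
      rw [tsp_le]
      intro a ha b _
      simp only [Submodule.mem_comap, LinearMap.comp_apply, TensorProduct.map_tmul,
        LinearMap.mul'_apply]
      exact hF₂K (Submodule.mul_mem_mul (hUF a ha) (hρ2 b))
    exact h1 ((LS_iff k).1 hX w hw)
  -- the map `ψ(a) = ∑ S(ρ(a₁)) ρ(a₂)`
  set ψ : H →ₗ[k] H := LinearMap.mul' k H ∘ₗ
    TensorProduct.map (HopfAlgebra.antipode k ∘ₗ ρ) ρ ∘ₗ Coalgebra.comul (R := k) with hψ
  have hψK : ∀ a, ψ a ∈ K := by
    intro a
    have h1 : ∀ t : H ⊗[k] H, LinearMap.mul' k H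
        (TensorProduct.map (HopfAlgebra.antipode k ∘ₗ ρ) ρ t) ∈ K := by
      intro t
      induction t with
      | zero => simp
      | tmul p q =>
        simp only [TensorProduct.map_tmul, LinearMap.mul'_apply, LinearMap.comp_apply]
        exact hK.mul_mem _ (hK.antipode_mem _ (hρ2 p)) _ (hρ2 q)
      | add s t hs ht =>
        rw [map_add, map_add]
        exact Submodule.add_mem _ hs ht
    exact h1 _
  have hψε : ∀ a ∈ K, ψ a = algebraMap k H (Coalgebra.counit (R := k) a) := by
    intro a ha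
    rw [← HopfAlgebra.mul_antipode_rTensor_comul_apply (R := k) a]
    have h2 : tsp k K K ≤ LinearMap.ker ((LinearMap.mul' k H ∘ₗ
        TensorProduct.map (HopfAlgebra.antipode k ∘ₗ ρ) ρ) -
        (LinearMap.mul' k H ∘ₗ LinearMap.rTensor H (HopfAlgebra.antipode k))) := by
      rw [tsp_le]
      intro p hp q hq
      rw [LinearMap.mem_ker, LinearMap.sub_apply, sub_eq_zero]
      simp [hρ1 p hp, hρ1 q hq]
    have h3 := h2 (hK.sub a ha)
    rw [LinearMap.mem_ker, LinearMap.sub_apply, sub_eq_zero] at h3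
    exact h3
  have e7 : LinearMap.mul' k H (TensorProduct.map (ciU k ρ) ρ (Coalgebra.comul (R := k) w)) =
      LinearMap.mul' k H (LinearMap.lTensor H ψ (Coalgebra.comul (R := k) w)) := by
    set Ψ : H ⊗[k] (H ⊗[k] H) →ₗ[k] H := LinearMap.mul' k H ∘ₗ LinearMap.lTensor H
      (LinearMap.mul' k H ∘ₗ TensorProduct.map (HopfAlgebra.antipode k ∘ₗ ρ) ρ) with hΨ
    have h1 : ∀ t : H ⊗[k] H, LinearMap.mul' k H (TensorProduct.map (ciU k ρ) ρ t) =
        Ψ (TensorProduct.assoc k H H H (LinearMap.rTensor H (Coalgebra.comul (R := k)) t)) := by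
      intro t
      induction t with
      | zero => simp
      | tmul p q =>
        have h2 : ∀ s : H ⊗[k] H, LinearMap.mul' k H (LinearMap.lTensor H
            (HopfAlgebra.antipode k ∘ₗ ρ) s) * ρ q =
            Ψ (TensorProduct.assoc k H H H (s ⊗ₜ[k] q)) := by
          intro s
          induction s with
          | zero => simp
          | tmul b c => simp [hΨ, mul_assoc]
          | add s t hs ht => simp only [map_add, add_mul, TensorProduct.add_tmul, hs, ht]
        rw [TensorProduct.map_tmul, LinearMap.mul'_apply, LinearMap.rTensor_tmul, ← h2]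
        rfl
      | add s t hs ht => simp only [map_add, hs, ht]
    rw [h1, Coalgebra.coassoc_apply, hΨ, hψ, LinearMap.comp_apply, ← LinearMap.comp_apply
      (LinearMap.lTensor H _) (LinearMap.lTensor H _), ← LinearMap.lTensor_comp,
      LinearMap.comp_assoc]
  have e8 : ∀ t : H ⊗[k] H, LinearMap.mul' k H (LinearMap.lTensor H ψ
      (LinearMap.lTensor H ρ t)) = TensorProduct.rid k H
        (LinearMap.lTensor H (Coalgebra.counit (R := k)) (LinearMap.lTensor H ρ t)) := by
    intro t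
    induction t with
    | zero => simp
    | tmul p q =>
      simp only [LinearMap.lTensor_tmul, LinearMap.mul'_apply, TensorProduct.rid_tmul]
      rw [hψε _ (hρ2 q), Algebra.smul_def, Algebra.commutes]
    | add s t hs ht => simp only [map_add, hs, ht]
  set t := Coalgebra.comul (R := k) w with ht
  have hrw := hr w hw
  rw [← ht] at hrw
  have e9 : TensorProduct.rid k H (LinearMap.lTensor H (Coalgebra.counit (R := k)) t) = w := by
    rw [ht, Coalgebra.lTensor_counit_comul]
    simp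
  have e10 : LinearMap.mul' k H (LinearMap.lTensor H ψ (t - LinearMap.lTensor H ρ t)) ∈ F₁ := by
    have h1 : tsp k F₁ ⊤ ≤ F₁.comap (LinearMap.mul' k H ∘ₗ LinearMap.lTensor H ψ) := by
      rw [tsp_le]
      intro a ha b _
      simp only [Submodule.mem_comap, LinearMap.comp_apply, LinearMap.lTensor_tmul,
        LinearMap.mul'_apply]
      exact hF₁K (Submodule.mul_mem_mul ha (hψK b))
    exact h1 hrw
  have e11 : TensorProduct.rid k H (LinearMap.lTensor H (Coalgebra.counit (R := k))
      (t - LinearMap.lTensor H ρ t)) ∈ F₁ := rid_lTensor_mem k hrw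
  rw [map_sub, map_sub, e8, ← e7] at e10
  rw [map_sub, map_sub, e9] at e11
  have e12 := F₂.add_mem (F₂.sub_mem e6 (h12 e10)) (h12 e11)
  have e13 : LinearMap.mul' k H (TensorProduct.map (ciU k ρ) ρ t) -
      (LinearMap.mul' k H (TensorProduct.map (ciU k ρ) ρ t) -
        TensorProduct.rid k H (LinearMap.lTensor H (Coalgebra.counit (R := k))
          (LinearMap.lTensor H ρ t))) +
      (w - TensorProduct.rid k H (LinearMap.lTensor H (Coalgebra.counit (R := k))
        (LinearMap.lTensor H ρ t))) = w := by abel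
  rwa [e13] at e12

end hopf

end Pool.Agent.GKP
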