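import Pool.Agent.Lib_helper54.GKP.Base

/-!
MP_49c8ed_al. Gap theorems, block TOP: freeness and the top coefficient.
-/

set_option autoImplicit false

universe u v

namespace Pool.Agent.GKP

open TensorProduct Pool.Agent.GK Pool.Agent.GKC

section hopf
variable (k : Type u) [Field k] {H : Type v} [Ring H] [HopfAlgebra k H]

/-- the map `x ⊗ y ↦ x S(ρ y)` -/
private noncomputable def TS (ρ : H →ₗ[k] H) : H ⊗[k] H →ₗ[k] H :=
  LinearMap.mul' k H ∘ₗ LinearMap.lTensor H (HopfAlgebra.antipode k ∘ₗ ρ)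

private theorem TS_tmul (ρ : H →ₗ[k] H) (x y : H) :
    TS k ρ (x ⊗ₜ[k] y) = x * HopfAlgebra.antipode k (ρ y) := by
  simp [TS]

private theorem TS_mem {A F : Submodule k H} (hA : IsHopfSubalgebra k A) (hFA : F * A ≤ F)
    {ρ : H →ₗ[k] H} (hρ : ∀ x, ρ x ∈ A) {t : H ⊗[k] H} (ht : t ∈ tsp k F ⊤) : TS k ρ t ∈ F := by
  have : tsp k F ⊤ ≤ F.comap (TS k ρ) := by
    rw [tsp_le]
    intro a ha b _
    simp only [Submodule.mem_comap, TS_tmul]
    exact hFA (Submodule.mul_mem_mul ha (hA.antipode_mem _ (hρ b)))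
  exact this ht

private theorem mul_mem {A F : Submodule k H} (hFA : F * A ≤ F) {s t : H ⊗[k] H}
    (hs : s ∈ tsp k F ⊤) (ht : t ∈ tsp k A A) : s * t ∈ tsp k F ⊤ :=
  tsp_mono k hFA le_top (tsp_mul_tsp k hs ht)

private theorem rid_mul (f : Module.Dual k H) (u : H) (t : H ⊗[k] H) :
    TensorProduct.rid k H (LinearMap.lTensor H f ((u ⊗ₜ[k] (1 : H)) * t)) =
      u * TensorProduct.rid k H (LinearMap.lTensor H f t) := by
  induction t with
  | zero => simp
  | tmul x y => simp
  | add s t hs ht => simp only [mul_add, map_add, hs, ht]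

/-- `Δ(u a)` is `(u ⊗ 1) Δ(a)` modulo `F ⊗ H` -/
theorem top_comul {A F : Submodule k H} (hA : IsHopfSubalgebra k A) (hFA : F * A ≤ F) {u : H}
    (hco : CoI k F u) {a : H} (ha : a ∈ A) : Coalgebra.comul (R := k) (u * a) -
      (u ⊗ₜ[k] (1 : H)) * Coalgebra.comul (R := k) a ∈ tsp k F ⊤ := by
  rw [Bialgebra.comul_mul, ← _root_.sub_mul]
  exact mul_mem k hFA ((CoI_iff k).1 hco) (hA.sub a ha)

/-- freeness of the right `A`-module generated by a coinvariant modulo `F` -/
theorem top_free {A F : Submodule k H} (hA : IsHopfSubalgebra k A) (hF : LS k F)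
    (hFA : F * A ≤ F) {u : H} (hu : u ∉ F) (hco : CoI k F u) {a : H} (ha : a ∈ A)
    (h : u * a ∈ F) : a = 0 := by
  obtain ⟨ρ, hρ, hρm⟩ := exists_proj k A
  have key1 : ∀ b ∈ A, u * b ∈ F →
      (u ⊗ₜ[k] (1 : H)) * Coalgebra.comul (R := k) b ∈ tsp k F ⊤ := by
    intro b hb hub
    have h3 := (tsp k F ⊤).sub_mem ((LS_iff k).1 hF _ hub) (top_comul k hA hFA hco hb)
    rwa [sub_sub_cancel] at h3
  have key2 : ∀ b ∈ A, u * b ∈ F → Coalgebra.counit (R := k) b = 0 := by
    intro b hb hub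
    have h1 := TS_mem k hA hFA hρm (key1 b hb hub)
    have h2 : TS k ρ ((u ⊗ₜ[k] (1 : H)) * Coalgebra.comul (R := k) b) =
        Coalgebra.counit (R := k) b • u := by
      have h3 : ∀ t ∈ tsp k A A, TS k ρ ((u ⊗ₜ[k] (1 : H)) * t) =
          u * LinearMap.mul' k H (LinearMap.lTensor H (HopfAlgebra.antipode k) t) := by
        intro t ht
        have : tsp k A A ≤ LinearMap.eqLocus
            (TS k ρ ∘ₗ LinearMap.mulLeft k (u ⊗ₜ[k] (1 : H)))
            (LinearMap.mulLeft k u ∘ₗ LinearMap.mul' k H ∘ₗ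
              LinearMap.lTensor H (HopfAlgebra.antipode k)) := by
          rw [tsp_le]
          intro x hx y hy
          simp only [LinearMap.mem_eqLocus, LinearMap.comp_apply,
            LinearMap.mulLeft_apply, Algebra.TensorProduct.tmul_mul_tmul, one_mul, TS_tmul,
            LinearMap.lTensor_tmul, LinearMap.mul'_apply, hρ y hy, mul_assoc]
        exact this ht
      rw [h3 _ (hA.sub b hb), HopfAlgebra.mul_antipode_lTensor_comul_apply,
        Algebra.algebraMap_eq_smul_one, mul_smul_comm, mul_one]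
    rw [h2] at h1
    by_contra hne
    exact hu ((Submodule.smul_mem_iff F hne).1 h1)
  rw [← Module.forall_dual_apply_eq_zero_iff k]
  intro f
  rw [← FLAG_counitL k f a]
  apply key2 _ (hA.LS k f a ha)
  have h1 := (mem_tsp_top k).1 (key1 a ha h) f
  rwa [rid_mul] at h1

theorem top_exists {A F : Submodule k H} (hA : IsHopfSubalgebra k A) (hF : LS k F)
    (hFA : F * A ≤ F) {u : H} (hu : u ∉ F) (hco : CoI k F u) : ∃ φ : Module.Dual k H,
      (∀ x ∈ F, FLAG_R k φ x = 0) ∧ ∀ a ∈ A, FLAG_R k φ (u * a) = a := by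
  -- the linear map `F × A → H` is injective
  let ψ : F × A →ₗ[k] H := LinearMap.coprod F.subtype (LinearMap.mulLeft k u ∘ₗ A.subtype)
  have hψ : ∀ z : F × A, ψ z = z.1.1 + u * z.2.1 := fun z => by
    simp [ψ, LinearMap.coprod_apply]
  have hinj : LinearMap.ker ψ = ⊥ := by
    rw [LinearMap.ker_eq_bot']
    rintro ⟨⟨x, hx⟩, ⟨a, ha⟩⟩ h
    rw [hψ] at h
    simp only at h
    have h1 : a = 0 := by
      apply top_free k hA hF hFA hu hco ha
      rw [← neg_eq_iff_add_eq_zero.2 h]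
      exact F.neg_mem hx
    subst h1
    rw [mul_zero, add_zero] at h
    subst h
    rfl
  obtain ⟨g, hg⟩ := ψ.exists_leftInverse_of_injective hinj
  have hg' : ∀ z, g (ψ z) = z := fun z => LinearMap.congr_fun hg z
  let φ : Module.Dual k H :=
    (Coalgebra.counit (R := k) (A := H)) ∘ₗ A.subtype ∘ₗ LinearMap.snd k F A ∘ₗ g
  have hφF : ∀ x ∈ F, φ x = 0 := by
    intro x hx
    have h1 := hg' (⟨x, hx⟩, 0)
    rw [hψ] at h1
    simp only [ZeroMemClass.coe_zero, mul_zero, add_zero] at h1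
    simp [φ, h1]
  have hφA : ∀ a ∈ A, φ (u * a) = Coalgebra.counit (R := k) a := by
    intro a ha
    have h1 := hg' (0, ⟨a, ha⟩)
    rw [hψ] at h1
    simp only [ZeroMemClass.coe_zero, zero_add] at h1
    simp [φ, h1]
  have hz : ∀ t ∈ tsp k F ⊤, TensorProduct.lid k H (LinearMap.rTensor H φ t) = 0 := by
    intro t ht
    have : tsp k F ⊤ ≤ LinearMap.ker ((TensorProduct.lid k H).toLinearMap ∘ₗ
        LinearMap.rTensor H φ) := by
      rw [tsp_le]
      intro a ha b _
      simp [hφF a ha]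
    exact this ht
  refine ⟨φ, fun x hx => hz _ ((LS_iff k).1 hF x hx), fun a ha => ?_⟩
  have h1 := hz _ (top_comul k hA hFA hco ha)
  rw [map_sub, map_sub, sub_eq_zero, ← FLAG_R_apply] at h1
  rw [h1]
  have h2 : ∀ t ∈ tsp k A A, TensorProduct.lid k H (LinearMap.rTensor H φ
      ((u ⊗ₜ[k] (1 : H)) * t)) =
      TensorProduct.lid k H (LinearMap.rTensor H (Coalgebra.counit (R := k)) t) := by
    intro t ht
    have : tsp k A A ≤ LinearMap.eqLocus
        ((TensorProduct.lid k H).toLinearMap ∘ₗ LinearMap.rTensor H φ ∘ₗ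
          LinearMap.mulLeft k (u ⊗ₜ[k] (1 : H)))
        ((TensorProduct.lid k H).toLinearMap ∘ₗ
          LinearMap.rTensor H (Coalgebra.counit (R := k))) := by
      rw [tsp_le]
      intro x hx y hy
      simp only [LinearMap.mem_eqLocus, LinearMap.comp_apply, LinearEquiv.coe_coe,
        LinearMap.mulLeft_apply, Algebra.TensorProduct.tmul_mul_tmul, one_mul,
        LinearMap.rTensor_tmul, TensorProduct.lid_tmul, hφA x hx]
    exact this ht
  rw [h2 _ (hA.sub a ha), Coalgebra.rTensor_counit_comul]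
  simp

end hopf

end Pool.Agent.GKP
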