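import Pool.Agent.Lib_helper54.GKP.Base
import Pool.Agent.Lib_helper54.GKP.TOP

/-! Block FM1, written by helper60. -/

/-!
MP_49c8ed_al. Gap theorems, block FM1: first facts on triangular families of coinvariants.
-/

set_option autoImplicit false

universe u v

namespace Pool.Agent.GKP

open TensorProduct Pool.Agent.GK Pool.Agent.GKC Filter Topology Pool.Agent.GKP

section hopf
variable (k : Type u) [Field k] {H : Type v} [Ring H] [HopfAlgebra k H]

/-- the submodules `Nl` are right modules -/
theorem fm1_mul {K N : Submodule k H} {ι : Type} [LinearOrder ι] {e : ι → H}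
    (hK : IsHopfSubalgebra k K) (hNK : N * K ≤ N) (i : ι) :
    Nl k K N e i * K ≤ Nl k K N e i := by
  rw [Nl, Submodule.sup_mul, mul_assoc]
  exact sup_le_sup hNK (mul_le_mul' le_rfl hK.mul_le)

/-- the sum over a down-closed set of indices is a right coideal -/
theorem fm1_LS {K N : Submodule k H} {ι : Type} [LinearOrder ι] {e : ι → H}
    (hK : IsHopfSubalgebra k K) (h : Fam k K N e) (S : Set ι)
    (hS : ∀ l ∈ S, ∀ j, j < l → j ∈ S) : LS k (N ⊔ Submodule.span k (e '' S) * K) := by
  rw [LS_iff]
  suffices hP : (N ⊔ Submodule.span k (e '' S) * K) ≤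
      (tsp k (N ⊔ Submodule.span k (e '' S) * K) ⊤).comap (Coalgebra.comul (R := k)) from
    fun x hx => hP hx
  refine sup_le (fun x hx => tsp_mono k le_sup_left le_rfl ((LS_iff k).1 h.base x hx)) ?_
  rw [Submodule.mul_le]
  intro m hm a ha
  have h0 : Submodule.span k (e '' S) ≤
      ((tsp k (N ⊔ Submodule.span k (e '' S) * K) ⊤).comap (Coalgebra.comul (R := k))).comap
        (LinearMap.mulRight k a) := by
    rw [Submodule.span_le]
    rintro _ ⟨l, hl, rfl⟩
    change Coalgebra.comul (R := k) (e l * a) ∈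
      tsp k (N ⊔ Submodule.span k (e '' S) * K) ⊤
    have h1 := (CoI_iff k).1 (h.coi l)
    have h2 := (LS_iff k).1 hK.LS a ha
    have h3 := tsp_mul_tsp k h1 h2
    have h4 := tsp_mul_tsp k (tmul_mem_tsp k (Submodule.mem_span_singleton_self (e l))
      (show (1 : H) ∈ (⊤ : Submodule k H) from trivial)) h2
    have h5 : Coalgebra.comul (R := k) (e l * a) =
        (Coalgebra.comul (R := k) (e l) - e l ⊗ₜ[k] (1 : H)) * Coalgebra.comul (R := k) a +
          (e l ⊗ₜ[k] (1 : H)) * Coalgebra.comul (R := k) a := by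
      rw [← add_mul, sub_add_cancel, Bialgebra.comul_mul]
    rw [h5]
    refine Submodule.add_mem _ (tsp_mono k ?_ le_top h3) (tsp_mono k ?_ le_top h4)
    · refine (fm1_mul k hK h.baseM l).trans ?_
      unfold Nl
      refine sup_le_sup le_rfl (mul_le_mul' (Submodule.span_mono (Set.image_mono ?_)) le_rfl)
      exact fun j hj => hS l hl j hj
    · refine le_trans (mul_le_mul' (Submodule.span_mono ?_) le_rfl) le_sup_right
      rintro _ rfl
      exact ⟨l, hl, rfl⟩
  exact h0 hm

theorem fam_LS {K N : Submodule k H} {ι : Type} [LinearOrder ι] [Finite ι] {e : ι → H}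
    (hK : IsHopfSubalgebra k K) (h : Fam k K N e) :
    (∀ i, LS k (Nl k K N e i)) ∧ (∀ i, Nl k K N e i * K ≤ Nl k K N e i) ∧
      LS k (N ⊔ Submodule.span k (Set.range e) * K) := by
  refine ⟨fun i => ?_, fun i => fm1_mul k hK h.baseM i, ?_⟩
  · exact fm1_LS k hK h {l | l < i} fun l hl j hj => lt_trans hj hl
  · have := fm1_LS k hK h Set.univ fun _ _ _ _ => trivial
    rwa [Set.image_univ] at this

/-- coefficients of a relation modulo the base vanish -/
theorem fam_free {K N : Submodule k H} {ι : Type} [LinearOrder ι] [Fintype ι] {e : ι → H}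
    (hK : IsHopfSubalgebra k K) (h : Fam k K N e) (a : ι → H) (ha : ∀ i, a i ∈ K)
    (h0 : ∑ i, e i * a i ∈ N) : ∀ i, a i = 0 := by
  obtain ⟨hLS, hM, -⟩ := fam_LS k hK h
  intro i
  induction i using WellFoundedGT.induction with
  | ind i ih =>
    -- the top term is in `Nl`
    have hmem : e i * a i ∈ Nl k K N e i := by
      have h1 : e i * a i = (∑ j, e j * a j) - ∑ j ∈ Finset.univ.erase i, e j * a j := by
        rw [← Finset.add_sum_erase Finset.univ (fun j => e j * a j) (Finset.mem_univ i)]
        abel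
      rw [h1]
      refine Submodule.sub_mem _ (Submodule.mem_sup_left h0) (Submodule.sum_mem _ fun j hj => ?_)
      rcases lt_or_gt_of_ne (Finset.ne_of_mem_erase hj) with hlt | hgt
      · exact Submodule.mem_sup_right
          (Submodule.mul_mem_mul (Submodule.subset_span ⟨j, hlt, rfl⟩) (ha j))
      · rw [ih j hgt, mul_zero]
        exact Submodule.zero_mem _
    obtain ⟨φ, hφ1, hφ2⟩ := top_exists k hK (hLS i) (hM i) (h.indep i) (h.coi i)
    rw [← hφ2 (a i) (ha i)]
    exact hφ1 _ hmem

end hopf

end Pool.Agent.GKP
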