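import Pool.Agent.Lib_helper54.GKP.Base
import Pool.Agent.Lib_helper54.GKP.FM1

/-! Block FM2, written by helper60. -/

/-!
MP_49c8ed_al. Gap theorems, block FM2: from `K` to `A`, no distortion of the coefficients.
-/

set_option autoImplicit false

universe u v

namespace Pool.Agent.GKP

open TensorProduct Pool.Agent.GK Pool.Agent.GKC Filter Topology Pool.Agent.GKP

section hopf
variable (k : Type u) [Field k] {H : Type v} [Ring H] [HopfAlgebra k H]

private theorem fm2_mul {K N : Submodule k H} {ι : Type} {e : ι → H}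
    (hK : IsHopfSubalgebra k K) (hNK : N * K ≤ N) (S : Set ι) :
    (N ⊔ Submodule.span k (e '' S) * K) * K ≤ N ⊔ Submodule.span k (e '' S) * K := by
  rw [Submodule.sup_mul, mul_assoc]
  exact sup_le_sup hNK (mul_le_mul' le_rfl hK.mul_le)

/-- the sum over a down-closed set of indices is a right coideal -/
private theorem fm2_LS {K N : Submodule k H} {ι : Type} [LinearOrder ι] {e : ι → H}
    (hK : IsHopfSubalgebra k K) (hN : LS k N) (hNK : N * K ≤ N)
    (hco : ∀ l, CoI k (Nl k K N e l) (e l)) (S : Set ι)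
    (hS : ∀ l ∈ S, ∀ j, j < l → j ∈ S) : LS k (N ⊔ Submodule.span k (e '' S) * K) := by
  rw [LS_iff]
  suffices hP : (N ⊔ Submodule.span k (e '' S) * K) ≤
      (tsp k (N ⊔ Submodule.span k (e '' S) * K) ⊤).comap (Coalgebra.comul (R := k)) from
    fun x hx => hP hx
  refine sup_le (fun x hx => tsp_mono k le_sup_left le_rfl ((LS_iff k).1 hN x hx)) ?_
  rw [Submodule.mul_le]
  intro m hm a ha
  have h0 : Submodule.span k (e '' S) ≤
      ((tsp k (N ⊔ Submodule.span k (e '' S) * K) ⊤).comap (Coalgebra.comul (R := k))).comap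
        (LinearMap.mulRight k a) := by
    rw [Submodule.span_le]
    rintro _ ⟨l, hl, rfl⟩
    change Coalgebra.comul (R := k) (e l * a) ∈
      tsp k (N ⊔ Submodule.span k (e '' S) * K) ⊤
    have h1 := (CoI_iff k).1 (hco l)
    have h2 := (LS_iff k).1 hK.LS a ha
    have h3 := tsp_mul_tsp k h1 h2
    have h4 := tsp_mul_tsp k (tmul_mem_tsp k (Submodule.mem_span_singleton_self (e l))
      (show (1 : H) ∈ (⊤ : Submodule k H) from trivial)) h2
    have h5 : Coalgebra.comul (R := k) (e l * a) =
        (Coalgebra.comul (R := k) (e l) - e l ⊗ₜ[k] (1 : H)) * Coalgebra.comul (R := k) a +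
          (e l ⊗ₜ[k] (1 : H)) * Coalgebra.comul (R := k) a := by
      rw [← add_mul, sub_add_cancel, Bialgebra.comul_mul]
    rw [h5]
    refine Submodule.add_mem _ (tsp_mono k ?_ le_top h3) (tsp_mono k ?_ le_top h4)
    · refine (fm2_mul k hK hNK _).trans ?_
      refine sup_le_sup le_rfl (mul_le_mul' (Submodule.span_mono (Set.image_mono ?_)) le_rfl)
      exact fun j hj => hS l hl j hj
    · refine le_trans (mul_le_mul' (Submodule.span_mono ?_) le_rfl) le_sup_right
      rintro _ rfl
      exact ⟨l, hl, rfl⟩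
  exact h0 hm

/-- the main induction -/
private theorem fm2_main {A K T N : Submodule k H} (hc : Ctx k A K T) {ι : Type} [LinearOrder ι]
    {e : ι → H} (h : Fam k K N e) (he : ∀ i, e i ∈ T)
    (hNA : T ⊓ (N * A) ≤ N) : ∀ (n : ℕ) (S : Finset ι), S.card = n →
      (∀ l ∈ S, ∀ j, j < l → j ∈ S) →
      T ⊓ (N * A ⊔ Submodule.span k (e '' (S : Set ι)) * A) ≤
        N ⊔ Submodule.span k (e '' (S : Set ι)) * K := by
  have hNNA : N ≤ N * A := hc.hA.le_mul k N
  have hco : ∀ l, CoI k (Nl k A (N * A) e l) (e l) := fun l =>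
    CoI_mono k (sup_le_sup hNNA (mul_le_mul' le_rfl hc.KA)) (h.coi l)
  have hbase : LS k (N * A) := LS_mul k h.base hc.hA.LS
  have hbaseM : N * A * A ≤ N * A := by
    rw [mul_assoc]
    exact mul_le_mul' le_rfl hc.hA.mul_le
  intro n
  induction n with
  | zero =>
    intro S hS _
    rw [Finset.card_eq_zero] at hS
    subst hS
    simp only [Finset.coe_empty, Set.image_empty, Submodule.span_empty, Submodule.bot_mul,
      sup_bot_eq]
    exact hNA
  | succ n ih =>
    intro S hS hdown
    have hne : S.Nonempty := Finset.card_pos.1 (by omega)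
    set m := S.max' hne with hm
    have hmS : m ∈ S := S.max'_mem hne
    have hset : ((S.erase m : Finset ι) : Set ι) = {l | l < m} := by
      ext l
      simp only [Finset.coe_erase, Set.mem_sdiff, Finset.mem_coe, Set.mem_singleton_iff,
        Set.mem_ofPred_eq]
      constructor
      · rintro ⟨h1, h2⟩
        exact lt_of_le_of_ne (S.le_max' l h1) h2
      · intro h1
        exact ⟨hdown m hmS l h1, h1.ne⟩
    have hih := ih (S.erase m) (by rw [Finset.card_erase_of_mem hmS]; omega) (by
      intro l hl j hj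
      have hl' : l < m := by
        have : l ∈ ((S.erase m : Finset ι) : Set ι) := hl
        rw [hset] at this
        exact this
      have : j ∈ ((S.erase m : Finset ι) : Set ι) := by
        rw [hset]
        exact hj.trans hl'
      exact this)
    rw [hset] at hih
    have hindep : e m ∉ Nl k A (N * A) e m := fun hcon => h.indep m (hih ⟨he m, hcon⟩)
    have hLS : LS k (Nl k A (N * A) e m) :=
      fm2_LS k hc.hA hbase hbaseM hco _ fun l hl j hj => lt_trans hj hl
    have hM : Nl k A (N * A) e m * A ≤ Nl k A (N * A) e m := fm2_mul k hc.hA hbaseM _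
    obtain ⟨φ, hφ1, hφ2⟩ := top_exists k hc.hA hLS hM hindep (hco m)
    -- the decomposition of the sum
    have hdec : N * A ⊔ Submodule.span k (e '' (S : Set ι)) * A ≤
        Nl k A (N * A) e m ⊔ (A.map (LinearMap.mulLeft k (e m))) := by
      refine sup_le (le_sup_left.trans' le_sup_left) ?_
      rw [Submodule.mul_le]
      intro y hy a ha
      have h1 : Submodule.span k (e '' (S : Set ι)) ≤
          (Nl k A (N * A) e m ⊔ (A.map (LinearMap.mulLeft k (e m)))).comap
            (LinearMap.mulRight k a) := by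
        rw [Submodule.span_le]
        rintro _ ⟨l, hl, rfl⟩
        change e l * a ∈ Nl k A (N * A) e m ⊔ (A.map (LinearMap.mulLeft k (e m)))
        by_cases hlm : l = m
        · subst hlm
          exact Submodule.mem_sup_right ⟨a, ha, rfl⟩
        · refine Submodule.mem_sup_left (Submodule.mem_sup_right
            (Submodule.mul_mem_mul (Submodule.subset_span ⟨l, ?_, rfl⟩) ha))
          exact lt_of_le_of_ne (S.le_max' l hl) hlm
      exact h1 hy
    rintro x ⟨hxT, hx⟩
    obtain ⟨y, hy, _, ⟨a, ha, rfl⟩, rfl⟩ := Submodule.mem_sup.1 (hdec hx)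
    simp only [LinearMap.mulLeft_apply] at hxT hx ⊢
    have haT : a ∈ T := by
      have h1 := RS_of_sub k hc.subT φ _ hxT
      rwa [map_add, hφ1 y hy, zero_add, hφ2 a ha] at h1
    have haK : a ∈ K := hc.inf ⟨haT, ha⟩
    have h2 : e m * a ∈ T := hc.mulT (Submodule.mul_mem_mul (he m) haT)
    have hyT : y ∈ T := by
      have := T.sub_mem hxT h2
      rwa [add_sub_cancel_right] at this
    have h3 := hih ⟨hyT, hy⟩
    have h4 : N ⊔ Submodule.span k (e '' {l | l < m}) * K ≤
        N ⊔ Submodule.span k (e '' (S : Set ι)) * K :=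
      sup_le_sup le_rfl (mul_le_mul' (Submodule.span_mono (Set.image_mono fun l hl =>
        hdown m hmS l hl)) le_rfl)
    exact Submodule.add_mem _ (h4 h3) (Submodule.mem_sup_right
      (Submodule.mul_mem_mul (Submodule.subset_span ⟨m, hmS, rfl⟩) haK))

/-- from `K` to `A`: no distortion of the coefficients -/
theorem fam_co {A K T N : Submodule k H} (hc : Ctx k A K T) {ι : Type} [LinearOrder ι]
    [Finite ι] {e : ι → H} (h : Fam k K N e) (he : ∀ i, e i ∈ T) (hNT : N ≤ T)
    (hNA : T ⊓ (N * A) ≤ N) : Fam k A (N * A) e ∧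
      T ⊓ (N * A ⊔ Submodule.span k (Set.range e) * A) ≤
        N ⊔ Submodule.span k (Set.range e) * K := by
  classical
  have _ := hNT
  have hft : Fintype ι := Fintype.ofFinite ι
  have hNNA : N ≤ N * A := hc.hA.le_mul k N
  refine ⟨⟨LS_mul k h.base hc.hA.LS, ?_, fun l =>
    CoI_mono k (sup_le_sup hNNA (mul_le_mul' le_rfl hc.KA)) (h.coi l), fun i hi => ?_⟩, ?_⟩
  · rw [mul_assoc]
    exact mul_le_mul' le_rfl hc.hA.mul_le
  · have h1 := fm2_main k hc h he hNA _ (Finset.univ.filter fun l => l < i) rfl (by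
      intro l hl j hj
      simp only [Finset.mem_filter, Finset.mem_univ, true_and] at hl ⊢
      exact hj.trans hl)
    have h2 : ((Finset.univ.filter fun l => l < i : Finset ι) : Set ι) = {l | l < i} := by
      ext l
      simp
    rw [h2] at h1
    exact h.indep i (h1 ⟨he i, hi⟩)
  · have h1 := fm2_main k hc h he hNA _ (Finset.univ : Finset ι) rfl (fun _ _ _ _ =>
      Finset.mem_univ _)
    rwa [Finset.coe_univ, Set.image_univ] at h1

end hopf

end Pool.Agent.GKP
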