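import Pool.Agent.Lib_helper54.GKP.Base
import Pool.Agent.Lib_helper54.GKP.FM1

/-! Block FM3, written by helper60. -/

/-!
MP_49c8ed_al. Gap theorems, block FM3: dimension bounds from triangular families.
-/

set_option autoImplicit false

universe u v

namespace Pool.Agent.GKP

open TensorProduct Pool.Agent.GK Pool.Agent.GKC Filter Topology Pool.Agent.GKP

section hopf
variable (k : Type u) [Field k] {H : Type v} [Ring H] [HopfAlgebra k H]

/-- the induction for the upper bound -/
private theorem fm3_main {A D : Submodule k H} (hA : IsHopfSubalgebra k A) {ι : Type}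
    [LinearOrder ι] [Finite ι] {e : ι → H} (h : Fam k A ⊥ e) (hDf : D.FG)
    (hD : IsSubcoalgebra k D) : ∀ (n : ℕ) (S : Finset ι), S.card = n →
      (∀ l ∈ S, ∀ j, j < l → j ∈ S) →
      Module.finrank k ↥(D ⊓ (Submodule.span k (e '' (S : Set ι)) * A)) ≤
        n * Module.finrank k ↥(D ⊓ A) := by
  obtain ⟨hLS, hM, -⟩ := fam_LS k hA h
  have hfin : Module.Finite k D := Module.Finite.iff_fg.2 hDf
  have hfin2 : ∀ X : Submodule k H, Module.Finite k ↥(D ⊓ X) := fun X =>
    Module.Finite.of_injective (Submodule.inclusion (inf_le_left : D ⊓ X ≤ D))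
      (Submodule.inclusion_injective _)
  intro n
  induction n with
  | zero =>
    intro S hS _
    rw [Finset.card_eq_zero] at hS
    subst hS
    simp
  | succ n ih =>
    intro S hS hdown
    have hne : S.Nonempty := Finset.card_pos.1 (by omega)
    set m := S.max' hne with hm
    have hmS : m ∈ S := S.max'_mem hne
    have hset : ((S.erase m : Finset ι) : Set ι) = {l | l < m} := by
      ext l
      simp only [Finset.coe_erase, Set.mem_sdiff, Finset.mem_coe, Set.mem_singleton_iff,
        Set.mem_ofPred_eq]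
      constructor
      · rintro ⟨h1, h2⟩
        exact lt_of_le_of_ne (S.le_max' l h1) h2
      · intro h1
        exact ⟨hdown m hmS l h1, h1.ne⟩
    have hih := ih (S.erase m) (by rw [Finset.card_erase_of_mem hmS]; omega) (by
      intro l hl j hj
      have hl' : l < m := by
        have : l ∈ ((S.erase m : Finset ι) : Set ι) := hl
        rw [hset] at this
        exact this
      have : j ∈ ((S.erase m : Finset ι) : Set ι) := by
        rw [hset]
        exact hj.trans hl'
      exact this)
    rw [hset] at hih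
    have hNl : Nl k A ⊥ e m = Submodule.span k (e '' {l | l < m}) * A := by
      rw [Nl, bot_sup_eq]
    obtain ⟨φ, hφ1, hφ2⟩ := top_exists k hA (hLS m) (hM m) (h.indep m) (h.coi m)
    rw [← hNl] at hih
    -- the decomposition of the sum
    have hdec : Submodule.span k (e '' (S : Set ι)) * A ≤
        Nl k A ⊥ e m ⊔ (A.map (LinearMap.mulLeft k (e m))) := by
      rw [Submodule.mul_le]
      intro y hy a ha
      have h1 : Submodule.span k (e '' (S : Set ι)) ≤
          (Nl k A ⊥ e m ⊔ (A.map (LinearMap.mulLeft k (e m)))).comap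
            (LinearMap.mulRight k a) := by
        rw [Submodule.span_le]
        rintro _ ⟨l, hl, rfl⟩
        change e l * a ∈ Nl k A ⊥ e m ⊔ (A.map (LinearMap.mulLeft k (e m)))
        by_cases hlm : l = m
        · subst hlm
          exact Submodule.mem_sup_right ⟨a, ha, rfl⟩
        · refine Submodule.mem_sup_left (Submodule.mem_sup_right
            (Submodule.mul_mem_mul (Submodule.subset_span ⟨l, ?_, rfl⟩) ha))
          exact lt_of_le_of_ne (S.le_max' l hl) hlm
      exact h1 hy
    -- the top coefficient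
    have hmap : ∀ x ∈ D ⊓ (Submodule.span k (e '' (S : Set ι)) * A),
        FLAG_R k φ x ∈ D ⊓ A := by
      rintro x ⟨hxD, hx⟩
      refine ⟨RS_of_sub k hD φ x hxD, ?_⟩
      obtain ⟨y, hy, _, ⟨a, ha, rfl⟩, rfl⟩ := Submodule.mem_sup.1 (hdec hx)
      rw [map_add, hφ1 y hy, zero_add, LinearMap.mulLeft_apply, hφ2 a ha]
      exact ha
    have hker : ∀ x ∈ D ⊓ (Submodule.span k (e '' (S : Set ι)) * A), FLAG_R k φ x = 0 →
        x ∈ D ⊓ Nl k A ⊥ e m := by
      rintro x ⟨hxD, hx⟩ h0
      refine ⟨hxD, ?_⟩
      obtain ⟨y, hy, _, ⟨a, ha, rfl⟩, rfl⟩ := Submodule.mem_sup.1 (hdec hx)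
      rw [map_add, hφ1 y hy, zero_add, LinearMap.mulLeft_apply, hφ2 a ha] at h0
      rw [h0, map_zero, add_zero]
      exact hy
    set g : ↥(D ⊓ (Submodule.span k (e '' (S : Set ι)) * A)) →ₗ[k] ↥(D ⊓ A) :=
      (FLAG_R k φ).restrict hmap with hg
    have i1 := hfin2 (Submodule.span k (e '' (S : Set ι)) * A)
    have i2 := hfin2 A
    have i3 := hfin2 (Nl k A ⊥ e m)
    have hrank := LinearMap.finrank_range_add_finrank_ker g
    have h1 : Module.finrank k (LinearMap.range g) ≤ Module.finrank k ↥(D ⊓ A) :=
      Submodule.finrank_le _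
    have h2 : Module.finrank k (LinearMap.ker g) ≤ Module.finrank k ↥(D ⊓ Nl k A ⊥ e m) := by
      have h3 : ∀ x : LinearMap.ker g, x.1.1 ∈ D ⊓ Nl k A ⊥ e m := fun x => by
        refine hker x.1.1 x.1.2 ?_
        have h4 : g x.1 = 0 := x.2
        exact congrArg Subtype.val h4
      refine LinearMap.finrank_le_finrank_of_injective (f := LinearMap.codRestrict
        (D ⊓ Nl k A ⊥ e m) ((D ⊓ (Submodule.span k (e '' (S : Set ι)) * A)).subtype ∘ₗ
          (LinearMap.ker g).subtype) h3) ?_
      intro x y hxy
      have h4 := congrArg Subtype.val hxy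
      exact Subtype.ext (Subtype.ext h4)
    rw [add_mul, one_mul]
    omega

/-- upper bound for the dimension of a subcoalgebra -/
theorem fam_upper {A D : Submodule k H} (hA : IsHopfSubalgebra k A) {ι : Type} [LinearOrder ι]
    [Fintype ι] {e : ι → H} (h : Fam k A ⊥ e) (hDf : D.FG) (hD : IsSubcoalgebra k D)
    (hDe : D ≤ Submodule.span k (Set.range e) * A) :
    Module.finrank k D ≤ Fintype.card ι * Module.finrank k ↥(D ⊓ A) := by
  have h1 := fm3_main k hA h hDf hD _ (Finset.univ : Finset ι) rfl (fun _ _ _ _ =>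
    Finset.mem_univ _)
  rw [Finset.coe_univ, Set.image_univ, inf_eq_left.2 hDe, Finset.card_univ] at h1
  exact h1

/-- lower bound -/
theorem fam_lower {A X B : Submodule k H} (hA : IsHopfSubalgebra k A) {ι : Type}
    [LinearOrder ι] [Fintype ι] {e : ι → H} (h : Fam k A ⊥ e) (hX : X.FG) (he : ∀ i, e i ∈ X)
    (hB : B.FG) (hBA : B ≤ A) :
    Fintype.card ι * Module.finrank k B ≤ Module.finrank k ↥(X * B) := by
  have i1 : Module.Finite k B := Module.Finite.iff_fg.2 hB
  have i2 : Module.Finite k ↥(X * B) := Module.Finite.iff_fg.2 (hX.mul hB)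
  have hmem : ∀ b : ι → B, ∑ i, e i * (b i).val ∈ X * B := fun b =>
    Submodule.sum_mem _ fun i _ => Submodule.mul_mem_mul (he i) (b i).2
  let g : (ι → B) →ₗ[k] ↥(X * B) :=
    { toFun := fun b => ⟨∑ i, e i * (b i).val, hmem b⟩
      map_add' := fun b c => by
        apply Subtype.ext
        simp only [Pi.add_apply, Submodule.coe_add, mul_add, Finset.sum_add_distrib]
      map_smul' := fun a b => by
        apply Subtype.ext
        simp only [Pi.smul_apply, Submodule.coe_smul, mul_smul_comm, RingHom.id_apply,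
          Finset.smul_sum] }
  have hinj : Function.Injective g := by
    rw [injective_iff_map_eq_zero]
    intro b hb
    have h1 : ∑ i, e i * (b i).val = 0 := congrArg Subtype.val hb
    have h2 := fam_free k hA h (fun i => (b i).val) (fun i => hBA (b i).2)
      (by rw [h1]; exact Submodule.zero_mem _)
    funext i
    exact Subtype.ext (h2 i)
  have h3 := LinearMap.finrank_le_finrank_of_injective hinj
  rwa [Module.finrank_pi_fintype, Finset.sum_const, Finset.card_univ, smul_eq_mul] at h3

end hopf

end Pool.Agent.GKP
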