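import Pool.Agent.Lib_helper54.GKP.Base
import Pool.Agent.Lib_helper54.GKP.SOC
import Pool.Agent.Lib_helper54.GKP.CI
import Pool.Agent.Lib_helper54.GKP.FM2
import Pool.Agent.Lib_helper54.GKP.FM3

/-! Block FL, written by helper51. -/

/-!
MP_49c8ed_al, gap theorems: block FL (flags).
-/

set_option autoImplicit false

universe u v

namespace Pool.Agent.GKP

open TensorProduct Pool.Agent.GK Pool.Agent.GKC Filter Topology Pool.Agent.GKP

section hopf
variable (k : Type u) [Field k] {H : Type v} [Ring H] [HopfAlgebra k H]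

/-- the full module `N + span(e) K` -/
private def fl_M (K N : Submodule k H) {r : ℕ} (e : Fin r → H) : Submodule k H :=
  N ⊔ Submodule.span k (Set.range e) * K

private theorem fl_M_mul {K N : Submodule k H} (hK : IsHopfSubalgebra k K) {r : ℕ}
    {e : Fin r → H} (hNK : N * K ≤ N) : fl_M k K N e * K ≤ fl_M k K N e := by
  rw [fl_M, Submodule.sup_mul]
  refine sup_le_sup hNK ?_
  rw [mul_assoc]
  exact mul_le_mul' le_rfl (hK.mul_le k)

omit [Ring H] in
private theorem fl_img {r : ℕ} (c : Fin r → H) (x : H) (j : Fin r) :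
    (Fin.snoc (α := fun _ => H) c x : Fin (r + 1) → H) '' {l | l < Fin.castSucc j} =
      c '' {l | l < j} := by
  ext z
  constructor
  · rintro ⟨l, hl, rfl⟩
    have hl' : l.val < j.val := hl
    have h1 : l = Fin.castSucc ⟨l.val, hl'.trans j.2⟩ := rfl
    refine ⟨⟨l.val, hl'.trans j.2⟩, hl', ?_⟩
    conv_rhs => rw [h1]
    rw [Fin.snoc_castSucc]
  · rintro ⟨l, hl, rfl⟩
    refine ⟨Fin.castSucc l, ?_, ?_⟩
    · exact hl
    · rw [Fin.snoc_castSucc]

omit [Ring H] in
private theorem fl_img_last {r : ℕ} (c : Fin r → H) (x : H) :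
    (Fin.snoc (α := fun _ => H) c x : Fin (r + 1) → H) '' {l | l < Fin.last r} =
      Set.range c := by
  ext z
  constructor
  · rintro ⟨l, hl, rfl⟩
    have hl' : l.val < r := hl
    have h1 : l = Fin.castSucc ⟨l.val, hl'⟩ := rfl
    refine ⟨⟨l.val, hl'⟩, ?_⟩
    conv_rhs => rw [h1]
    rw [Fin.snoc_castSucc]
  · rintro ⟨l, rfl⟩
    refine ⟨Fin.castSucc l, Fin.castSucc_lt_last l, ?_⟩
    rw [Fin.snoc_castSucc]

/-- one more coinvariant -/
private theorem fl_step {K N M : Submodule k H} (hK : IsHopfSubalgebra k K)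
    (hMf : M.FG) (hM : IsSubcoalgebra k M)
    (hA : ∀ D : Submodule k H, IsSimpleSubcoalgebra k D → D ≤ M → D ≤ K)
    {r : ℕ} {e : Fin r → H} (h : Fam k K N e) (hne : ¬ M ≤ fl_M k K N e) :
    ∃ u ∈ M * (M ⊓ K).map (HopfAlgebra.antipode k), u ∉ fl_M k K N e ∧
      CoI k (fl_M k K N e) u := by
  have hF : LS k (fl_M k K N e) := (fam_LS k hK h).2.2
  obtain ⟨w, hw, hwF, hwL⟩ := soc_L k hMf hM hA (LS_of_sub k hM) le_rfl hF hne
  have hX := LS_van k (A := K) (M := M) (F := fl_M k K N e) hK.LS (LS_of_sub k hM)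
  obtain ⟨u, hu, huF, hco⟩ := coinv k hK hF (fl_M_mul k hK h.baseM) (fl_M_mul k hK h.baseM)
    le_rfl hX hM inf_le_left (fun w hw => ((mem_van k).1 hw).2)
    (fun hle => hwF (hle ((mem_van k).2 ⟨hw, hwL⟩)))
  have hle : (M ⊓ ⨅ g : {g : Module.Dual k H // Van k K g}, (fl_M k K N e).comap (FLAG_L k g.1)) *
      (M ⊓ K).map (HopfAlgebra.antipode k) ≤ M * (M ⊓ K).map (HopfAlgebra.antipode k) :=
    mul_le_mul' inf_le_left le_rfl
  exact ⟨u, hle hu, huF, hco⟩

private theorem fl_iter {K N M : Submodule k H} (hK : IsHopfSubalgebra k K) (hN : LS k N)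
    (hNK : N * K ≤ N) (hMf : M.FG) (hM : IsSubcoalgebra k M)
    (hA : ∀ D : Submodule k H, IsSimpleSubcoalgebra k D → D ≤ M → D ≤ K)
    (hno : ∀ (r : ℕ) (e : Fin r → H), Fam k K N e →
      (∀ i, e i ∈ M * (M ⊓ K).map (HopfAlgebra.antipode k)) → ¬ M ≤ fl_M k K N e) (r : ℕ) :
    ∃ e : Fin r → H, Fam k K N e ∧
      (∀ i, e i ∈ M * (M ⊓ K).map (HopfAlgebra.antipode k)) ∧
      r ≤ Module.finrank k ↥((M * (M ⊓ K).map (HopfAlgebra.antipode k)) ⊓ fl_M k K N e) := by
  have hXf : (M * (M ⊓ K).map (HopfAlgebra.antipode k)).FG := by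
    have : Module.Finite k M := Module.Finite.iff_fg.2 hMf
    have h1 : (M ⊓ K).FG := Module.Finite.iff_fg.1 (Submodule.finiteDimensional_of_le inf_le_left)
    exact hMf.mul (h1.map _)
  have : Module.Finite k ↥(M * (M ⊓ K).map (HopfAlgebra.antipode k)) :=
    Module.Finite.iff_fg.2 hXf
  induction r with
  | zero =>
    exact ⟨Fin.elim0, ⟨hN, hNK, fun i => i.elim0, fun i => i.elim0⟩, fun i => i.elim0,
      Nat.zero_le _⟩
  | succ r ih =>
    obtain ⟨c, hF, hc, hr⟩ := ih
    obtain ⟨x, hxX, hxM, hco⟩ := fl_step k hK hMf hM hA hF (hno r c hF hc)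
    have hle : fl_M k K N c ≤ fl_M k K N (Fin.snoc (α := fun _ => H) c x) := by
      refine sup_le_sup le_rfl (mul_le_mul' (Submodule.span_mono ?_) le_rfl)
      rintro _ ⟨i, rfl⟩
      exact ⟨Fin.castSucc i, Fin.snoc_castSucc (α := fun _ => H) _ _ _⟩
    have hx' : x ∈ fl_M k K N (Fin.snoc (α := fun _ => H) c x) := by
      refine Submodule.mem_sup_right ?_
      have e1 : x ∈ Submodule.span k
          (Set.range (Fin.snoc (α := fun _ => H) c x : Fin (r + 1) → H)) :=
        Submodule.subset_span ⟨Fin.last r, Fin.snoc_last (α := fun _ => H) _ _⟩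
      have := Submodule.mul_mem_mul e1 hK.one_mem
      rwa [mul_one] at this
    have hNl : ∀ j : Fin r, Nl k K N (Fin.snoc (α := fun _ => H) c x : Fin (r + 1) → H)
        (Fin.castSucc j) = Nl k K N c j := by
      intro j
      rw [Nl, Nl, fl_img]
    have hNl' : Nl k K N (Fin.snoc (α := fun _ => H) c x : Fin (r + 1) → H)
        (Fin.last r) = fl_M k K N c := by
      rw [Nl, fl_img_last, fl_M]
    refine ⟨Fin.snoc (α := fun _ => H) c x, ⟨hN, hNK, ?_, ?_⟩, ?_, ?_⟩
    · intro i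
      induction i using Fin.lastCases with
      | last =>
        rw [hNl', Fin.snoc_last]
        exact hco
      | cast i =>
        rw [hNl, Fin.snoc_castSucc]
        exact hF.coi i
    · intro i
      induction i using Fin.lastCases with
      | last =>
        rw [hNl', Fin.snoc_last]
        exact hxM
      | cast i =>
        rw [hNl, Fin.snoc_castSucc]
        exact hF.indep i
    · intro i
      induction i using Fin.lastCases with
      | last => rw [Fin.snoc_last]; exact hxX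
      | cast i => rw [Fin.snoc_castSucc]; exact hc i
    · have hlt : (M * (M ⊓ K).map (HopfAlgebra.antipode k)) ⊓ fl_M k K N c <
          (M * (M ⊓ K).map (HopfAlgebra.antipode k)) ⊓
            fl_M k K N (Fin.snoc (α := fun _ => H) c x) := by
        refine lt_of_le_of_ne (inf_le_inf le_rfl hle) fun h => hxM ?_
        have h2 : x ∈ (M * (M ⊓ K).map (HopfAlgebra.antipode k)) ⊓ fl_M k K N c := by
          rw [h]
          exact ⟨hxX, hx'⟩
        exact h2.2
      have : Module.Finite k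
          ↥((M * (M ⊓ K).map (HopfAlgebra.antipode k)) ⊓
            fl_M k K N (Fin.snoc (α := fun _ => H) c x)) :=
        Submodule.finiteDimensional_of_le inf_le_left
      exact (Nat.succ_le_succ hr).trans (Nat.succ_le_of_lt (Submodule.finrank_lt_finrank_of_lt hlt))

theorem flag_exists {K N M : Submodule k H} (hK : IsHopfSubalgebra k K) (hN : LS k N)
    (hNK : N * K ≤ N) (hMf : M.FG) (hM : IsSubcoalgebra k M)
    (hA : ∀ D : Submodule k H, IsSimpleSubcoalgebra k D → D ≤ M → D ≤ K) :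
    ∃ (r : ℕ) (e : Fin r → H), Fam k K N e ∧
      (∀ i, e i ∈ M * (M ⊓ K).map (HopfAlgebra.antipode k)) ∧
      M ≤ N ⊔ Submodule.span k (Set.range e) * K := by
  by_contra hcon
  have hno : ∀ (r : ℕ) (e : Fin r → H), Fam k K N e →
      (∀ i, e i ∈ M * (M ⊓ K).map (HopfAlgebra.antipode k)) → ¬ M ≤ fl_M k K N e :=
    fun r e h1 h2 h3 => hcon ⟨r, e, h1, h2, h3⟩
  obtain ⟨e, -, -, h⟩ := fl_iter k hK hN hNK hMf hM hA hno
    (Module.finrank k ↥(M * (M ⊓ K).map (HopfAlgebra.antipode k)) + 1)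
  have hXf : (M * (M ⊓ K).map (HopfAlgebra.antipode k)).FG := by
    have : Module.Finite k M := Module.Finite.iff_fg.2 hMf
    have h1 : (M ⊓ K).FG := Module.Finite.iff_fg.1 (Submodule.finiteDimensional_of_le inf_le_left)
    exact hMf.mul (h1.map _)
  have : Module.Finite k ↥(M * (M ⊓ K).map (HopfAlgebra.antipode k)) :=
    Module.Finite.iff_fg.2 hXf
  have h2 := Submodule.finrank_mono (R := k)
    (s := (M * (M ⊓ K).map (HopfAlgebra.antipode k)) ⊓ fl_M k K N e)
    (t := M * (M ⊓ K).map (HopfAlgebra.antipode k)) inf_le_left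
  omega

/-- coefficients outside of `K` can be dropped -/
theorem co_sub {A K T M : Submodule k H} (hc : Ctx k A K T) (hcor : coradical k H ≤ A)
    (hMf : M.FG) (hM : IsSubcoalgebra k M) (hMT : M ≤ T) : T ⊓ (M * A) ≤ M * K := by
  have hA : ∀ D : Submodule k H, IsSimpleSubcoalgebra k D → D ≤ M → D ≤ K := by
    intro D hD hDM
    have h1 : D ≤ coradical k H := le_sSup hD
    exact (le_inf (hDM.trans hMT) (h1.trans hcor)).trans hc.inf
  obtain ⟨r, e, hF, he, hle⟩ := flag_exists k hc.hK (LS_bot k) (by rw [Submodule.bot_mul]) hMf hM hA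
  have hS : (M ⊓ K).map (HopfAlgebra.antipode k) ≤ K := by
    rw [Submodule.map_le_iff_le_comap]
    exact fun x hx => hc.hK.antipode_mem x hx.2
  have heM : Submodule.span k (Set.range e) ≤ M * K := by
    rw [Submodule.span_le]
    rintro _ ⟨i, rfl⟩
    exact mul_le_mul' le_rfl hS (he i)
  have heT : ∀ i, e i ∈ T := fun i => by
    have h1 : M * K ≤ T := (mul_le_mul' hMT hc.KT).trans hc.mulT
    exact h1 (heM (Submodule.subset_span ⟨i, rfl⟩))
  have h2 := (fam_co k hc hF heT bot_le (by rw [Submodule.bot_mul]; exact inf_le_right)).2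
  rw [Submodule.bot_mul, bot_sup_eq, bot_sup_eq] at h2
  rw [bot_sup_eq] at hle
  have h3 : M * A ≤ Submodule.span k (Set.range e) * A := by
    calc M * A ≤ (Submodule.span k (Set.range e) * K) * A := mul_le_mul' hle le_rfl
      _ = Submodule.span k (Set.range e) * (K * A) := mul_assoc _ _ _
      _ ≤ _ := mul_le_mul' le_rfl ((mul_le_mul' hc.KA le_rfl).trans hc.hA.mul_le)
  calc T ⊓ (M * A) ≤ T ⊓ (Submodule.span k (Set.range e) * A) := inf_le_inf le_rfl h3
    _ ≤ Submodule.span k (Set.range e) * K := h2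
    _ ≤ (M * K) * K := mul_le_mul' heM le_rfl
    _ = M * (K * K) := mul_assoc _ _ _
    _ ≤ M * K := mul_le_mul' le_rfl hc.hK.mul_le

end hopf

end Pool.Agent.GKP
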