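import Pool.Agent.Lib_helper54.GKP.Base

/-! Block GW, written by helper92. -/

/-!
MP_49c8ed_al, block GW: growth (real analysis).
-/

set_option autoImplicit false

universe u v

namespace Pool.Agent.GKP

open TensorProduct Pool.Agent.GK Pool.Agent.GKC Filter Topology

section hopf
variable (k : Type u) [Field k] {H : Type v} [Ring H] [HopfAlgebra k H]

private theorem gwp_one_le {E : Submodule k H} (hE : E.FG) (h1 : (1 : H) ∈ E) (n : ℕ) :
    1 ≤ Module.finrank k ↥(E ^ n) := by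
  have hfin : Module.Finite k ↥(E ^ n) := Module.Finite.iff_fg.2 (hE.pow n)
  have h2 : (1 : H) ∈ E ^ n :=
    (one_le_pow_of_one_le' (Submodule.one_le.2 h1) n) (Submodule.one_le.1 le_rfl)
  have h3 : (1 : H) ≠ 0 := fun h => by
    have := congrArg (Coalgebra.counit (R := k)) h
    rw [Bialgebra.counit_one, map_zero] at this
    exact one_ne_zero this
  rw [Nat.one_le_iff_ne_zero]
  intro h4
  rw [Submodule.finrank_eq_zero] at h4
  rw [h4] at h2
  exact h3 (by simpa using h2)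

private theorem gwp_Gr_mono {f g : ℕ → ℕ} (h : ∀ n, f n ≤ g n) : Gr f ≤ Gr g := by
  refine limsup_le_limsup (Eventually.of_forall fun n => ?_)
  refine ENNReal.ofReal_le_ofReal ?_
  exact div_le_div_of_nonneg_right (asm_log_nat_mono (h n)) (Real.log_natCast_nonneg n)

private theorem gwp_pow_le {A V : Submodule k H} (h1A : (1 : H) ∈ A) (hAA : A * A ≤ A)
    (hVA : V ≤ A) (n : ℕ) : V ^ n ≤ A := by
  induction n with
  | zero =>
    rw [pow_zero]
    exact Submodule.one_le.2 h1A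
  | succ n ih =>
    rw [pow_succ]
    exact (mul_le_mul' ih hVA).trans hAA

/-- the logarithms of `n` and of `D (n + 1)` are asymptotically equal -/
private theorem gwp_ratio {D : ℕ} (hD : 1 ≤ D) :
    Tendsto (fun n : ℕ => Real.log (n : ℝ) / Real.log ((D * (n + 1) : ℕ) : ℝ)) atTop (𝓝 1) := by
  have h1 := Gr_tendsto (d := fun n : ℕ => D * (n + 1)) (r := 1) (c := (D : ℝ))
    (C := 2 * (D : ℝ)) (by exact_mod_cast hD) (by
      intro n hn
      have hn' : (1 : ℝ) ≤ (n : ℝ) := by exact_mod_cast hn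
      have hD' : (1 : ℝ) ≤ (D : ℝ) := by exact_mod_cast hD
      push_cast
      constructor <;> nlinarith)
  have h2 := h1.inv₀ (by norm_num)
  simp only [inv_div, Nat.cast_one, inv_one] at h2
  exact h2

private theorem gwp_sub {f g : ℕ → ℕ} {D e : ℕ} (hD : 1 ≤ D) (hg : ∀ n, 1 ≤ g n)
    (h : ∀ n, n ^ e * g n ≤ f (D * (n + 1))) : Gr g + e ≤ Gr f := by
  rw [← one_mul (Gr g + e)]
  refine ENNReal.mul_le_of_forall_lt fun θ hθ b hb => ?_
  refine (mul_le_mul le_rfl hb.le (zero_le) (zero_le)).trans ?_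
  clear hb b
  have hθt : θ ≠ ⊤ := (hθ.trans ENNReal.one_lt_top).ne
  have hc : Gr g + e = limsup (fun n : ℕ => ENNReal.ofReal (Real.log ((g n : ℕ) : ℝ) /
      Real.log (n : ℝ)) + e) atTop :=
    (limsup_add_const atTop _ _ (by isBoundedDefault) (by isBoundedDefault)).symm
  rw [hc, ← ENNReal.limsup_const_mul_of_ne_top hθt]
  have hφ : Tendsto (fun n : ℕ => D * (n + 1)) atTop atTop := by
    refine tendsto_atTop_mono (fun n => ?_) tendsto_id
    show n ≤ D * (n + 1)
    nlinarith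
  have hle : limsup (fun n : ℕ => ENNReal.ofReal (Real.log ((f (D * (n + 1)) : ℕ) : ℝ) /
      Real.log ((D * (n + 1) : ℕ) : ℝ))) atTop ≤ Gr f := by
    have := limsup_le_limsup_of_le (u := fun n : ℕ => ENNReal.ofReal
      (Real.log ((f n : ℕ) : ℝ) / Real.log (n : ℝ))) hφ
    exact this
  refine le_trans ?_ hle
  refine limsup_le_limsup ?_
  have hθ1 : θ.toReal < 1 := by
    have := (ENNReal.toReal_lt_toReal hθt ENNReal.one_ne_top).2 hθ
    simpa using this
  filter_upwards [(gwp_ratio hD).eventually_const_lt hθ1, eventually_ge_atTop 2] with n hr hn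
  have hn0 : (0 : ℝ) < (n : ℝ) := by
    have : 0 < n := by omega
    exact_mod_cast this
  have hln : 0 < Real.log (n : ℝ) := Real.log_pos (by exact_mod_cast hn)
  have hD2 : 2 ≤ D * (n + 1) := by nlinarith
  have hlD : 0 < Real.log ((D * (n + 1) : ℕ) : ℝ) := Real.log_pos (by exact_mod_cast hD2)
  have hgn : (1 : ℝ) ≤ (g n : ℝ) := by exact_mod_cast hg n
  have h1 : (e : ℝ) * Real.log (n : ℝ) + Real.log ((g n : ℕ) : ℝ) ≤
      Real.log ((f (D * (n + 1)) : ℕ) : ℝ) := by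
    rw [← Real.log_pow, ← Real.log_mul (by positivity) (by positivity)]
    refine Real.log_le_log (by positivity) ?_
    exact_mod_cast h n
  have h2 : ENNReal.ofReal (Real.log ((g n : ℕ) : ℝ) / Real.log (n : ℝ)) + (e : ENNReal) =
      ENNReal.ofReal (Real.log ((g n : ℕ) : ℝ) / Real.log (n : ℝ) + e) := by
    rw [ENNReal.ofReal_add (div_nonneg (Real.log_nonneg hgn) hln.le) (Nat.cast_nonneg e),
      ENNReal.ofReal_natCast]
  rw [h2]
  have h3 : θ = ENNReal.ofReal θ.toReal := (ENNReal.ofReal_toReal hθt).symm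
  rw [h3, ← ENNReal.ofReal_mul ENNReal.toReal_nonneg]
  refine ENNReal.ofReal_le_ofReal ?_
  have h4 : 0 ≤ Real.log ((g n : ℕ) : ℝ) / Real.log (n : ℝ) + e :=
    add_nonneg (div_nonneg (Real.log_nonneg hgn) hln.le) (Nat.cast_nonneg e)
  calc θ.toReal * (Real.log ((g n : ℕ) : ℝ) / Real.log (n : ℝ) + e)
      ≤ (Real.log (n : ℝ) / Real.log ((D * (n + 1) : ℕ) : ℝ)) *
        (Real.log ((g n : ℕ) : ℝ) / Real.log (n : ℝ) + e) :=
          mul_le_mul_of_nonneg_right hr.le h4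
    _ = (e * Real.log (n : ℝ) + Real.log ((g n : ℕ) : ℝ)) /
        Real.log ((D * (n + 1) : ℕ) : ℝ) := by
          field_simp
          ring
    _ ≤ Real.log ((f (D * (n + 1)) : ℕ) : ℝ) / Real.log ((D * (n + 1) : ℕ) : ℝ) :=
          div_le_div_of_nonneg_right h1 hlD.le

theorem gw_lower {A V : Submodule k H} (h1A : (1 : H) ∈ A) (hAA : A * A ≤ A) (hV : V.FG)
    (h1V : (1 : H) ∈ V) (c e : ℕ)
    (h : ∀ (n : ℕ) (B : Submodule k H), B.FG → (1 : H) ∈ B → B ≤ A →
      n ^ e * Module.finrank k B ≤ Module.finrank k ↥(V ^ (c * (n + 1)) * B)) :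
    GKsub k A + e ≤ GKdim k H := by
  have key : ∀ V' : Submodule k H, (1 ≤ V' ∧ V'.FG) ∧ V' ≤ A → asm_L k V' + e ≤ GKdim k H := by
    rintro V' ⟨⟨h1, hfg⟩, hVA⟩
    have hW1 : (1 : Submodule k H) ≤ V ⊔ V' := h1.trans le_sup_right
    have hWfg : (V ⊔ V').FG := hV.sup hfg
    refine le_trans ?_ (le_GKdim k hW1 hWfg)
    rw [asm_L_eq_Gr, asm_L_eq_Gr]
    refine gwp_sub (D := c + 1) (Nat.succ_pos c)
      (fun n => gwp_one_le k hfg (Submodule.one_le.1 h1) n) fun n => ?_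
    refine (h n (V' ^ n) (hfg.pow n) ((one_le_pow_of_one_le' h1 n) (Submodule.one_le.1 le_rfl))
      (gwp_pow_le k h1A hAA hVA n)).trans ?_
    have hfin : Module.Finite k ↥((V ⊔ V') ^ ((c + 1) * (n + 1))) :=
      Module.Finite.iff_fg.2 (hWfg.pow _)
    refine Submodule.finrank_mono ?_
    calc V ^ (c * (n + 1)) * V' ^ n ≤ (V ⊔ V') ^ (c * (n + 1)) * (V ⊔ V') ^ n :=
          mul_le_mul' (pow_le_pow_left' le_sup_left _) (pow_le_pow_left' le_sup_right _)
      _ = (V ⊔ V') ^ (c * (n + 1) + n) := (pow_add _ _ _).symm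
      _ ≤ (V ⊔ V') ^ ((c + 1) * (n + 1)) := pow_le_pow_right' hW1 (by nlinarith)
  by_cases htop : GKdim k H = ⊤
  · rw [htop]
    exact le_top
  have he : (e : ENNReal) ≤ GKdim k H := by
    refine le_trans le_add_self (key 1 ⟨⟨le_rfl, ?_⟩, Submodule.one_le.2 h1A⟩)
    rw [Submodule.one_eq_span]
    exact Submodule.fg_span_singleton 1
  have h2 : GKsub k A ≤ GKdim k H - e :=
    iSup₂_le fun V' hV' => ENNReal.le_sub_of_add_le_right (ENNReal.natCast_ne_top e) (key V' hV')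
  calc GKsub k A + e ≤ (GKdim k H - e) + e := add_le_add h2 le_rfl
    _ = GKdim k H := tsub_add_cancel_of_le he

theorem gw_upper {A C E : Submodule k H} (hC : C.FG) (h1C : (1 : H) ∈ C) (hE : E.FG)
    (h1E : (1 : H) ∈ E) (hEA : E ≤ A) (c e : ℕ)
    (h : ∀ n : ℕ, Module.finrank k ↥(C ^ n) ≤
      c * (n + 1) ^ e * Module.finrank k ↥(E ^ n)) :
    asm_L k C ≤ GKsub k A + e := by
  have h1 : asm_L k E ≤ GKsub k A :=
    le_iSup₂_of_le (f := fun (V : Submodule k H) (_ : (1 ≤ V ∧ V.FG) ∧ V ≤ A) => asm_L k V) E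
      ⟨⟨Submodule.one_le.2 h1E, hE⟩, hEA⟩ le_rfl
  refine le_trans ?_ (add_le_add h1 le_rfl)
  rw [asm_L_eq_Gr, asm_L_eq_Gr]
  have h2 := Gr_mul (κ := fun n => Module.finrank k ↥(E ^ n))
    (d := fun n => (c + 1) * (n + 1) ^ e) (r := e) (c := 1) (C := ((c : ℝ) + 1) * 2 ^ e)
    (fun n => gwp_one_le k hE h1E n) one_pos (by
      intro n hn
      have hn' : (1 : ℝ) ≤ (n : ℝ) := by exact_mod_cast hn
      have hc' : (0 : ℝ) ≤ (c : ℝ) := Nat.cast_nonneg c
      push_cast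
      constructor
      · have h3 : (n : ℝ) ^ e ≤ ((n : ℝ) + 1) ^ e :=
          pow_le_pow_left₀ (by linarith) (by linarith) e
        have h4 : (0 : ℝ) ≤ ((n : ℝ) + 1) ^ e := by positivity
        nlinarith
      · rw [mul_assoc, ← mul_pow]
        refine mul_le_mul_of_nonneg_left ?_ (by linarith)
        exact pow_le_pow_left₀ (by linarith) (by linarith) e)
  rw [← h2]
  refine gwp_Gr_mono fun n => ?_
  refine (h n).trans ?_
  show c * (n + 1) ^ e * Module.finrank k ↥(E ^ n) ≤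
    Module.finrank k ↥(E ^ n) * ((c + 1) * (n + 1) ^ e)
  rw [mul_comm]
  exact Nat.mul_le_mul_left _ (Nat.mul_le_mul_right _ (Nat.le_succ c))

end hopf

end Pool.Agent.GKP
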