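import Pool.Agent.Lib_helper54.GKP.Base

/-!
MP_49c8ed_al. Gap theorems, block PT: pointed Hopf algebras.
-/

set_option autoImplicit false

universe u v

namespace Pool.Agent.GKP

open TensorProduct Pool.Agent.GK Pool.Agent.GKC Filter Topology

section bialg
variable (k : Type u) [Field k] {H : Type v} [Ring H] [Bialgebra k H]

/-- a one-dimensional subcoalgebra is spanned by a group-like -/
theorem pt_line {D : Submodule k H} (hD : IsSubcoalgebra k D) (h1 : Module.finrank k D = 1) :
    ∃ g : GroupLike k H, D = Submodule.span k {g.val} := by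
  obtain ⟨⟨x, hx⟩, hx0, hspan⟩ := finrank_eq_one_iff'.1 h1
  have hx0' : x ≠ 0 := fun h => hx0 (Subtype.ext h)
  have hDx : D = Submodule.span k {x} := by
    apply le_antisymm
    · intro y hy
      obtain ⟨c, hc⟩ := hspan ⟨y, hy⟩
      rw [Submodule.mem_span_singleton]
      exact ⟨c, congrArg Subtype.val hc⟩
    · rw [Submodule.span_singleton_le_iff_mem]
      exact hx
  have h2 : tsp k D D ≤ Submodule.span k {x ⊗ₜ[k] x} := by
    rw [tsp_le]
    intro a ha b hb
    rw [hDx, Submodule.mem_span_singleton] at ha hb
    obtain ⟨c, rfl⟩ := ha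
    obtain ⟨d, rfl⟩ := hb
    rw [TensorProduct.smul_tmul_smul]
    exact Submodule.smul_mem _ _ (Submodule.mem_span_singleton_self _)
  obtain ⟨c, hc⟩ := Submodule.mem_span_singleton.1 (h2 (hD x hx))
  have h3 := Coalgebra.rTensor_counit_comul (R := k) x
  rw [← hc, map_smul, LinearMap.rTensor_tmul] at h3
  have h4 := congrArg (TensorProduct.lid k H) h3
  simp only [map_smul, TensorProduct.lid_tmul, one_smul] at h4
  rw [smul_smul] at h4
  have h5 : c * Coalgebra.counit (R := k) x = 1 := by
    have h6 : (c * Coalgebra.counit (R := k) x - 1) • x = 0 := by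
      rw [sub_smul, one_smul, h4, sub_self]
    rcases smul_eq_zero.1 h6 with h7 | h7
    · exact sub_eq_zero.1 h7
    · exact absurd h7 hx0'
  have hc0 : c ≠ 0 := by
    rintro rfl
    simp at h5
  refine ⟨⟨c • x, ⟨?_, ?_⟩⟩, ?_⟩
  · rw [map_smul, smul_eq_mul, h5]
  · rw [map_smul, ← hc, TensorProduct.smul_tmul_smul, smul_smul]
  · rw [hDx]
    apply le_antisymm
    · rw [Submodule.span_singleton_le_iff_mem, Submodule.mem_span_singleton]
      exact ⟨c⁻¹, by rw [smul_smul, inv_mul_cancel₀ hc0, one_smul]⟩
    · rw [Submodule.span_singleton_le_iff_mem]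
      exact Submodule.smul_mem _ _ (Submodule.mem_span_singleton_self _)

theorem pt_grp_sub (g : GroupLike k H) : IsSubcoalgebra k (Submodule.span k {g.val}) := by
  intro x hx
  obtain ⟨c, rfl⟩ := Submodule.mem_span_singleton.1 hx
  rw [map_smul, g.2.comul_eq_tmul_self]
  exact Submodule.smul_mem _ _ (tmul_mem_tsp k (Submodule.mem_span_singleton_self _)
    (Submodule.mem_span_singleton_self _))

theorem pt_grp_simple [Nontrivial H] (g : GroupLike k H) :
    IsSimpleSubcoalgebra k (Submodule.span k {g.val}) := by
  have hg : g.val ≠ 0 := fun h => by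
    have := g.2.counit_eq_one
    rw [h, map_zero] at this
    exact zero_ne_one this
  refine ⟨pt_grp_sub k g, fun h => hg (Submodule.span_singleton_eq_bot.1 h), fun E _ hE => ?_⟩
  by_cases hE0 : E = ⊥
  · exact Or.inl hE0
  · right
    obtain ⟨x, hx, hx0⟩ := Submodule.exists_mem_ne_zero_of_ne_bot hE0
    obtain ⟨c, rfl⟩ := Submodule.mem_span_singleton.1 (hE hx)
    have hc0 : c ≠ 0 := by
      rintro rfl
      simp at hx0
    apply le_antisymm hE
    rw [Submodule.span_singleton_le_iff_mem]
    have : g.val = c⁻¹ • (c • g.val) := by rw [smul_smul, inv_mul_cancel₀ hc0, one_smul]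
    rw [this]
    exact E.smul_mem _ hx

/-- the coradical of a pointed bialgebra is spanned by the group-likes -/
theorem pt_coradical [Nontrivial H]
    (hp : ∀ D : Submodule k H, IsSimpleSubcoalgebra k D → Module.finrank k D = 1) :
    coradical k H = kS k (Set.univ : Set (GroupLike k H)) := by
  apply le_antisymm
  · refine sSup_le fun D hD => ?_
    obtain ⟨g, rfl⟩ := pt_line k hD.1 (hp D hD)
    rw [Submodule.span_singleton_le_iff_mem]
    exact Submodule.subset_span ⟨g, trivial, rfl⟩
  · rw [kS, Submodule.span_le]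
    rintro _ ⟨g, _, rfl⟩
    exact (le_sSup (pt_grp_simple k g) : _ ≤ coradical k H) (Submodule.mem_span_singleton_self _)

end bialg

section hopf
variable (k : Type u) [Field k] {H : Type v} [Ring H] [HopfAlgebra k H]

theorem pt_hopf : IsHopfSubalgebra k (kS k (Set.univ : Set (GroupLike k H))) where
  one_mem := Submodule.subset_span ⟨1, trivial, rfl⟩
  mul_mem := by
    intro a ha b hb
    have h1 : kS k (Set.univ : Set (GroupLike k H)) * kS k (Set.univ : Set (GroupLike k H)) ≤
        kS k (Set.univ : Set (GroupLike k H)) := by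
      rw [kS, Submodule.span_mul_span, Submodule.span_le]
      rintro _ ⟨_, ⟨g, _, rfl⟩, _, ⟨h, _, rfl⟩, rfl⟩
      exact Submodule.subset_span ⟨g * h, trivial, rfl⟩
    exact h1 (Submodule.mul_mem_mul ha hb)
  sub := by
    intro x hx
    have h1 : kS k (Set.univ : Set (GroupLike k H)) ≤
        (tsp k (kS k (Set.univ : Set (GroupLike k H)))
          (kS k (Set.univ : Set (GroupLike k H)))).comap (Coalgebra.comul (R := k)) := by
      rw [kS, Submodule.span_le]
      rintro _ ⟨g, _, rfl⟩
      simp only [Submodule.comap_coe, Set.mem_preimage, SetLike.mem_coe]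
      rw [g.2.comul_eq_tmul_self]
      exact tmul_mem_tsp k (Submodule.subset_span ⟨g, trivial, rfl⟩)
        (Submodule.subset_span ⟨g, trivial, rfl⟩)
    exact h1 hx
  antipode_mem := by
    intro x hx
    have h1 : kS k (Set.univ : Set (GroupLike k H)) ≤
        (kS k (Set.univ : Set (GroupLike k H))).comap (HopfAlgebra.antipode k) := by
      conv_lhs => rw [kS]
      rw [Submodule.span_le]
      rintro _ ⟨g, _, rfl⟩
      exact Submodule.subset_span ⟨g⁻¹, trivial, rfl⟩
    exact h1 hx

theorem pt_grp_mem (x : MonoidAlgebra k (GroupLike k H)) :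
    grp k x ∈ kS k (Set.univ : Set (GroupLike k H)) := by
  induction x using MonoidAlgebra.induction_linear with
  | zero => rw [map_zero]; exact Submodule.zero_mem _
  | add f g hf hg => rw [map_add]; exact Submodule.add_mem _ hf hg
  | single g a =>
    have h2 : MonoidAlgebra.single g a = a • MonoidAlgebra.of k (GroupLike k H) g := by
      simp
    rw [h2, map_smul, grp_of]
    exact Submodule.smul_mem _ _ (Submodule.subset_span ⟨g, trivial, rfl⟩)

variable (H) in
/-- the dimension of the span of the group-likes is the dimension of the group algebra -/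
theorem pt_GK : GKsub k (kS k (Set.univ : Set (GroupLike k H))) =
    GKdim k (MonoidAlgebra k (GroupLike k H)) := by
  apply le_antisymm
  · refine iSup₂_le fun V hV => ?_
    change asm_L k V ≤ _
    have h1 : (grp k (H := H)).toLinearMap.range = kS k (Set.univ : Set (GroupLike k H)) := by
      apply le_antisymm
      · rintro _ ⟨x, rfl⟩
        exact pt_grp_mem k x
      · rw [kS, Submodule.span_le]
        rintro _ ⟨g, _, rfl⟩
        exact ⟨_, grp_of k g⟩
    set W := V.comap (grp k (H := H)).toLinearMap with hW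
    have h3 : W.map (grp k (H := H)).toLinearMap = V := by
      rw [hW, Submodule.map_comap_eq, h1]
      exact inf_eq_right.2 hV.2
    rw [← h3, asm_L_map]
    refine le_GKdim k ?_ ?_
    · rw [Submodule.one_le, hW, Submodule.mem_comap]
      change grp k (1 : MonoidAlgebra k (GroupLike k H)) ∈ V
      rw [map_one]
      exact Submodule.one_le.1 hV.1.1
    · have h4 := hV.1.2
      rw [← h3] at h4
      exact Submodule.fg_of_fg_map_injective _ (grp_inj k) h4
  · refine iSup₂_le fun V hV => ?_
    change asm_L k V ≤ _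
    rw [← asm_L_map]
    refine le_iSup₂_of_le (V.map (grp k (H := H)).toLinearMap) ⟨⟨?_, hV.2.map _⟩, ?_⟩ le_rfl
    · rw [Submodule.one_le]
      exact ⟨1, Submodule.one_le.1 hV.1, map_one (grp k (H := H))⟩
    · rintro _ ⟨x, _, rfl⟩
      exact pt_grp_mem k x

end hopf

end Pool.Agent.GKP
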