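import Pool.Agent.Lib_helper54.GKP.Defs

/-!
MP_49c8ed_al. Gap theorems: elementary facts, proved. `tsp k F G` is the span of the `x ⊗ y`,
`x ∈ F`, `y ∈ G`.
-/

set_option autoImplicit false

universe u v

namespace Pool.Agent.GKP

open TensorProduct Pool.Agent.GK Pool.Agent.GKC

section bialg
variable (k : Type u) [Field k] {H : Type v} [Ring H] [Bialgebra k H]

theorem tsp_mono {A A' B B' : Submodule k H} (h : A ≤ A') (h' : B ≤ B') :
    tsp k A B ≤ tsp k A' B' := Submodule.map₂_le_map₂ h h'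

theorem tmul_mem_tsp {A B : Submodule k H} {a b : H} (ha : a ∈ A) (hb : b ∈ B) :
    a ⊗ₜ[k] b ∈ tsp k A B := Submodule.apply_mem_map₂ _ ha hb

theorem tsp_le {A B : Submodule k H} {P : Submodule k (H ⊗[k] H)} :
    tsp k A B ≤ P ↔ ∀ a ∈ A, ∀ b ∈ B, a ⊗ₜ[k] b ∈ P := Submodule.map₂_le

/-- a projection onto a subspace -/
theorem exists_proj (D : Submodule k H) : ∃ ρ : H →ₗ[k] H, (∀ x ∈ D, ρ x = x) ∧ ∀ x, ρ x ∈ D := by
  obtain ⟨p, hp⟩ := D.subtype.exists_leftInverse_of_injective D.ker_subtype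
  refine ⟨D.subtype ∘ₗ p, fun x hx => ?_, fun x => by simp⟩
  have := LinearMap.congr_fun hp ⟨x, hx⟩
  simp only [LinearMap.comp_apply, Submodule.subtype_apply, LinearMap.id_apply] at this
  simp [this]

/-- a projection with given range and vanishing on a given complementary subspace -/
theorem exists_proj_disj {A C : Submodule k H} (hd : Disjoint A C) :
    ∃ ρ : H →ₗ[k] H, (∀ x ∈ A, ρ x = x) ∧ (∀ x, ρ x ∈ A) ∧ ∀ x ∈ C, ρ x = 0 := by
  obtain ⟨C', hle, hC'⟩ : ∃ C' : Submodule k H, C ≤ C' ∧ IsCompl A C' :=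
    hd.symm.exists_isCompl.imp fun C' h => ⟨h.1, h.2.symm⟩
  refine ⟨A.subtype ∘ₗ A.projectionOnto C' hC', fun x hx => ?_, fun x => ?_, fun x hx => ?_⟩
  · simp only [LinearMap.comp_apply, Submodule.subtype_apply]
    exact congrArg Subtype.val (Submodule.projectionOnto_apply_left hC' ⟨x, hx⟩)
  · simp
  · simp only [LinearMap.comp_apply, Submodule.subtype_apply]
    rw [Submodule.projectionOnto_apply_eq_zero_iff hC' |>.2 (hle hx)]
    rfl

/-- a projection onto `A` which maps `M` into itself -/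
theorem exists_proj2 (A M : Submodule k H) : ∃ ρ : H →ₗ[k] H, (∀ x ∈ A, ρ x = x) ∧
    (∀ x, ρ x ∈ A) ∧ ∀ x ∈ M, ρ x ∈ M := by
  obtain ⟨C, hC⟩ := Submodule.exists_isCompl (A ⊓ M)
  have hd : Disjoint A (C ⊓ M) := by
    rw [Submodule.disjoint_def]
    rintro x hx ⟨hxC, hxM⟩
    exact (Submodule.disjoint_def.1 hC.disjoint) x ⟨hx, hxM⟩ hxC
  obtain ⟨ρ, h1, h2, h3⟩ := exists_proj_disj k hd
  refine ⟨ρ, h1, h2, fun x hx => ?_⟩
  have h4 : x ∈ (A ⊓ M) ⊔ C := by rw [hC.sup_eq_top]; trivial
  obtain ⟨a, ha, c, hc, rfl⟩ := Submodule.mem_sup.1 h4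
  have hcM : c ∈ M := by
    have := M.sub_mem hx ha.2
    simpa using this
  rw [map_add, h1 a ha.1, h3 c ⟨hc, hcM⟩, add_zero]
  exact ha.2

theorem rid_lTensor_mem {F G : Submodule k H} {f : Module.Dual k H} {t : H ⊗[k] H}
    (ht : t ∈ tsp k F G) : TensorProduct.rid k H (LinearMap.lTensor H f t) ∈ F := by
  have : tsp k F G ≤ F.comap ((TensorProduct.rid k H).toLinearMap ∘ₗ
      LinearMap.lTensor H f) := by
    rw [tsp_le]
    intro a ha b _
    simpa using F.smul_mem _ ha
  exact this ht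

theorem rid_lTensor_zero {F G : Submodule k H} {f : Module.Dual k H} (hf : Van k G f)
    {t : H ⊗[k] H} (ht : t ∈ tsp k F G) :
    TensorProduct.rid k H (LinearMap.lTensor H f t) = 0 := by
  have : tsp k F G ≤ LinearMap.ker ((TensorProduct.rid k H).toLinearMap ∘ₗ
      LinearMap.lTensor H f) := by
    rw [tsp_le]
    intro a ha b hb
    simp [hf b hb]
  exact this ht

theorem mem_tsp_top {F : Submodule k H} {t : H ⊗[k] H} : t ∈ tsp k F ⊤ ↔
    ∀ f : Module.Dual k H, TensorProduct.rid k H (LinearMap.lTensor H f t) ∈ F := by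
  constructor
  · intro ht f
    exact rid_lTensor_mem k ht
  · intro h
    obtain ⟨ρ, hρ, hρm⟩ := exists_proj k F
    have h1 : LinearMap.rTensor H ρ t = t := by
      rw [← sub_eq_zero]
      apply FLAG_sepL k
      intro f
      have e : ∀ s : H ⊗[k] H, TensorProduct.rid k H (LinearMap.lTensor H f
          (LinearMap.rTensor H ρ s)) = ρ (TensorProduct.rid k H (LinearMap.lTensor H f s)) := by
        intro s
        induction s with
        | zero => simp
        | tmul p q => simp
        | add s t hs ht => simp only [map_add, hs, ht]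
      rw [map_sub, map_sub, e, hρ _ (h f), sub_self]
    rw [← h1]
    clear h h1
    induction t with
    | zero => simp
    | tmul p q =>
      rw [LinearMap.rTensor_tmul]
      exact tmul_mem_tsp k (hρm p) trivial
    | add s t hs ht =>
      rw [map_add]
      exact Submodule.add_mem _ hs ht

theorem mem_tsp_topR {F : Submodule k H} {t : H ⊗[k] H} : t ∈ tsp k ⊤ F ↔
    ∀ f : Module.Dual k H, TensorProduct.lid k H (LinearMap.rTensor H f t) ∈ F := by
  constructor
  · intro ht f
    have : tsp k ⊤ F ≤ F.comap ((TensorProduct.lid k H).toLinearMap ∘ₗ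
        LinearMap.rTensor H f) := by
      rw [tsp_le]
      intro a _ b hb
      simpa using F.smul_mem _ hb
    exact this ht
  · intro h
    obtain ⟨ρ, hρ, hρm⟩ := exists_proj k F
    have h1 : LinearMap.lTensor H ρ t = t := by
      rw [← sub_eq_zero]
      apply FLAG_sepR k
      intro f
      have e : ∀ s : H ⊗[k] H, TensorProduct.lid k H (LinearMap.rTensor H f
          (LinearMap.lTensor H ρ s)) = ρ (TensorProduct.lid k H (LinearMap.rTensor H f s)) := by
        intro s
        induction s with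
        | zero => simp
        | tmul p q => simp
        | add s t hs ht => simp only [map_add, hs, ht]
      rw [map_sub, map_sub, e, hρ _ (h f), sub_self]
    rw [← h1]
    clear h h1
    induction t with
    | zero => simp
    | tmul p q =>
      rw [LinearMap.lTensor_tmul]
      exact tmul_mem_tsp k trivial (hρm q)
    | add s t hs ht =>
      rw [map_add]
      exact Submodule.add_mem _ hs ht

/-- `x ∈ F ⊗ H + H ⊗ G` through functionals which vanish on `G` -/
theorem mem_tsp_sup {F G : Submodule k H} {t : H ⊗[k] H} :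
    t ∈ tsp k F ⊤ ⊔ tsp k ⊤ G ↔ ∀ g : Module.Dual k H, Van k G g →
      TensorProduct.rid k H (LinearMap.lTensor H g t) ∈ F := by
  constructor
  · intro ht g hg
    obtain ⟨a, ha, b, hb, rfl⟩ := Submodule.mem_sup.1 ht
    rw [map_add, map_add, rid_lTensor_zero k hg hb, add_zero]
    exact rid_lTensor_mem k ha
  · intro h
    obtain ⟨ρ, hρ, hρm⟩ := exists_proj k G
    have h1 : t = LinearMap.lTensor H (LinearMap.id - ρ) t + LinearMap.lTensor H ρ t := by
      rw [LinearMap.lTensor_sub, LinearMap.lTensor_id, LinearMap.sub_apply, LinearMap.id_apply,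
        sub_add_cancel]
    rw [h1]
    refine Submodule.add_mem_sup ?_ ?_
    · rw [mem_tsp_top]
      intro f
      have h2 : TensorProduct.rid k H (LinearMap.lTensor H f
          (LinearMap.lTensor H (LinearMap.id - ρ) t)) =
          TensorProduct.rid k H (LinearMap.lTensor H (f ∘ₗ (LinearMap.id - ρ)) t) := by
        rw [LinearMap.lTensor_comp, LinearMap.comp_apply]
      rw [h2]
      apply h
      intro x hx
      simp [hρ x hx]
    · clear h h1
      induction t with
      | zero => simp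
      | tmul p q =>
        rw [LinearMap.lTensor_tmul]
        exact tmul_mem_tsp k trivial (hρm q)
      | add s t hs ht =>
        rw [map_add]
        exact Submodule.add_mem _ hs ht

theorem LS_iff {F : Submodule k H} : LS k F ↔
    ∀ x ∈ F, Coalgebra.comul (R := k) x ∈ tsp k F ⊤ :=
  ⟨fun h x hx => (mem_tsp_top k).2 fun f => h f x hx, fun h f x hx => (mem_tsp_top k).1 (h x hx) f⟩

theorem RS_iff {F : Submodule k H} : RS k F ↔
    ∀ x ∈ F, Coalgebra.comul (R := k) x ∈ tsp k ⊤ F :=
  ⟨fun h x hx => (mem_tsp_topR k).2 fun f => h f x hx,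
    fun h f x hx => (mem_tsp_topR k).1 (h x hx) f⟩

theorem CoI_iff {F : Submodule k H} {u : H} :
    CoI k F u ↔ Coalgebra.comul (R := k) u - u ⊗ₜ[k] (1 : H) ∈ tsp k F ⊤ := by
  rw [mem_tsp_top]
  refine forall_congr' fun f => ?_
  rw [map_sub, map_sub, ← FLAG_L_apply]
  simp

theorem sub_iff {D : Submodule k H} : IsSubcoalgebra k D ↔ LS k D ∧ RS k D :=
  FLAG_sub_iff k D

theorem LS_of_sub {D : Submodule k H} (h : IsSubcoalgebra k D) : LS k D := ((sub_iff k).1 h).1

theorem RS_of_sub {D : Submodule k H} (h : IsSubcoalgebra k D) : RS k D := ((sub_iff k).1 h).2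

theorem CoI_mono {F F' : Submodule k H} (h : F ≤ F') {u : H} (hu : CoI k F u) : CoI k F' u :=
  fun f => h (hu f)

theorem Van_mono {F F' : Submodule k H} (h : F ≤ F') {g : Module.Dual k H} (hg : Van k F' g) :
    Van k F g := fun x hx => hg x (h hx)

/-- an element killed by all functionals which vanish on `F` is in `F` -/
theorem mem_of_Van {F : Submodule k H} {x : H}
    (h : ∀ g : Module.Dual k H, Van k F g → g x = 0) : x ∈ F := by
  by_contra hx
  obtain ⟨ξ, hξ1, hξ2⟩ := Submodule.exists_dual_map_eq_bot_of_notMem hx inferInstance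
  apply hξ1
  apply h
  intro y hy
  have : ξ y ∈ F.map ξ := Submodule.mem_map_of_mem hy
  rw [hξ2] at this
  simpa using this

/-- a functional which vanishes on `F`, with value `1` at a given element outside of `F` -/
theorem exists_Van {F : Submodule k H} {x : H} (hx : x ∉ F) :
    ∃ g : Module.Dual k H, Van k F g ∧ g x = 1 := by
  by_contra hcon
  apply hx
  apply mem_of_Van k
  intro g hg
  by_contra hgx
  exact hcon ⟨(g x)⁻¹ • g, fun y hy => by simp [hg y hy], by simp [hgx]⟩

/-- `(F ⊗ H) (A ⊗ H) ⊆ F A ⊗ H` -/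
theorem tsp_mul_tsp {F F' G G' : Submodule k H} {s t : H ⊗[k] H} (hs : s ∈ tsp k F G)
    (ht : t ∈ tsp k F' G') : s * t ∈ tsp k (F * F') (G * G') := by
  have h2 : tsp k F G ≤ (tsp k (F * F') (G * G')).comap (LinearMap.mulRight k t) := by
    rw [tsp_le]
    intro a ha a' ha'
    have h3 : tsp k F' G' ≤ (tsp k (F * F') (G * G')).comap
        (LinearMap.mulLeft k (a ⊗ₜ[k] a')) := by
      rw [tsp_le]
      intro b hb b' hb'
      simp only [Submodule.mem_comap, LinearMap.mulLeft_apply,
        Algebra.TensorProduct.tmul_mul_tmul]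
      exact tmul_mem_tsp k (Submodule.mul_mem_mul ha hb) (Submodule.mul_mem_mul ha' hb')
    exact h3 ht
  exact h2 hs

theorem LS_mul {X Y : Submodule k H} (hX : LS k X) (hY : LS k Y) : LS k (X * Y) := by
  rw [LS_iff] at *
  intro z hz
  refine Submodule.mul_induction_on hz ?_ ?_
  · intro x hx y hy
    rw [Bialgebra.comul_mul]
    exact tsp_mono k le_rfl le_top (tsp_mul_tsp k (hX x hx) (hY y hy))
  · intro a b ha hb
    rw [map_add]
    exact Submodule.add_mem _ ha hb

theorem RS_mul {X Y : Submodule k H} (hX : RS k X) (hY : RS k Y) : RS k (X * Y) := by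
  rw [RS_iff] at *
  intro z hz
  refine Submodule.mul_induction_on hz ?_ ?_
  · intro x hx y hy
    rw [Bialgebra.comul_mul]
    exact tsp_mono k le_top le_rfl (tsp_mul_tsp k (hX x hx) (hY y hy))
  · intro a b ha hb
    rw [map_add]
    exact Submodule.add_mem _ ha hb

theorem LS_sup {X Y : Submodule k H} (hX : LS k X) (hY : LS k Y) : LS k (X ⊔ Y) := by
  intro f z hz
  obtain ⟨x, hx, y, hy, rfl⟩ := Submodule.mem_sup.1 hz
  rw [map_add]
  exact Submodule.add_mem_sup (hX f x hx) (hY f y hy)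

theorem RS_sup {X Y : Submodule k H} (hX : RS k X) (hY : RS k Y) : RS k (X ⊔ Y) := by
  intro f z hz
  obtain ⟨x, hx, y, hy, rfl⟩ := Submodule.mem_sup.1 hz
  rw [map_add]
  exact Submodule.add_mem_sup (hX f x hx) (hY f y hy)

theorem LS_inf {X Y : Submodule k H} (hX : LS k X) (hY : LS k Y) : LS k (X ⊓ Y) :=
  fun f x hx => ⟨hX f x hx.1, hY f x hx.2⟩

theorem RS_inf {X Y : Submodule k H} (hX : RS k X) (hY : RS k Y) : RS k (X ⊓ Y) :=
  fun f x hx => ⟨hX f x hx.1, hY f x hx.2⟩

theorem LS_iSup {ι : Sort*} {X : ι → Submodule k H} (hX : ∀ i, LS k (X i)) :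
    LS k (⨆ i, X i) := by
  intro f
  have : (⨆ i, X i) ≤ (⨆ i, X i).comap (FLAG_L k f) :=
    iSup_le fun i x hx => Submodule.mem_iSup_of_mem i (hX i f x hx)
  exact fun x hx => this hx

theorem RS_iSup {ι : Sort*} {X : ι → Submodule k H} (hX : ∀ i, RS k (X i)) :
    RS k (⨆ i, X i) := by
  intro f
  have : (⨆ i, X i) ≤ (⨆ i, X i).comap (FLAG_R k f) :=
    iSup_le fun i x hx => Submodule.mem_iSup_of_mem i (hX i f x hx)
  exact fun x hx => this hx

theorem LS_bot : LS k (⊥ : Submodule k H) := by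
  intro f x hx
  rw [Submodule.mem_bot] at hx
  rw [hx, map_zero]
  exact Submodule.zero_mem _

/-- the subspace of the `w` in `M` with `Δ(w) ∈ H ⊗ A + F ⊗ H` is a right coideal -/
theorem LS_van {A M F : Submodule k H} (hA : LS k A) (hM : LS k M) :
    LS k (M ⊓ ⨅ g : {g : Module.Dual k H // Van k A g}, F.comap (FLAG_L k g.1)) := by
  rintro f x ⟨hxM, hx⟩
  refine ⟨hM f x hxM, ?_⟩
  simp only [SetLike.mem_coe, Submodule.mem_iInf, Submodule.mem_comap] at hx ⊢
  rintro ⟨g, hg⟩
  rw [FLAG_LL]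
  refine hx ⟨FLAG_conv k g f, fun a ha => ?_⟩
  rw [FLAG_conv_apply]
  have h1 : tsp k A ⊤ ≤ LinearMap.ker (LinearMap.mul' k k ∘ₗ TensorProduct.map g f) := by
    rw [tsp_le]
    intro p hp q _
    simp [hg p hp]
  exact h1 ((LS_iff k).1 hA a ha)

theorem mem_van {A M F : Submodule k H} {w : H} :
    w ∈ M ⊓ ⨅ g : {g : Module.Dual k H // Van k A g}, F.comap (FLAG_L k g.1) ↔
      w ∈ M ∧ ∀ g : Module.Dual k H, Van k A g → FLAG_L k g w ∈ F := by
  rw [Submodule.mem_inf, Submodule.mem_iInf]
  exact and_congr_right fun _ => ⟨fun h g hg => h ⟨g, hg⟩, fun h g => h g.1 g.2⟩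

end bialg

section hopf
variable (k : Type u) [Field k] {H : Type v} [Ring H] [HopfAlgebra k H]

theorem IsHopfSubalgebra.mul_le {A : Submodule k H} (hA : IsHopfSubalgebra k A) : A * A ≤ A :=
  Submodule.mul_le.2 hA.mul_mem

theorem IsHopfSubalgebra.LS {A : Submodule k H} (hA : IsHopfSubalgebra k A) : LS k A :=
  LS_of_sub k hA.sub

theorem IsHopfSubalgebra.le_mul {A : Submodule k H} (hA : IsHopfSubalgebra k A)
    (X : Submodule k H) : X ≤ X * A := by
  intro x hx
  have := Submodule.mul_mem_mul hx hA.one_mem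
  rwa [mul_one] at this

theorem coradical_sub : IsSubcoalgebra k (coradical k H) := by
  rw [sub_iff, coradical, sSup_eq_iSup']
  exact ⟨LS_iSup k fun D => LS_of_sub k D.2.1, RS_iSup k fun D => RS_of_sub k D.2.1⟩

end hopf

end Pool.Agent.GKP
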