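import Pool.Agent.Lib_helper54.GKP.Base
import Pool.Agent.Lib_helper54.GKP.SOC
import Pool.Agent.Lib_helper54.GKP.CI
import Pool.Agent.Lib_helper54.GKP.TOP
import Pool.Agent.Lib_helper54.GKP.GW
import Pool.Agent.Lib_helper54.GKP.CS1

/-!
MP_49c8ed_al. Gap theorems, block D1: the first gap.
-/

set_option autoImplicit false

universe u v

namespace Pool.Agent.GKP

open TensorProduct Pool.Agent.GK Pool.Agent.GKC Filter Topology

section hopf
variable (k : Type u) [Field k] {H : Type v} [Ring H] [HopfAlgebra k H]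

/-- a finite-dimensional subspace of `Y A` is in `Y E` with a finite-dimensional `E ≤ A` -/
private theorem fg_mul {X Y A : Submodule k H} (hX : X.FG) (h : X ≤ Y * A) :
    ∃ E : Submodule k H, E.FG ∧ E ≤ A ∧ X ≤ Y * E := by
  have h1 : ∀ x ∈ Y * A, ∃ E : Submodule k H, E.FG ∧ E ≤ A ∧ x ∈ Y * E := by
    intro x hx
    refine Submodule.mul_induction_on hx ?_ ?_
    · intro y hy a ha
      exact ⟨Submodule.span k {a}, Submodule.fg_span_singleton a,
        (Submodule.span_singleton_le_iff_mem _ _).2 ha,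
        Submodule.mul_mem_mul hy (Submodule.mem_span_singleton_self a)⟩
    · rintro x y ⟨E, hE1, hE2, hE3⟩ ⟨E', hE1', hE2', hE3'⟩
      exact ⟨E ⊔ E', hE1.sup hE1', sup_le hE2 hE2', Submodule.add_mem _
        ((mul_le_mul' le_rfl le_sup_left : Y * E ≤ Y * (E ⊔ E')) hE3)
        ((mul_le_mul' le_rfl le_sup_right : Y * E' ≤ Y * (E ⊔ E')) hE3')⟩
  obtain ⟨s, rfl⟩ := hX
  classical
  induction s using Finset.induction_on with
  | empty => exact ⟨⊥, Submodule.fg_bot, bot_le, by simp⟩
  | insert x s hxs ih =>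
    rw [Finset.coe_insert, Submodule.span_insert, sup_le_iff,
      Submodule.span_singleton_le_iff_mem] at h
    obtain ⟨E, hE1, hE2, hE3⟩ := ih h.2
    obtain ⟨E', hE1', hE2', hE3'⟩ := h1 x h.1
    refine ⟨E' ⊔ E, hE1'.sup hE1, sup_le hE2' hE2, ?_⟩
    rw [Finset.coe_insert, Submodule.span_insert, sup_le_iff,
      Submodule.span_singleton_le_iff_mem]
    exact ⟨(mul_le_mul' le_rfl le_sup_left : Y * E' ≤ Y * (E' ⊔ E)) hE3',
      hE3.trans (mul_le_mul' le_rfl le_sup_right)⟩

private theorem finrank_mul_le {X Y : Submodule k H} (hX : X.FG) (hY : Y.FG) :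
    Module.finrank k ↥(X * Y) ≤ Module.finrank k X * Module.finrank k Y := by
  have := Module.Finite.iff_fg.2 hX
  have := Module.Finite.iff_fg.2 hY
  rw [← Module.finrank_tensorProduct, ← Submodule.mulMap_range]
  exact LinearMap.finrank_range_le _

theorem d1_up {A C : Submodule k H} (hA : IsHopfSubalgebra k A) (hC : C.FG)
    (h1 : (1 : H) ∈ C) {n : ℕ} (h : C ^ (n + 1) ≤ C ^ n * A) : asm_L k C ≤ GKsub k A := by
  obtain ⟨E₀, hE1, hE2, hE3⟩ := fg_mul k (hC.pow (n + 1)) h
  set E : Submodule k H := E₀ ⊔ 1 with hE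
  have hEfg : E.FG := hE1.sup (by rw [Submodule.one_eq_span]; exact Submodule.fg_span_singleton _)
  have hE1' : (1 : H) ∈ E := Submodule.mem_sup_right (Submodule.one_le.1 le_rfl)
  have hEA : E ≤ A := sup_le hE2 (Submodule.one_le.2 hA.one_mem)
  have hstep : C * C ^ n ≤ C ^ n * E := by
    rw [← pow_succ']
    exact hE3.trans (mul_le_mul' le_rfl le_sup_left)
  have hpow : ∀ m : ℕ, C ^ m * C ^ n ≤ C ^ n * E ^ m := by
    intro m
    induction m with
    | zero => simp
    | succ m ih =>
      calc C ^ (m + 1) * C ^ n = C * (C ^ m * C ^ n) := by rw [pow_succ', mul_assoc]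
        _ ≤ C * (C ^ n * E ^ m) := mul_le_mul' le_rfl ih
        _ = C * C ^ n * E ^ m := by rw [mul_assoc]
        _ ≤ C ^ n * E * E ^ m := mul_le_mul' hstep le_rfl
        _ = C ^ n * E ^ (m + 1) := by rw [mul_assoc, ← pow_succ']
  have h1C : (1 : Submodule k H) ≤ C := Submodule.one_le.2 h1
  have hle : ∀ m : ℕ, Module.finrank k ↥(C ^ m) ≤
      Module.finrank k ↥(C ^ n) * (m + 1) ^ 0 * Module.finrank k ↥(E ^ m) := by
    intro m
    have h2 : C ^ m ≤ C ^ n * E ^ m := by
      refine le_trans ?_ (hpow m)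
      calc C ^ m = C ^ m * 1 := (mul_one _).symm
        _ ≤ C ^ m * C ^ n := mul_le_mul' le_rfl (one_le_pow_of_one_le' h1C n)
    have := Module.Finite.iff_fg.2 ((hC.pow n).mul (hEfg.pow m))
    rw [pow_zero, mul_one]
    exact (Submodule.finrank_mono h2).trans (finrank_mul_le k (hC.pow n) (hEfg.pow m))
  have := gw_upper k hC h1 hEfg hE1' hEA (Module.finrank k ↥(C ^ n)) 0 hle
  simpa using this

theorem d1_low {A C : Submodule k H} (hA : IsHopfSubalgebra k A) (hcor : coradical k H ≤ A)
    (hC : C.FG) (hCs : IsSubcoalgebra k C) (h1 : (1 : H) ∈ C)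
    (h : ∀ n : ℕ, ¬ C ^ (n + 1) ≤ C ^ n * A) : GKsub k A + 1 ≤ GKdim k H := by
  have hCp : ∀ n, IsSubcoalgebra k (C ^ n) := fun n => sub_pow hCs n
  set F : ℕ → Submodule k H := fun n => C ^ n * A with hF
  have hFL : ∀ n, LS k (F n) := fun n => LS_mul k (LS_of_sub k (hCp n)) (hA.LS k)
  have hFA : ∀ n, F n * A ≤ F n := fun n => by
    rw [hF]
    simp only
    rw [mul_assoc]
    exact mul_le_mul' le_rfl (hA.mul_le k)
  have h1C : (1 : Submodule k H) ≤ C := Submodule.one_le.2 h1
  have hCm : Monotone fun n : ℕ => C ^ n := fun a b hab => pow_le_pow_right' h1C hab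
  have hFm : Monotone F := fun a b hab => mul_le_mul' (hCm hab) le_rfl
  set S := HopfAlgebra.antipode k (A := H) with hS
  have hex : ∀ n, ∃ u ∈ C ^ (n + 1) * (C ^ (n + 1) ⊓ A).map S, u ∉ F n ∧ CoI k (F n) u := by
    intro n
    set X := C ^ (n + 1) ⊓ ⨅ g : {g : Module.Dual k H // Van k A g},
      (F n).comap (FLAG_L k g.1) with hX
    have hXM : X ≤ C ^ (n + 1) := inf_le_left
    obtain ⟨w, hw, hwF, hwA⟩ := soc_L k (A := A) (hC.pow (n + 1)) (hCp (n + 1))
      (fun D hD _ => (le_sSup hD : D ≤ coradical k H).trans hcor)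
      (LS_of_sub k (hCp (n + 1))) le_rfl (hFL n) (fun hle => h n hle)
    obtain ⟨u, hu, huF, huC⟩ := coinv k hA (hFL n) (hFA n) (hFA n) le_rfl
      (LS_van k (hA.LS k) (LS_of_sub k (hCp (n + 1)))) (hCp (n + 1)) hXM
      (fun w hw g hg => ((mem_van k).1 hw).2 g hg)
      (fun hle => hwF (hle ((mem_van k).2 ⟨hw, hwA⟩)))
    exact ⟨u, mul_le_mul' hXM le_rfl hu, huF, huC⟩
  choose u hu huF huC using hex
  have huF' : ∀ n, u n ∈ F (n + 1) := by
    intro n
    have h2 : (C ^ (n + 1) ⊓ A).map S ≤ A := by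
      rw [Submodule.map_le_iff_le_comap]
      exact fun x hx => hA.antipode_mem x hx.2
    exact (mul_le_mul' le_rfl h2 : C ^ (n + 1) * (C ^ (n + 1) ⊓ A).map S ≤ F (n + 1)) (hu n)
  set V : Submodule k H := C ⊔ C.map S with hV
  have hVfg : V.FG := hC.sup (hC.map _)
  have h1V : (1 : H) ∈ V := Submodule.mem_sup_left h1
  have h1V' : (1 : Submodule k H) ≤ V := Submodule.one_le.2 h1V
  have hSpow : ∀ n, (C ^ n).map S ≤ V ^ n := by
    intro n
    induction n with
    | zero =>
      rw [pow_zero, pow_zero, Submodule.map_le_iff_le_comap, Submodule.one_eq_span,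
        Submodule.span_singleton_le_iff_mem, Submodule.mem_comap, hS, HopfAlgebra.antipode_one]
      exact Submodule.mem_span_singleton_self _
    | succ n ih =>
      rw [Submodule.map_le_iff_le_comap, pow_succ, Submodule.mul_le]
      intro a ha b hb
      rw [Submodule.mem_comap, hS, HopfAlgebra.antipode_mul_antidistrib, pow_succ']
      exact Submodule.mul_mem_mul (Submodule.mem_sup_right (Submodule.mem_map_of_mem hb))
        (ih (Submodule.mem_map_of_mem ha))
  have huV : ∀ n m, n < m → u n ∈ V ^ (2 * (m + 1)) := by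
    intro n m hnm
    have h2 : C ^ (n + 1) * (C ^ (n + 1) ⊓ A).map S ≤ V ^ (2 * (m + 1)) := by
      calc C ^ (n + 1) * (C ^ (n + 1) ⊓ A).map S
          ≤ V ^ (n + 1) * V ^ (n + 1) := mul_le_mul' (pow_le_pow_left' le_sup_left _)
            ((Submodule.map_mono inf_le_left).trans (hSpow _))
        _ = V ^ (2 * (n + 1)) := by rw [← pow_add]; congr 1; ring
        _ ≤ V ^ (2 * (m + 1)) := pow_le_pow_right' h1V' (by omega)
    exact h2 (hu n)
  have key : ∀ (B : Submodule k H), B ≤ A → ∀ (n : ℕ) (b : ℕ → H), (∀ i, b i ∈ A) →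
      ∑ i ∈ Finset.range n, u i * b i = 0 → ∀ i < n, b i = 0 := by
    intro B hB n
    induction n with
    | zero => intro b _ _ i hi; omega
    | succ n ih =>
      intro b hb h0 i hi
      rw [Finset.sum_range_succ] at h0
      have h3 : ∑ i ∈ Finset.range n, u i * b i ∈ F n := by
        refine Submodule.sum_mem _ fun j hj => ?_
        rw [Finset.mem_range] at hj
        exact hFA n (Submodule.mul_mem_mul (hFm (by omega : j + 1 ≤ n) (huF' j)) (hb j))
      have h4 : u n * b n ∈ F n := by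
        rw [← neg_eq_iff_add_eq_zero.2 h0]
        exact (F n).neg_mem h3
      obtain ⟨φ, hφ1, hφ2⟩ := top_exists k hA (hFL n) (hFA n) (huF n) (huC n)
      have h5 : b n = 0 := by rw [← hφ2 _ (hb n), hφ1 _ h4]
      rw [h5, mul_zero, add_zero] at h0
      rcases Nat.lt_succ_iff_lt_or_eq.1 hi with h6 | rfl
      · exact ih b hb h0 i h6
      · exact h5
  refine gw_lower k hA.one_mem (hA.mul_le k) hVfg h1V 2 1 (fun n B hB _ hBA => ?_) |>.trans_eq' ?_
  · rw [pow_one]
    have hfB := Module.Finite.iff_fg.2 hB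
    have hfin := Module.Finite.iff_fg.2 ((hVfg.pow (2 * (n + 1))).mul hB)
    let φ : (Fin n → B) →ₗ[k] ↥(V ^ (2 * (n + 1)) * B) := LinearMap.codRestrict _
      (∑ i : Fin n, LinearMap.mulLeft k (u i) ∘ₗ B.subtype ∘ₗ LinearMap.proj i) (fun b => by
        rw [LinearMap.sum_apply]
        refine Submodule.sum_mem _ fun i _ => ?_
        exact Submodule.mul_mem_mul (huV i n i.2) (b i).2)
    have hφ : Function.Injective φ := by
      rw [← LinearMap.ker_eq_bot, LinearMap.ker_eq_bot']
      intro b hb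
      have h7 := congrArg Subtype.val hb
      simp only [φ, LinearMap.codRestrict_apply, LinearMap.sum_apply, LinearMap.comp_apply,
        LinearMap.mulLeft_apply, Submodule.subtype_apply, LinearMap.proj_apply,
        ZeroMemClass.coe_zero] at h7
      funext i
      apply Subtype.ext
      have h8 := key B hBA n (fun j => if hj : j < n then ((b ⟨j, hj⟩ : B) : H) else 0)
        (fun j => by
          by_cases hj : j < n
          · simp only [hj, dif_pos]
            exact hBA (b _).2
          · simp [hj]) (by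
          rw [Finset.sum_range, ← h7]
          refine Finset.sum_congr rfl fun j _ => ?_
          simp [j.2]) i i.2
      simpa using h8
    have := LinearMap.finrank_le_finrank_of_injective hφ
    rwa [Module.finrank_pi_fintype, Finset.sum_const, Finset.card_univ, Fintype.card_fin,
      smul_eq_mul] at this
  · simp

theorem d1_main {A : Submodule k H} (hA : IsHopfSubalgebra k A) (hcor : coradical k H ≤ A) :
    GKdim k H = GKsub k A ∨ GKsub k A + 1 ≤ GKdim k H := by
  by_cases h : ∃ C : Submodule k H, C.FG ∧ IsSubcoalgebra k C ∧ (1 : H) ∈ C ∧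
      ∀ n : ℕ, ¬ C ^ (n + 1) ≤ C ^ n * A
  · obtain ⟨C, hC, hCs, h1, hn⟩ := h
    exact Or.inr (d1_low k hA hcor hC hCs h1 hn)
  · left
    push Not at h
    apply le_antisymm
    · refine iSup₂_le fun V hV => ?_
      change asm_L k V ≤ _
      obtain ⟨C, hVC, h1, hC, hCs⟩ := cs_fund k hV.2
      obtain ⟨n, hn⟩ := h C hC hCs h1
      exact (asm_L_mono k hVC hC).trans (d1_up k hA hC h1 hn)
    · refine iSup₂_le fun V hV => ?_
      exact le_GKdim k hV.1.1 hV.1.2

end hopf

end Pool.Agent.GKP
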