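import Pool.Agent.Lib_helper54.GKP.Base
import Pool.Agent.Lib_helper54.GKP.FL
import Pool.Agent.Lib_helper54.GKP.CX2

/-! Block L1, written by helper61. -/

/-!
MP_49c8ed_al, gap theorems: block L1 (letters).
-/

set_option autoImplicit false

universe u v

namespace Pool.Agent.GKP

open TensorProduct Pool.Agent.GK Pool.Agent.GKC Filter Topology Pool.Agent.GKP

section hopf
variable (k : Type u) [Field k] {H : Type v} [Ring H] [HopfAlgebra k H]

theorem l1_letters (hA : IsHopfSubalgebra k (coradical k H)) {C : Submodule k H}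
    (hC : Good k C) : ∃ (m : ℕ) (x : Fin m → H), Letters k (Kc k (C ⊓ coradical k H)) C x := by
  have hctx := ctx_of_pre k hA hC.toPre
  set E : Submodule k H := C ⊓ coradical k H with hE
  set K : Submodule k H := Kc k E with hK
  have h1 : (1 : H) ∈ E := ⟨hC.one, hA.one_mem⟩
  obtain ⟨h1K, hEK, hKK, -, -, -⟩ := kc_facts k h1
  obtain ⟨r, e, hfam, hmem, hcov⟩ := flag_exists k (K := K) (N := K) (M := C) hctx.hK
    (LS_of_sub k hctx.hK.sub) hKK hC.fg hC.sub
    (fun D hD hDC => (le_inf hDC (le_sSup hD)).trans hEK)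
  have hS : (C ⊓ K).map (HopfAlgebra.antipode k) ≤ E := by
    rw [Submodule.map_le_iff_le_comap]
    intro x hx
    exact hC.ant x ⟨hx.1, hctx.KA hx.2⟩
  refine ⟨r, e, ?_, hfam, hcov, ?_⟩
  · intro i
    exact mul_le_mul' le_rfl (hS.trans inf_le_left) (hmem i)
  · have h2 : Submodule.span k (Set.range e) ≤ C * E := by
      rw [Submodule.span_le]
      rintro _ ⟨i, rfl⟩
      exact mul_le_mul' le_rfl hS (hmem i)
    calc K * Submodule.span k (Set.range e) ≤ K * (C * E) := mul_le_mul' le_rfl h2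
      _ = K * C * E := (mul_assoc _ _ _).symm
      _ ≤ C * K * E := mul_le_mul' hC.stb le_rfl
      _ ≤ C * K * K := mul_le_mul' le_rfl hEK
      _ = C * (K * K) := mul_assoc _ _ _
      _ ≤ C * K := mul_le_mul' le_rfl hKK
      _ ≤ (K ⊔ Submodule.span k (Set.range e) * K) * K := mul_le_mul' hcov le_rfl
      _ = K * K ⊔ Submodule.span k (Set.range e) * (K * K) := by
        rw [Submodule.sup_mul, mul_assoc]
      _ ≤ K ⊔ Submodule.span k (Set.range e) * K :=
        sup_le_sup hKK (mul_le_mul' le_rfl hKK)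

end hopf

end Pool.Agent.GKP
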