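import Pool.Agent.Lib_helper54.GKP.Base
import Pool.Agent.Lib_helper51.PH.WE

/-! Block L2A, written by helper51. -/

/-!
MP_49c8ed_al, gap theorems: block L2A (words; Hopf part).
-/

set_option autoImplicit false

universe u v

namespace Pool.Agent.GKP

open TensorProduct Pool.Agent.GK Pool.Agent.GKC Filter Topology

section hopf
variable (k : Type u) [Field k] {H : Type v} [Ring H] [HopfAlgebra k H]

theorem lw_mem {K C : Submodule k H} {m : ℕ} {x : Fin m → H} (hx : Letters k K C x)
    (w : List (Fin m)) : wd x w ∈ C ^ (2 * w.length) :=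
  Pool.Agent.WK.we_mem k (e := 2) (fun i => by rw [pow_two]; exact hx.mem i) w

theorem lw_coi {K C : Submodule k H} (hK : IsHopfSubalgebra k K) {m : ℕ} {x : Fin m → H}
    (hx : Letters k K C x) (w : List (Fin m)) : CoI k (Nw k K x w) (wd x w) :=
  fun f => Pool.Agent.WK.we_eig k hK.one_mem (hK.mul_le k) hx.stb (fun i => hx.fam.coi i) w f

end hopf

end Pool.Agent.GKP
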