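import Pool.Agent.Lib_helper54.GKP.Base
import Pool.Agent.Lib_helper62.PH.WK

/-! Block L2B, written by helper62. -/

/-!
MP_49c8ed_al, gap theorems relative to the coradical: block L2B (words).
-/

set_option autoImplicit false

universe u v

namespace Pool.Agent.GKP

open TensorProduct Pool.Agent.GK Pool.Agent.GKC Filter Topology

section hopf
variable (k : Type u) [Field k] {H : Type v} [Ring H] [HopfAlgebra k H]

theorem lw_fac {K C : Submodule k H} (hK : IsHopfSubalgebra k K) {m : ℕ} {x : Fin m → H}
    (hx : Letters k K C x) (u v w : List (Fin m)) (h : u ++ v ++ w ∈ Irr k K x) :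
    v ∈ Irr k K x :=
  WK.wk_fac k hx.stb u v w h

theorem lw_cov {K C : Submodule k H} (hK : IsHopfSubalgebra k K) {m : ℕ} {x : Fin m → H}
    (hx : Letters k K C x) (n : ℕ) :
    C ^ n ≤ Submodule.span k (wd x '' {w | w ∈ Irr k K x ∧ w.length ≤ n}) * K :=
  WK.wk_cov k hK.one_mem (hK.mul_le k) hx.stb hx.cov n

/-- smaller words may be taken irreducible -/
theorem lw_irr {K : Submodule k H} (hK : IsHopfSubalgebra k K) {m : ℕ} (x : Fin m → H)
    (w : List (Fin m)) :
    Nw k K x w = Submodule.span k (wd x '' {v | v ∈ Irr k K x ∧ List.Shortlex (· < ·) v w}) *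
      K :=
  WK.wk_irr k hK.one_mem (hK.mul_le k) x w

end hopf

end Pool.Agent.GKP
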