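import Pool.Agent.Lib_helper54.GKP.Base
import Pool.Agent.Lib_helper54.GKP.L1
import Pool.Agent.Lib_helper54.GKP.L2A
import Pool.Agent.Lib_helper54.GKP.L2B
import Pool.Agent.Lib_helper54.GKP.FM2
import Pool.Agent.Lib_helper54.GKP.FM3
import Pool.Agent.Lib_helper54.GKP.ND
import Pool.Agent.Lib_helper54.GKP.CX2

/-! Block L3, written by helper68. -/

/-!
MP_49c8ed_al, gap theorems, block L3: counting with the irreducible words.
-/

set_option autoImplicit false

universe u v

namespace Pool.Agent.GKP

open TensorProduct Pool.Agent.GK Pool.Agent.GKC Filter Topology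

section hopf
variable (k : Type u) [Field k] {H : Type v} [Ring H] [HopfAlgebra k H]

private theorem l3_pow_mono {C : Submodule k H} (h1 : (1 : H) ∈ C) {a b : ℕ} (h : a ≤ b) :
    C ^ a ≤ C ^ b := by
  obtain ⟨c, rfl⟩ := Nat.exists_eq_add_of_le h
  induction c with
  | zero => exact le_rfl
  | succ c ih =>
    refine (ih (by omega)).trans ?_
    rw [← add_assoc, pow_succ]
    intro y hy
    have := Submodule.mul_mem_mul hy h1
    rwa [mul_one] at this

private theorem l3_trans {m : ℕ} {u v w : List (Fin m)} (h1 : List.Shortlex (· < ·) u v)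
    (h2 : List.Shortlex (· < ·) v w) : List.Shortlex (· < ·) u w := by
  rw [List.shortlex_def] at *
  rcases h1 with h1 | ⟨h1, h1'⟩
  · rcases h2 with h2 | ⟨h2, h2'⟩
    · exact Or.inl (by omega)
    · exact Or.inl (by omega)
  · rcases h2 with h2 | ⟨h2, h2'⟩
    · exact Or.inl (by omega)
    · exact Or.inr ⟨by omega, List.lex_trans (fun h h' => lt_trans h h') h1' h2'⟩

private theorem l3_length {m : ℕ} {v w : List (Fin m)} (h : List.Shortlex (· < ·) v w) :
    v.length ≤ w.length := by
  rw [List.shortlex_def] at h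
  rcases h with h | h
  · exact h.le
  · exact h.1.le

private theorem l3_irrefl {m : ℕ} (w : List (Fin m)) : ¬ List.Shortlex (· < ·) w w := by
  intro h
  exact (Std.Asymm.asymm (r := List.Shortlex (α := Fin m) (· < ·)) w w h) h

theorem l3_main (hA : IsHopfSubalgebra k (coradical k H)) {C : Submodule k H}
    (hC : Good k C) : ∃ (m : ℕ) (L : Set (List (Fin m))), [] ∈ L ∧
      (∀ u v w : List (Fin m), u ++ v ++ w ∈ L → v ∈ L) ∧
      ∀ n : ℕ, Module.finrank k ↥(C ^ n) ≤
          Nat.card {w : List (Fin m) // w ∈ L ∧ w.length ≤ n} *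
            Module.finrank k ↥((C ⊓ coradical k H) ^ n) ∧
        ∀ B : Submodule k H, B.FG → B ≤ coradical k H →
          Nat.card {w : List (Fin m) // w ∈ L ∧ w.length ≤ n} * Module.finrank k B ≤
            Module.finrank k ↥(C ^ (2 * n) * B) := by
  have hc := ctx_of_pre k hA hC.toPre
  obtain ⟨m, x, hx⟩ := l1_letters k hA hC
  set K : Submodule k H := Kc k (C ⊓ coradical k H) with hKdef
  have hK : IsHopfSubalgebra k K := hc.hK
  have hpf : ∀ n : ℕ, (C ^ n).FG := fun n => hC.fg.pow n
  have hKc := kc_facts k hC.one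
  have hwC : ∀ (n : ℕ) (w : List (Fin m)), w.length ≤ n → wd x w ∈ C ^ (2 * n) := fun n w hw =>
    l3_pow_mono k hC.one (Nat.mul_le_mul_left 2 hw) (lw_mem k hx w)
  refine ⟨m, Irr k K x, ?_, fun u v w h => lw_fac k hK hx u v w h, ?_⟩
  · intro h
    have h1 : Nw k K x [] = ⊥ := by
      have h2 : {v : List (Fin m) | List.Shortlex (· < ·) v []} = ∅ := by
        ext v; simp
      unfold Nw
      rw [h2, Set.image_empty, Submodule.span_empty, Submodule.bot_mul]
    rw [h1, Submodule.mem_bot] at h
    have h3 : (1 : H) = 0 := h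
    have h4 := congrArg (Coalgebra.counit (R := k) (A := H)) h3
    rw [Bialgebra.counit_one, map_zero] at h4
    exact one_ne_zero h4
  · intro n
    have hfin : Finite {w : List (Fin m) // w ∈ Irr k K x ∧ w.length ≤ n} := by
      refine Set.Finite.subset (List.finite_length_le (Fin m) n) ?_
      intro w hw
      exact hw.2
    let _ : Fintype {w : List (Fin m) // w ∈ Irr k K x ∧ w.length ≤ n} := Fintype.ofFinite _
    have hsto : IsStrictTotalOrder {w : List (Fin m) // w ∈ Irr k K x ∧ w.length ≤ n}
        (fun a b => List.Shortlex (· < ·) a.1 b.1) :=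
      { irrefl := fun a => l3_irrefl a.1
        trans := fun a b c h h' => l3_trans h h'
        trichotomous := fun a b h h' => Subtype.ext
          (Std.Trichotomous.trichotomous (r := List.Shortlex (α := Fin m) (· < ·)) a.1 b.1 h h') }
    let _ : LinearOrder {w : List (Fin m) // w ∈ Irr k K x ∧ w.length ≤ n} := by
      classical
      exact linearOrderOfSTO (fun a b => List.Shortlex (· < ·) a.1 b.1)
    have hF : Fam k K (⊥ : Submodule k H)
        (fun i : {w : List (Fin m) // w ∈ Irr k K x ∧ w.length ≤ n} => wd x i.1) := by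
      refine ⟨LS_bot k, ?_, ?_, ?_⟩
      · rw [Submodule.bot_mul]
      · intro i f
        have h1 := lw_coi k hK hx i.1 f
        rw [lw_irr k hK] at h1
        refine Submodule.mem_sup_right (mul_le_mul' (Submodule.span_mono ?_) (le_refl _) h1)
        rintro _ ⟨v, ⟨hv1, hv2⟩, rfl⟩
        exact ⟨⟨v, hv1, (l3_length hv2).trans i.2.2⟩, hv2, rfl⟩
      · intro i hi
        have hi2 : wd x i.1 ∈ Submodule.span k ((fun i : {w : List (Fin m) //
            w ∈ Irr k K x ∧ w.length ≤ n} => wd x i.1) '' {l | List.Shortlex (· < ·) l.1 i.1}) *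
            K := by
          have h2 := hi
          unfold Nl at h2
          rw [bot_sup_eq] at h2
          exact h2
        have hspan : Submodule.span k ((fun i : {w : List (Fin m) //
            w ∈ Irr k K x ∧ w.length ≤ n} => wd x i.1) '' {l | List.Shortlex (· < ·) l.1 i.1}) ≤
            Submodule.span k (wd x '' {v | List.Shortlex (· < ·) v i.1}) := by
          refine Submodule.span_mono ?_
          rintro _ ⟨l, hl, rfl⟩
          exact ⟨l.1, hl, rfl⟩
        exact i.2.1 ((mul_le_mul' hspan (le_refl K)) hi2)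
    obtain ⟨hFA, _⟩ := fam_co k hc hF (fun i => hKc.2.2.2.1 _ (hwC n i.1 i.2.2)) bot_le (by
      rw [Submodule.bot_mul]; exact inf_le_right)
    rw [Submodule.bot_mul] at hFA
    rw [Nat.card_eq_fintype_card]
    constructor
    · have h1 : C ^ n ≤ Submodule.span k (Set.range
          (fun i : {w : List (Fin m) // w ∈ Irr k K x ∧ w.length ≤ n} => wd x i.1)) *
            coradical k H := by
        refine (lw_cov k hK hx n).trans (mul_le_mul' (Submodule.span_mono ?_) hc.KA)
        rintro _ ⟨w, hw, rfl⟩
        exact ⟨⟨w, hw⟩, rfl⟩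
      have h2 := fam_upper k hA hFA (hpf n) (sub_pow hC.sub n) h1
      refine h2.trans (Nat.mul_le_mul_left _ ?_)
      have h3 : (C ⊓ coradical k H).FG := Submodule.FG.of_le hC.fg inf_le_left
      have : Module.Finite k ↥((C ⊓ coradical k H) ^ n) := Module.Finite.iff_fg.2 (h3.pow n)
      exact Submodule.finrank_mono (nd_pow k hC.fg hC.sub n)
    · intro B hB hBA
      exact fam_lower k hA hFA (hpf (2 * n)) (fun i => hwC n i.1 i.2.2) hB hBA

end hopf

end Pool.Agent.GKP
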