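import Pool.Agent.Lib_helper54.GKP.Base
import Pool.Agent.Lib_helper54.GKP.SOC

/-! Block S2, written by helper43. -/

/-!
MP_49c8ed_al, block S2: two sides at once.
-/

set_option autoImplicit false

universe u v

namespace Pool.Agent.GKP

open TensorProduct Pool.Agent.GK Pool.Agent.GKC Filter Topology

section bialg
variable (k : Type u) [Field k] {H : Type v} [Ring H] [Bialgebra k H]

theorem pp_mem {E B C : Submodule k H} {w : H} : w ∈ PP k E B C ↔ w ∈ C ∧
    ∀ g : Module.Dual k H, Van k E g → FLAG_L k g w ∈ B ∧ FLAG_R k g w ∈ B := by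
  rw [PP, Submodule.mem_inf, Submodule.mem_iInf]
  exact and_congr_right fun _ => ⟨fun h g hg => h ⟨g, hg⟩, fun h g => h g.1 g.2⟩

private theorem conv_van_left {E : Submodule k H} (hE : LS k E) {g : Module.Dual k H}
    (hg : Van k E g) (f : Module.Dual k H) : Van k E (FLAG_conv k g f) := by
  intro a ha
  rw [FLAG_conv_apply]
  have h1 : tsp k E ⊤ ≤ LinearMap.ker (LinearMap.mul' k k ∘ₗ TensorProduct.map g f) := by
    rw [tsp_le]
    intro p hp q _
    simp [hg p hp]
  exact h1 ((LS_iff k).1 hE a ha)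

private theorem conv_van_right {E : Submodule k H} (hE : RS k E) {g : Module.Dual k H}
    (hg : Van k E g) (f : Module.Dual k H) : Van k E (FLAG_conv k f g) := by
  intro a ha
  rw [FLAG_conv_apply]
  have h1 : tsp k ⊤ E ≤ LinearMap.ker (LinearMap.mul' k k ∘ₗ TensorProduct.map f g) := by
    rw [tsp_le]
    intro p _ q hq
    simp [hg q hq]
  exact h1 ((RS_iff k).1 hE a ha)

theorem pp_sub {E B C : Submodule k H} (hE : IsSubcoalgebra k E) (hB : IsSubcoalgebra k B)
    (hC : IsSubcoalgebra k C) : IsSubcoalgebra k (PP k E B C) := by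
  rw [sub_iff]
  constructor
  · intro f x hx
    rw [pp_mem] at hx ⊢
    refine ⟨LS_of_sub k hC f x hx.1, fun g hg => ⟨?_, ?_⟩⟩
    · rw [FLAG_LL]
      exact (hx.2 _ (conv_van_left k (LS_of_sub k hE) hg f)).1
    · rw [← FLAG_LR]
      exact LS_of_sub k hB f _ (hx.2 g hg).2
  · intro f x hx
    rw [pp_mem] at hx ⊢
    refine ⟨RS_of_sub k hC f x hx.1, fun g hg => ⟨?_, ?_⟩⟩
    · rw [FLAG_LR]
      exact RS_of_sub k hB f _ (hx.2 g hg).1
    · rw [FLAG_RR]
      exact (hx.2 _ (conv_van_right k (RS_of_sub k hE) hg f)).2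

theorem pp_ne {E B C : Submodule k H} (hE : IsSubcoalgebra k E) (hB : IsSubcoalgebra k B)
    (hC : IsSubcoalgebra k C) (hCf : C.FG)
    (hA : ∀ D : Submodule k H, IsSimpleSubcoalgebra k D → D ≤ C → D ≤ E) (hne : ¬ C ≤ B) :
    ¬ PP k E B C ≤ B := by
  obtain ⟨w, hwC, hwB, hw⟩ := soc_L k hCf hC hA (LS_of_sub k hC) le_rfl (LS_of_sub k hB) hne
  set X : Submodule k H :=
    C ⊓ ⨅ g : {g : Module.Dual k H // Van k E g}, B.comap (FLAG_L k g.1) with hX
  have hXRS : RS k X := by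
    intro f x hx
    rw [hX, mem_van] at hx ⊢
    refine ⟨RS_of_sub k hC f x hx.1, fun g hg => ?_⟩
    rw [FLAG_LR]
    exact RS_of_sub k hB f _ (hx.2 g hg)
  have hXne : ¬ X ≤ B := fun h => hwB (h ((mem_van k).2 ⟨hwC, hw⟩))
  obtain ⟨v, hvX, hvB, hv⟩ := soc_R k hCf hC hA hXRS inf_le_left
    (by first | exact LS_of_sub k hB | exact RS_of_sub k hB) hXne
  intro hle
  rw [hX, mem_van] at hvX
  exact hvB (hle ((pp_mem k).2 ⟨hvX.1, fun g hg => ⟨hvX.2 g hg, hv g hg⟩⟩))

end bialg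

end Pool.Agent.GKP
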