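import Pool.Agent.Lib_helper54.GKP.Base
import Pool.Agent.Lib_helper54.GKP.TOP

/-! Block TF, written by helper62. -/

/-!
MP_49c8ed_al, gap theorems relative to the coradical: block TF (two factors).
-/

set_option autoImplicit false

universe u v

namespace Pool.Agent.GKP

open TensorProduct Pool.Agent.GK Pool.Agent.GKC Filter Topology

section hopf
variable (k : Type u) [Field k] {H : Type v} [Ring H] [HopfAlgebra k H]

/-- `(F ⊗ H) ∩ (H ⊗ G) = F ⊗ G` -/
private theorem tf_inf {F G : Submodule k H} {t : H ⊗[k] H} (h1 : t ∈ tsp k F ⊤)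
    (h2 : t ∈ tsp k ⊤ G) : t ∈ tsp k F G := by
  obtain ⟨ρ, hρ, hρm⟩ := exists_proj k F
  have h3 : LinearMap.rTensor H ρ t = t := by
    have : tsp k F ⊤ ≤ LinearMap.ker (LinearMap.rTensor H ρ - LinearMap.id) := by
      rw [tsp_le]
      intro a ha b _
      simp [hρ a ha]
    have h4 := this h1
    rw [LinearMap.mem_ker, LinearMap.sub_apply, LinearMap.id_apply, sub_eq_zero] at h4
    exact h4
  rw [← h3]
  have : tsp k ⊤ G ≤ (tsp k F G).comap (LinearMap.rTensor H ρ) := by
    rw [tsp_le]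
    intro a _ b hb
    rw [Submodule.mem_comap, LinearMap.rTensor_tmul]
    exact tmul_mem_tsp k (hρm a) hb
  exact this h2

private theorem tf_left (g : Module.Dual k H) (y : H) (t : H ⊗[k] H) :
    TensorProduct.rid k H (LinearMap.lTensor H g ((y ⊗ₜ[k] (1 : H)) * t)) =
      y * TensorProduct.rid k H (LinearMap.lTensor H g t) := by
  induction t with
  | zero => simp
  | tmul p q => simp
  | add s t hs ht => simp only [mul_add, map_add, hs, ht]

/-- the top coefficient of an element of `F` vanishes -/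
private theorem tf_top {A F : Submodule k H} (hA : IsHopfSubalgebra k A) (hF : LS k F)
    (hFA : F * A ≤ F) {u : H} (hu : u ∉ F) (hco : CoI k F u) {a : H} (ha : a ∈ A)
    (h : u * a ∈ F) : a = 0 := by
  obtain ⟨φ, h1, h2⟩ := top_exists k hA hF hFA hu hco
  rw [← h2 a ha, h1 _ h]

/-- a chain of coinvariants is independent over `A` -/
private theorem tf_tri {A : Submodule k H} (hA : IsHopfSubalgebra k A) {O : ℕ → Submodule k H}
    (hO : ∀ n, IsSubcoalgebra k (O n)) (hmono : Monotone O) {y : ℕ → H}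
    (hy : ∀ n, y n ∈ O (n + 1)) (hyA : ∀ n, y n ∉ O n * A)
    (hco : ∀ n, CoI k (O n * A) (y n)) (m : ℕ) :
    ∀ (i : ℕ) (a : Fin i → H), (∀ t, a t ∈ A) → ∑ t : Fin i, y (m + t) * a t ∈ O m * A →
      ∀ t, a t = 0 := by
  intro i
  induction i with
  | zero => intro a _ _ t; exact t.elim0
  | succ i ih =>
    intro a ha h
    have hle : ∀ {p q : ℕ}, p ≤ q → O p * A ≤ O q * A := fun hpq => mul_le_mul' (hmono hpq) le_rfl
    have hlast : a (Fin.last i) = 0 := by
      refine tf_top k hA (LS_mul k (LS_of_sub k (hO (m + i))) (hA.LS k)) ?_ (hyA (m + i))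
        (hco (m + i)) (ha _) ?_
      · rw [mul_assoc]
        exact mul_le_mul' le_rfl (hA.mul_le k)
      · rw [Fin.sum_univ_castSucc] at h
        have h1 : ∑ t : Fin i, y (m + t) * a t.castSucc ∈ O (m + i) * A := by
          refine Submodule.sum_mem _ fun t _ => ?_
          refine Submodule.mul_mem_mul ?_ (ha _)
          exact hmono (by omega) (hy (m + t))
        have h2 := hle (Nat.le_add_right m i) h
        have h3 := Submodule.sub_mem _ h2 h1
        simpa using h3
    have hrest : ∀ t : Fin i, a t.castSucc = 0 := by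
      refine ih (fun t => a t.castSucc) (fun t => ha _) ?_
      rw [Fin.sum_univ_castSucc, hlast, mul_zero, add_zero] at h
      simpa using h
    intro t
    refine Fin.lastCases hlast hrest t

theorem two_fac {A K T B : Submodule k H} (hc : Ctx k A K T) (hB : IsSubcoalgebra k B)
    (hBT : B ≤ T) (h1 : (1 : H) ∈ B) (hKB : K * B ≤ B * K) {O : ℕ → Submodule k H}
    (hO : ∀ n, IsSubcoalgebra k (O n)) (hOT : ∀ n, O n ≤ T) (hOK : ∀ n, O n * K ≤ O n)
    (hmono : Monotone O) (hOB : B * B * K ≤ O 0) (hOA : ∀ n, T ⊓ (O n * A) ≤ O n)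
    {y : ℕ → H} (hy : ∀ n, y n ∈ O (n + 1)) (hy' : ∀ n, y n ∉ O n)
    (hco : ∀ n, CoI k (B * K) (y n))
    (hts : ∀ n, ∀ g : Module.Dual k H, Van k (B * K) g → FLAG_L k g (y n) ∈ K)
    (i : ℕ) (b : Fin i → Fin i → H) (hb : ∀ s t, b s t ∈ A)
    (h0 : ∑ s : Fin i, ∑ t : Fin i, y s * y (i + t) * b s t = 0) : ∀ s t, b s t = 0 := by
  have h1B : (1 : Submodule k H) ≤ B := Submodule.one_le.2 h1
  have h1K : (1 : Submodule k H) ≤ K := Submodule.one_le.2 hc.hK.one_mem
  have h1A : (1 : Submodule k H) ≤ A := Submodule.one_le.2 hc.hA.one_mem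
  have hKA : K * A ≤ A := (mul_le_mul' hc.KA le_rfl).trans (hc.hA.mul_le k)
  have hBKO : ∀ n, B * K ≤ O n := by
    intro n
    calc B * K = B * (1 * K) := by rw [one_mul]
      _ ≤ B * (B * K) := mul_le_mul' le_rfl (mul_le_mul' h1B le_rfl)
      _ = B * B * K := (mul_assoc _ _ _).symm
      _ ≤ O n := hOB.trans (hmono (Nat.zero_le n))
  have hOOA : ∀ n, O n ≤ O n * A := fun n => hc.hA.le_mul k (O n)
  have hyA : ∀ n, y n ∉ O n * A := fun n h => hy' n (hOA n ⟨hOT (n + 1) (hy n), h⟩)
  have hcoA : ∀ n, CoI k (O n * A) (y n) := fun n =>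
    CoI_mono k ((hBKO n).trans (hOOA n)) (hco n)
  have hBKA : B * K * A ≤ B * A := by
    rw [mul_assoc]
    exact mul_le_mul' le_rfl hKA
  -- comultiplication of `y n b`
  have hΔb : ∀ b' ∈ A, Coalgebra.comul (R := k) b' ∈ tsp k A A := hc.hA.sub
  have hone : (1 : H ⊗[k] H) = 1 ⊗ₜ[k] 1 := Algebra.TensorProduct.one_def
  have e1 : ∀ n, ∀ b' ∈ A, Coalgebra.comul (R := k) (y n * b') ∈
      tsp k ⊤ A ⊔ tsp k (B * A) ⊤ := by
    intro n b' hb'
    rw [Bialgebra.comul_mul]
    have hτ := (CoI_iff k).1 (hco n)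
    have : Coalgebra.comul (R := k) (y n) * Coalgebra.comul (R := k) b' =
        (y n ⊗ₜ[k] (1 : H)) * Coalgebra.comul (R := k) b' +
        (Coalgebra.comul (R := k) (y n) - y n ⊗ₜ[k] (1 : H)) * Coalgebra.comul (R := k) b' := by
      rw [_root_.sub_mul, add_sub_cancel]
    rw [this]
    refine Submodule.add_mem_sup ?_ ?_
    · have h2 : (y n ⊗ₜ[k] (1 : H)) ∈ tsp k ⊤ (1 : Submodule k H) :=
        tmul_mem_tsp k trivial (Submodule.one_le.1 le_rfl)
      have h3 := tsp_mul_tsp k h2 (hΔb b' hb')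
      rw [one_mul] at h3
      exact tsp_mono k le_top le_rfl h3
    · have h3 := tsp_mul_tsp k hτ (hΔb b' hb')
      exact tsp_mono k hBKA le_top h3
  -- the coefficients are in `A`
  have e2 : ∀ n, ∀ b' ∈ A, ∀ g : Module.Dual k H, Van k (O i * A) g →
      FLAG_L k g (y n * b') ∈ A := by
    intro n b' hb' g hg
    have h2 : Coalgebra.comul (R := k) (y n) ∈ tsp k K ⊤ ⊔ tsp k ⊤ (B * K) :=
      (mem_tsp_sup k).2 fun g hg => by
        have := hts n g hg
        rwa [FLAG_L_apply] at this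
    have h3 : Coalgebra.comul (R := k) (y n * b') ∈ tsp k A ⊤ ⊔ tsp k ⊤ (O i * A) := by
      rw [Bialgebra.comul_mul]
      obtain ⟨p, hp, q, hq, hpq⟩ := Submodule.mem_sup.1 h2
      rw [← hpq, add_mul]
      refine Submodule.add_mem_sup ?_ ?_
      · exact tsp_mono k hKA le_top (tsp_mul_tsp k hp (hΔb b' hb'))
      · exact tsp_mono k le_top (mul_le_mul' (hBKO i) le_rfl) (tsp_mul_tsp k hq (hΔb b' hb'))
    rw [FLAG_L_apply]
    exact (mem_tsp_sup k).1 h3 g hg
  -- the main relation
  have e3 : ∀ s : Fin i, ∀ n, ∀ b' ∈ A, ∀ g : Module.Dual k H, Van k (O i * A) g →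
      FLAG_L k g (y s * (y n * b')) - y s * FLAG_L k g (y n * b') ∈ B * B * A := by
    intro s n b' hb' g hg
    set v := y n * b' with hv
    have hτ : Coalgebra.comul (R := k) (y s) - y s ⊗ₜ[k] (1 : H) ∈ tsp k (B * K) (O i) := by
      have hm : Coalgebra.comul (R := k) (y s) - y s ⊗ₜ[k] (1 : H) ∈ tsp k ⊤ (O i) := by
        refine Submodule.sub_mem _ ?_ ?_
        · exact tsp_mono k le_top (hmono (by omega)) (hO _ _ (hy s))
        · exact tmul_mem_tsp k trivial (hBKO i (by
            have := Submodule.mul_mem_mul h1 hc.hK.one_mem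
            rwa [mul_one] at this))
      exact tf_inf k ((CoI_iff k).1 (hco s)) hm
    have h2 : FLAG_L k g (y s * v) - y s * FLAG_L k g v =
        TensorProduct.rid k H (LinearMap.lTensor H g
          ((Coalgebra.comul (R := k) (y s) - y s ⊗ₜ[k] (1 : H)) *
            Coalgebra.comul (R := k) v)) := by
      rw [_root_.sub_mul, map_sub, map_sub, ← Bialgebra.comul_mul, ← FLAG_L_apply, tf_left k, FLAG_L_apply k g v]
    rw [h2]
    obtain ⟨p, hp, q, hq, hpq⟩ := Submodule.mem_sup.1 (e1 n b' hb')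
    rw [← hpq, mul_add, map_add, map_add]
    refine Submodule.add_mem _ ?_ ?_
    · rw [rid_lTensor_zero k hg (tsp_mul_tsp k hτ hp)]
      exact Submodule.zero_mem _
    · have h3 := rid_lTensor_mem k (f := g) (tsp_mul_tsp k hτ hq)
      have h4 : B * K * (B * A) ≤ B * B * A := by
        calc B * K * (B * A) = B * ((K * B) * A) := by simp only [mul_assoc]
          _ ≤ B * ((B * K) * A) := mul_le_mul' le_rfl (mul_le_mul' hKB le_rfl)
          _ = B * B * (K * A) := by simp only [mul_assoc]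
          _ ≤ _ := mul_le_mul' le_rfl hKA
      exact h4 h3
  have hBBA : B * B * A ≤ O 0 * A := by
    calc B * B * A = B * B * 1 * A := by rw [mul_one]
      _ ≤ B * B * K * A := mul_le_mul' (mul_le_mul' le_rfl h1K) le_rfl
      _ ≤ _ := mul_le_mul' hOB le_rfl
  -- the coefficients `c s` vanish
  have e4 : ∀ g : Module.Dual k H, Van k (O i * A) g → ∀ s : Fin i,
      ∑ t : Fin i, FLAG_L k g (y (i + t) * b s t) = 0 := by
    intro g hg
    refine tf_tri k hc.hA hO hmono hy hyA hcoA 0 i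
      (fun s => ∑ t : Fin i, FLAG_L k g (y (i + t) * b s t))
      (fun s => Submodule.sum_mem _ fun t _ => e2 _ _ (hb s t) g hg) ?_
    have h2 : ∑ s : Fin i, ∑ t : Fin i, (FLAG_L k g (y s * (y (i + t) * b s t)) -
        y s * FLAG_L k g (y (i + t) * b s t)) ∈ B * B * A :=
      Submodule.sum_mem _ fun s _ => Submodule.sum_mem _ fun t _ => e3 s _ _ (hb s t) g hg
    have h3 : ∑ s : Fin i, ∑ t : Fin i, FLAG_L k g (y s * (y (i + t) * b s t)) = 0 := by
      have := congrArg (FLAG_L k g) h0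
      simpa only [map_sum, map_zero, mul_assoc] using this
    simp only [Finset.sum_sub_distrib, h3, zero_sub, ← Finset.mul_sum] at h2
    have h4 := (Submodule.neg_mem_iff _).1 h2
    simpa using hBBA h4
  intro s
  refine tf_tri k hc.hA hO hmono hy hyA hcoA i i (fun t => b s t) (fun t => hb s t) ?_
  apply mem_of_Van k
  intro g hg
  have h2 := congrArg (Coalgebra.counit (R := k)) (e4 g hg s)
  rw [← map_sum, FLAG_counitL, map_zero] at h2
  exact h2

end hopf

end Pool.Agent.GKP
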