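import Pool.Agent.Lib_helper54.GKP.Base
import Pool.Agent.Lib_helper54.GKP.S2
import Pool.Agent.Lib_helper54.GKP.CI
import Pool.Agent.Lib_helper54.GKP.FL
import Pool.Agent.Lib_helper54.GKP.ND
import Pool.Agent.Lib_helper54.GKP.CX2
import Pool.Agent.Lib_helper54.GKP.TF
import Pool.Agent.Lib_helper54.GKP.GW

/-! Block ST1, written by helper68. -/

/-!
MP_49c8ed_al, gap theorems, block ST1: one step towards a stable subcoalgebra.
-/

set_option autoImplicit false

universe u v

namespace Pool.Agent.GKP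

open TensorProduct Pool.Agent.GK Pool.Agent.GKC Filter Topology

section bialg
variable (k : Type u) [Field k] {H : Type v} [Ring H] [Bialgebra k H]

/-- `x ∈ F ⊗ H + H ⊗ G` through functionals which vanish on `F` -/
private theorem st1_supR {F G : Submodule k H} {t : H ⊗[k] H}
    (h : ∀ g : Module.Dual k H, Van k F g →
      TensorProduct.lid k H (LinearMap.rTensor H g t) ∈ G) : t ∈ tsp k F ⊤ ⊔ tsp k ⊤ G := by
  obtain ⟨ρ, hρ, hρm⟩ := exists_proj k F
  have h1 : t = LinearMap.rTensor H ρ t + LinearMap.rTensor H (LinearMap.id - ρ) t := by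
    rw [LinearMap.rTensor_sub, LinearMap.rTensor_id, LinearMap.sub_apply, LinearMap.id_apply,
      add_sub_cancel]
  rw [h1]
  refine Submodule.add_mem_sup ?_ ?_
  · clear h h1
    induction t with
    | zero => simp
    | tmul p q =>
      rw [LinearMap.rTensor_tmul]
      exact tmul_mem_tsp k (hρm p) trivial
    | add s t hs ht =>
      rw [map_add]
      exact Submodule.add_mem _ hs ht
  · rw [mem_tsp_topR]
    intro f
    have h2 : TensorProduct.lid k H (LinearMap.rTensor H f
        (LinearMap.rTensor H (LinearMap.id - ρ) t)) =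
        TensorProduct.lid k H (LinearMap.rTensor H (f ∘ₗ (LinearMap.id - ρ)) t) := by
      rw [LinearMap.rTensor_comp, LinearMap.comp_apply]
    rw [h2]
    apply h
    intro x hx
    simp [hρ x hx]

private theorem st1_mulL {F G F' G' : Submodule k H} {s t : H ⊗[k] H} (hs : s ∈ tsp k F' G')
    (ht : t ∈ tsp k F ⊤ ⊔ tsp k ⊤ G) : s * t ∈ tsp k (F' * F) ⊤ ⊔ tsp k ⊤ (G' * G) := by
  obtain ⟨a, ha, b, hb, rfl⟩ := Submodule.mem_sup.1 ht
  rw [mul_add]
  exact Submodule.add_mem_sup (tsp_mono k le_rfl le_top (tsp_mul_tsp k hs ha))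
    (tsp_mono k le_top le_rfl (tsp_mul_tsp k hs hb))

private theorem st1_mulR {F G F' G' : Submodule k H} {s t : H ⊗[k] H} (hs : s ∈ tsp k F' G')
    (ht : t ∈ tsp k F ⊤ ⊔ tsp k ⊤ G) : t * s ∈ tsp k (F * F') ⊤ ⊔ tsp k ⊤ (G * G') := by
  obtain ⟨a, ha, b, hb, rfl⟩ := Submodule.mem_sup.1 ht
  rw [add_mul]
  exact Submodule.add_mem_sup (tsp_mono k le_rfl le_top (tsp_mul_tsp k ha hs))
    (tsp_mono k le_top le_rfl (tsp_mul_tsp k hb hs))

private theorem st1_sup_mono {F F' G G' : Submodule k H} (h : F ≤ F') (h' : G ≤ G') :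
    tsp k F ⊤ ⊔ tsp k ⊤ G ≤ tsp k F' ⊤ ⊔ tsp k ⊤ G' :=
  sup_le_sup (tsp_mono k h le_rfl) (tsp_mono k le_rfl h')

/-- comultiplication of products -/
private theorem st1_comulL {X Y F G F' G' : Submodule k H}
    (hX : ∀ x ∈ X, Coalgebra.comul (R := k) x ∈ tsp k F' G')
    (hY : ∀ y ∈ Y, Coalgebra.comul (R := k) y ∈ tsp k F ⊤ ⊔ tsp k ⊤ G) :
    ∀ z ∈ X * Y, Coalgebra.comul (R := k) z ∈ tsp k (F' * F) ⊤ ⊔ tsp k ⊤ (G' * G) := by
  intro z hz
  refine Submodule.mul_induction_on hz (fun x hx y hy => ?_) (fun a b ha hb => ?_)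
  · rw [Bialgebra.comul_mul]
    exact st1_mulL k (hX x hx) (hY y hy)
  · rw [map_add]
    exact Submodule.add_mem _ ha hb

private theorem st1_comulR {X Y F G F' G' : Submodule k H}
    (hX : ∀ x ∈ X, Coalgebra.comul (R := k) x ∈ tsp k F' G')
    (hY : ∀ y ∈ Y, Coalgebra.comul (R := k) y ∈ tsp k F ⊤ ⊔ tsp k ⊤ G) :
    ∀ z ∈ Y * X, Coalgebra.comul (R := k) z ∈ tsp k (F * F') ⊤ ⊔ tsp k ⊤ (G * G') := by
  intro z hz
  refine Submodule.mul_induction_on hz (fun y hy x hx => ?_) (fun a b ha hb => ?_)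
  · rw [Bialgebra.comul_mul]
    exact st1_mulR k (hX x hx) (hY y hy)
  · rw [map_add]
    exact Submodule.add_mem _ ha hb

private theorem st1_one_le_mul {X Y : Submodule k H} (h : (1 : H) ∈ X) : Y ≤ X * Y := by
  intro y hy
  have := Submodule.mul_mem_mul h hy
  rwa [one_mul] at this

private theorem st1_le_mul_one {X Y : Submodule k H} (h : (1 : H) ∈ X) : Y ≤ Y * X := by
  intro y hy
  have := Submodule.mul_mem_mul hy h
  rwa [mul_one] at this

private theorem st1_one_pow {X : Submodule k H} (h : (1 : H) ∈ X) (n : ℕ) : (1 : H) ∈ X ^ n := by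
  induction n with
  | zero => rw [pow_zero]; exact Submodule.one_le.1 le_rfl
  | succ n ih =>
    rw [pow_succ]
    have := Submodule.mul_mem_mul ih h
    rwa [mul_one] at this

private theorem st1_pow_mono {C : Submodule k H} (h1 : (1 : H) ∈ C) {a b : ℕ} (h : a ≤ b) :
    C ^ a ≤ C ^ b := by
  obtain ⟨c, rfl⟩ := Nat.exists_eq_add_of_le h
  rw [pow_add]
  exact st1_le_mul_one k (st1_one_pow k h1 c)

end bialg

section hopf
variable (k : Type u) [Field k] {H : Type v} [Ring H] [HopfAlgebra k H]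

private theorem st1_antipode_pow {C V : Submodule k H}
    (h : ∀ x ∈ C, HopfAlgebra.antipode k x ∈ V) (n : ℕ) :
    ∀ x ∈ C ^ n, HopfAlgebra.antipode k x ∈ V ^ n := by
  induction n with
  | zero =>
    intro x hx
    rw [pow_zero] at hx ⊢
    obtain ⟨r, rfl⟩ := Submodule.mem_one.1 hx
    rw [Algebra.algebraMap_eq_smul_one, map_smul, HopfAlgebra.antipode_one]
    exact Submodule.smul_mem _ _ (Submodule.one_le.1 le_rfl)
  | succ n ih =>
    intro x hx
    rw [pow_succ] at hx
    rw [pow_succ']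
    refine Submodule.mul_induction_on hx (fun a ha b hb => ?_) (fun a b ha hb => ?_)
    · rw [HopfAlgebra.antipode_mul_antidistrib]
      exact Submodule.mul_mem_mul (h b hb) (ih a ha)
    · rw [map_add]
      exact Submodule.add_mem _ ha hb

/-- one more step -/
theorem st_step (hA : IsHopfSubalgebra k (coradical k H)) {C B : Submodule k H}
    (hC : Pre k C) (hB : Stb k (Kc k (C ⊓ coradical k H)) (Kc k C) B)
    (hEB : C ⊓ coradical k H ≤ B) (hne : ¬ C ≤ B) :
    GKsub k (coradical k H) + 2 ≤ GKdim k H ∨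
      ∃ B' : Submodule k H, Stb k (Kc k (C ⊓ coradical k H)) (Kc k C) B' ∧ B ≤ B' ∧
        ∃ x ∈ C, x ∈ B' ∧ x ∉ B := by
  have hc := ctx_of_pre k hA hC
  have hEs : IsSubcoalgebra k (C ⊓ coradical k H) := cs_inf k hC.sub (coradical_sub k)
  have hE1 : (1 : H) ∈ C ⊓ coradical k H := ⟨hC.one, hA.one_mem⟩
  have hEf : (C ⊓ coradical k H).FG := Submodule.FG.of_le hC.fg inf_le_left
  have hEC : C ⊓ coradical k H ≤ C := inf_le_left
  set E : Submodule k H := C ⊓ coradical k H with hEdef
  obtain ⟨hKone, hEK, hKK, hEnK, _, _⟩ := kc_facts k hE1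
  obtain ⟨hTone, hCT, hTT, hCnT, _, _⟩ := kc_facts k hC.one
  set K : Submodule k H := Kc k E with hKdef
  set T : Submodule k H := Kc k C with hTdef
  have hKs : IsSubcoalgebra k K := hc.hK.sub
  -- the subcoalgebra `P`
  set P : Submodule k H := PP k E B C with hPdef
  have hPs : IsSubcoalgebra k P := pp_sub k hEs hB.sub hC.sub
  have hPC : P ≤ C := fun w hw => ((pp_mem k).1 hw).1
  have hPf : P.FG := Submodule.FG.of_le hC.fg hPC
  have hPB : ¬ P ≤ B := pp_ne k hEs hB.sub hC.sub hC.fg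
    (fun D hD hDC => le_inf hDC (le_sSup hD)) hne
  obtain ⟨p, hpP, hpB⟩ := Set.not_subset.1 hPB
  -- the subcoalgebras `M j` and `O j`
  have hEps : ∀ j, IsSubcoalgebra k (E ^ j) := fun j => sub_pow hEs j
  have hXs : ∀ j, IsSubcoalgebra k (E ^ j * P) := fun j => sub_mul (hEps j) hPs
  have hXf : ∀ j, (E ^ j * P).FG := fun j => (hEf.pow j).mul hPf
  have hET : ∀ j, E ^ j ≤ T := fun j => (pow_le_pow_left' hEC j).trans (hCnT j)
  have hXT : ∀ j, E ^ j * P ≤ T := fun j => (mul_le_mul' (hET j) (hPC.trans hCT)).trans hTT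
  have hMs : ∀ j, IsSubcoalgebra k (E ^ j * P ⊔ B * B) := fun j =>
    cs_sup k (hXs j) (sub_mul hB.sub hB.sub)
  have hMf : ∀ j, (E ^ j * P ⊔ B * B).FG := fun j => (hXf j).sup (hB.fg.mul hB.fg)
  have hMT : ∀ j, E ^ j * P ⊔ B * B ≤ T := fun j =>
    sup_le (hXT j) ((mul_le_mul' hB.le hB.le).trans hTT)
  have hBM : ∀ j, B ≤ E ^ j * P ⊔ B * B := fun j =>
    (st1_one_le_mul k hB.one).trans le_sup_right
  by_cases hcase : ∃ j, E ^ (j + 1) * P ≤ (E ^ j * P ⊔ B * B) * K
  · right
    obtain ⟨j, hj⟩ := hcase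
    refine ⟨E ^ j * P ⊔ B * B, ⟨hMf j, hMs j, ?_, hMT j, ?_⟩, hBM j, p, hPC hpP, ?_, hpB⟩
    · exact hBM j hB.one
    · have h1 : E * (E ^ j * P ⊔ B * B) ≤ (E ^ j * P ⊔ B * B) * K := by
        rw [Submodule.mul_sup]
        refine sup_le ?_ ?_
        · rw [← mul_assoc, ← pow_succ']
          exact hj
        · calc E * (B * B) ≤ K * (B * B) := mul_le_mul' hEK (le_refl _)
            _ = (K * B) * B := (mul_assoc _ _ _).symm
            _ ≤ (B * K) * B := mul_le_mul' hB.stb (le_refl _)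
            _ = B * (K * B) := mul_assoc _ _ _
            _ ≤ B * (B * K) := mul_le_mul' (le_refl _) hB.stb
            _ = (B * B) * K := (mul_assoc _ _ _).symm
            _ ≤ (E ^ j * P ⊔ B * B) * K := mul_le_mul' le_sup_right (le_refl _)
      have h2 : ∀ n, E ^ n * (E ^ j * P ⊔ B * B) ≤ (E ^ j * P ⊔ B * B) * K := by
        intro n
        induction n with
        | zero =>
          rw [pow_zero, one_mul]
          exact st1_le_mul_one k hKone
        | succ n ih =>
          calc E ^ (n + 1) * (E ^ j * P ⊔ B * B) = E * (E ^ n * (E ^ j * P ⊔ B * B)) := by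
                rw [pow_succ', mul_assoc]
            _ ≤ E * ((E ^ j * P ⊔ B * B) * K) := mul_le_mul' (le_refl _) ih
            _ = (E * (E ^ j * P ⊔ B * B)) * K := (mul_assoc _ _ _).symm
            _ ≤ ((E ^ j * P ⊔ B * B) * K) * K := mul_le_mul' h1 (le_refl _)
            _ = (E ^ j * P ⊔ B * B) * (K * K) := mul_assoc _ _ _
            _ ≤ (E ^ j * P ⊔ B * B) * K := mul_le_mul' (le_refl _) hKK
      have h3 : K * (E ^ j * P ⊔ B * B) = ⨆ n : ℕ, E ^ n * (E ^ j * P ⊔ B * B) := by
        rw [hKdef, Kc, Submodule.iSup_mul]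
      rw [h3]
      exact iSup_le h2
    · exact (st1_one_le_mul k (st1_one_pow k hE1 j)).trans le_sup_left hpP
  · left
    have hcase' : ∀ j, ¬ E ^ (j + 1) * P ≤ (E ^ j * P ⊔ B * B) * K := fun j hj => hcase ⟨j, hj⟩
    set O : ℕ → Submodule k H := fun j => (E ^ j * P ⊔ B * B) * K with hOdef
    have hOs : ∀ j, IsSubcoalgebra k (O j) := fun j => sub_mul (hMs j) hKs
    have hOT : ∀ j, O j ≤ T := fun j => (mul_le_mul' (hMT j) hc.KT).trans hTT
    have hOK : ∀ j, O j * K ≤ O j := fun j => by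
      rw [hOdef]
      simp only
      rw [mul_assoc]
      exact mul_le_mul' (le_refl _) hKK
    have hmono : Monotone O := monotone_nat_of_le_succ fun j =>
      mul_le_mul' (sup_le_sup (mul_le_mul' (st1_pow_mono k hE1 (Nat.le_succ j)) (le_refl _))
        (le_refl _)) (le_refl _)
    have hOB : B * B * K ≤ O 0 := mul_le_mul' le_sup_right (le_refl _)
    have hOA : ∀ j, T ⊓ (O j * coradical k H) ≤ O j := by
      intro j
      have h1 : O j * coradical k H ≤ (E ^ j * P ⊔ B * B) * coradical k H := by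
        rw [hOdef]
        simp only
        rw [mul_assoc]
        refine mul_le_mul' (le_refl _) ?_
        exact (mul_le_mul' hc.KA (le_refl _)).trans (hA.mul_le k)
      exact (inf_le_inf_left T h1).trans (co_sub k hc le_rfl (hMf j) (hMs j) (hMT j))
    have hBK : B * K ≤ O 0 := by
      refine le_trans ?_ hOB
      exact mul_le_mul' (st1_one_le_mul k hB.one) (le_refl _)
    have hBKj : ∀ j, B * K ≤ O j := fun j => hBK.trans (hmono (Nat.zero_le j))
    -- comultiplications
    have hKΔ : ∀ x ∈ K, Coalgebra.comul (R := k) x ∈ tsp k K K := hKs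
    have hEnΔ : ∀ n, ∀ x ∈ E ^ n, Coalgebra.comul (R := k) x ∈ tsp k K K := fun n x hx =>
      hKΔ x (hEnK n hx)
    have hPL : ∀ w ∈ P, Coalgebra.comul (R := k) w ∈ tsp k B ⊤ ⊔ tsp k ⊤ E := by
      intro w hw
      rw [mem_tsp_sup]
      intro g hg
      have := (((pp_mem k).1 hw).2 g hg).1
      rwa [FLAG_L_apply] at this
    have hPR : ∀ w ∈ P, Coalgebra.comul (R := k) w ∈ tsp k E ⊤ ⊔ tsp k ⊤ B := by
      intro w hw
      apply st1_supR
      intro g hg
      have := (((pp_mem k).1 hw).2 g hg).2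
      rwa [FLAG_R_apply] at this
    have hXL : ∀ n, ∀ w ∈ E ^ n * P, Coalgebra.comul (R := k) w ∈
        tsp k (B * K) ⊤ ⊔ tsp k ⊤ K := by
      intro n w hw
      refine st1_sup_mono k hB.stb ?_ (st1_comulL k (hEnΔ n) hPL w hw)
      exact (mul_le_mul' (le_refl _) hEK).trans hKK
    have hXR : ∀ n, ∀ w ∈ E ^ n * P, Coalgebra.comul (R := k) w ∈
        tsp k K ⊤ ⊔ tsp k ⊤ (B * K) := by
      intro n w hw
      refine st1_sup_mono k ?_ hB.stb (st1_comulL k (hEnΔ n) hPR w hw)
      exact (mul_le_mul' (le_refl _) hEK).trans hKK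
    have hXRK : ∀ n, ∀ w ∈ (E ^ n * P) * K, Coalgebra.comul (R := k) w ∈
        tsp k K ⊤ ⊔ tsp k ⊤ (B * K) := by
      intro n w hw
      refine st1_sup_mono k hKK ?_ (st1_comulR k hKΔ (hXR n) w hw)
      rw [mul_assoc]
      exact mul_le_mul' (le_refl _) hKK
    have hSK : ∀ j, (E ^ (j + 1) * P ⊓ K).map (HopfAlgebra.antipode k) ≤ K := by
      intro j
      rw [Submodule.map_le_iff_le_comap]
      exact fun x hx => hc.hK.antipode_mem x hx.2
    have hex : ∀ j, ∃ u ∈ (E ^ (j + 1) * P) *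
        (E ^ (j + 1) * P ⊓ K).map (HopfAlgebra.antipode k), u ∉ O j ∧ CoI k (B * K) u := by
      intro j
      refine coinv k hc.hK (LS_mul k (LS_of_sub k hB.sub) (LS_of_sub k hKs)) ?_ (hOK j)
        (hBKj j) (LS_of_sub k (hXs (j + 1))) (hXs (j + 1)) le_rfl ?_ (hcase' j)
      · rw [mul_assoc]
        exact mul_le_mul' (le_refl _) hKK
      · intro w hw g hg
        rw [FLAG_L_apply]
        exact (mem_tsp_sup k).1 (hXL (j + 1) w hw) g hg
    choose y hy hy' hco using hex
    have hyK : ∀ j, y j ∈ (E ^ (j + 1) * P) * K := fun j =>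
      (mul_le_mul' (le_refl _) (hSK j)) (hy j)
    have hXKO : ∀ j, (E ^ j * P) * K ≤ O j := fun j => mul_le_mul' le_sup_left (le_refl _)
    have hyO : ∀ j, y j ∈ O (j + 1) := fun j => hXKO (j + 1) (hyK j)
    have hts : ∀ n, ∀ g : Module.Dual k H, Van k (B * K) g → FLAG_L k g (y n) ∈ K := by
      intro n g hg
      rw [FLAG_L_apply]
      exact (mem_tsp_sup k).1 (hXRK (n + 1) (y n) (hyK n)) g hg
    -- growth
    set V : Submodule k H := C ⊔ C.map (HopfAlgebra.antipode k) with hVdef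
    have hVf : V.FG := hC.fg.sup (hC.fg.map _)
    have hV1 : (1 : H) ∈ V := Submodule.mem_sup_left hC.one
    have hCV : C ≤ V := le_sup_left
    have hXC : ∀ j, E ^ (j + 1) * P ≤ C ^ (j + 2) := by
      intro j
      rw [pow_succ C (j + 1)]
      exact mul_le_mul' (pow_le_pow_left' hEC _) hPC
    have hyV : ∀ j, y j ∈ V ^ (2 * (j + 2)) := by
      intro j
      have h1 : (E ^ (j + 1) * P) * (E ^ (j + 1) * P ⊓ K).map (HopfAlgebra.antipode k) ≤
          V ^ (j + 2) * V ^ (j + 2) := by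
        refine mul_le_mul' ((hXC j).trans (pow_le_pow_left' hCV _)) ?_
        rw [Submodule.map_le_iff_le_comap]
        intro x hx
        exact st1_antipode_pow k (fun z hz => Submodule.mem_sup_right
          (Submodule.mem_map_of_mem hz)) (j + 2) x (hXC j hx.1)
      have h2 := h1 (hy j)
      rwa [← pow_add, ← two_mul] at h2
    have hgw : GKsub k (coradical k H) + (2 : ℕ) ≤ GKdim k H := by
      refine gw_lower k hA.one_mem (hA.mul_le k) hVf hV1 8 2 ?_
      intro i D hDf hD1 hDA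
      have hDfin : Module.Finite k ↥D := Module.Finite.iff_fg.2 hDf
      have hWf : (V ^ (8 * (i + 1)) * D).FG := (hVf.pow _).mul hDf
      have hWfin : Module.Finite k ↥(V ^ (8 * (i + 1)) * D) := Module.Finite.iff_fg.2 hWf
      have hyy : ∀ s t : Fin i, y s * y (i + t) ∈ V ^ (8 * (i + 1)) := by
        intro s t
        have h1 := Submodule.mul_mem_mul (hyV s) (hyV (i + t))
        rw [← pow_add] at h1
        refine st1_pow_mono k hV1 ?_ h1
        have := s.2
        have := t.2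
        omega
      let Φ : (Fin i → Fin i → ↥D) →ₗ[k] H :=
        ∑ s : Fin i, ∑ t : Fin i, (LinearMap.mulLeft k (y s * y (i + t))) ∘ₗ D.subtype ∘ₗ
          (LinearMap.proj t) ∘ₗ (LinearMap.proj s)
      have hΦ : ∀ b, Φ b = ∑ s : Fin i, ∑ t : Fin i, y s * y (i + t) * (b s t : H) := by
        intro b
        simp only [Φ, LinearMap.sum_apply, LinearMap.comp_apply, LinearMap.mulLeft_apply,
          Submodule.subtype_apply, LinearMap.proj_apply]
      have hmem : ∀ b, Φ b ∈ V ^ (8 * (i + 1)) * D := by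
        intro b
        rw [hΦ]
        exact Submodule.sum_mem _ fun s _ => Submodule.sum_mem _ fun t _ =>
          Submodule.mul_mem_mul (hyy s t) (b s t).2
      have hinj : Function.Injective (Φ.codRestrict (V ^ (8 * (i + 1)) * D) hmem) := by
        rw [← LinearMap.ker_eq_bot, LinearMap.ker_codRestrict, LinearMap.ker_eq_bot']
        intro b hb
        rw [hΦ] at hb
        have h1 := two_fac k hc hB.sub hB.le hB.one hB.stb hOs hOT hOK hmono hOB hOA hyO hy'
          hco hts i (fun s t => (b s t : H)) (fun s t => hDA (b s t).2) hb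
        funext s t
        exact Subtype.ext (h1 s t)
      have h2 := LinearMap.finrank_le_finrank_of_injective hinj
      have h3 : Module.finrank k (Fin i → Fin i → ↥D) = i ^ 2 * Module.finrank k ↥D := by
        rw [Module.finrank_pi_fintype]
        simp only [Module.finrank_pi_fintype, Finset.sum_const, Finset.card_univ,
          Fintype.card_fin, smul_eq_mul]
        ring
      rw [h3] at h2
      exact h2
    have e2 : ((2 : ℕ) : ENNReal) = 2 := by norm_num
    rwa [e2] at hgw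

end hopf

end Pool.Agent.GKP
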