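import Pool.Agent.Lib_helper54.GKP.Base
import Pool.Agent.Lib_helper54.GKP.ST1

/-! Block ST2, written by helper95. -/

/-!
Block ST2: good subcoalgebras exhaust `H` when the dimension is less than two above the coradical.
-/

set_option autoImplicit false

universe u v

namespace Pool.Agent.GKP

open TensorProduct Pool.Agent.GK Pool.Agent.GKC Pool.Agent.GKP

section hopf
variable (k : Type u) [Field k] {H : Type v} [Ring H] [HopfAlgebra k H]

private theorem st2_fg {X C : Submodule k H} (hC : C.FG) (h : X ≤ C) : X.FG := by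
  have : Module.Finite k C := Module.Finite.iff_fg.2 hC
  have : Module.Finite k X :=
    Module.Finite.of_injective (Submodule.inclusion h) (Submodule.inclusion_injective h)
  exact Module.Finite.iff_fg.1 inferInstance

theorem st_main (hA : IsHopfSubalgebra k (coradical k H)) :
    GKsub k (coradical k H) + 2 ≤ GKdim k H ∨
      ∀ V : Submodule k H, V.FG → ∃ C : Submodule k H, Good k C ∧ V ≤ C := by
  by_cases hgap : GKsub k (coradical k H) + 2 ≤ GKdim k H
  · exact Or.inl hgap
  right
  intro V hV
  obtain ⟨C, hC, hVC⟩ := pre_exists k hA hV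
  have hE1 : (1 : H) ∈ C ⊓ coradical k H := ⟨hC.one, hA.one_mem⟩
  have hK := kc_facts k hE1
  have hT := kc_facts k hC.one
  have hEsub : IsSubcoalgebra k (C ⊓ coradical k H) := cs_inf k hC.sub (coradical_sub k)
  have hstart : Stb k (Kc k (C ⊓ coradical k H)) (Kc k C) (C ⊓ coradical k H) := by
    refine ⟨st2_fg k hC.fg inf_le_left, hEsub, hE1, inf_le_left.trans hT.2.1, ?_⟩
    calc Kc k (C ⊓ coradical k H) * (C ⊓ coradical k H)
        ≤ Kc k (C ⊓ coradical k H) * Kc k (C ⊓ coradical k H) :=
          Submodule.mul_le.2 fun a ha b hb => Submodule.mul_mem_mul ha (hK.2.1 hb)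
      _ ≤ Kc k (C ⊓ coradical k H) := hK.2.2.1
      _ ≤ (C ⊓ coradical k H) * Kc k (C ⊓ coradical k H) := by
          intro x hx
          have := Submodule.mul_mem_mul hE1 hx
          rwa [one_mul] at this
  have key : ∀ n : ℕ, ∀ B : Submodule k H, Stb k (Kc k (C ⊓ coradical k H)) (Kc k C) B →
      C ⊓ coradical k H ≤ B → Module.finrank k C ≤ n + Module.finrank k ↥(C ⊓ B) →
      ∃ B' : Submodule k H, Stb k (Kc k (C ⊓ coradical k H)) (Kc k C) B' ∧ C ≤ B' := by
    intro n
    induction n with
    | zero =>
      intro B hB _ hn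
      refine ⟨B, hB, ?_⟩
      have : Module.Finite k C := Module.Finite.iff_fg.2 hC.fg
      have h1 : C ⊓ B = C := by
        refine Submodule.eq_of_le_of_finrank_le inf_le_left ?_
        omega
      exact inf_eq_left.1 h1
    | succ n ih =>
      intro B hB hEB hn
      by_cases hCB : C ≤ B
      · exact ⟨B, hB, hCB⟩
      · rcases st_step k hA hC hB hEB hCB with h | ⟨B', hB', hBB', x, hxC, hxB', hxB⟩
        · exact absurd h hgap
        · refine ih B' hB' (hEB.trans hBB') ?_
          have hlt : C ⊓ B < C ⊓ B' := by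
            refine lt_of_le_of_ne (inf_le_inf_left _ hBB') ?_
            intro he
            have : x ∈ C ⊓ B' := ⟨hxC, hxB'⟩
            rw [← he] at this
            exact hxB this.2
          have : Module.Finite k ↥(C ⊓ B') :=
            Module.Finite.iff_fg.2 (st2_fg k hC.fg inf_le_left)
          have := Submodule.finrank_lt_finrank_of_lt hlt
          omega
  obtain ⟨B', hB', hCB'⟩ := key (Module.finrank k C) _ hstart le_rfl (by omega)
  obtain ⟨C', hC', hCC'⟩ := good_of_stb k hA hC hB' hCB'
  exact ⟨C', hC', hVC.trans hCC'⟩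

end hopf

end Pool.Agent.GKP
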