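import Pool.Agent.Lib_helper54.GKP.Base
import Pool.Agent.Lib_helper54.GKP.D1
import Pool.Agent.Lib_helper54.GKP.ST2
import Pool.Agent.Lib_helper54.GKP.L3
import Pool.Agent.Lib_helper35.PH.BG

/-!
MP_49c8ed_al. Gap theorems, block D2: the second gap.
-/

set_option autoImplicit false

universe u v

namespace Pool.Agent.GKP

open TensorProduct Pool.Agent.GK Pool.Agent.GKC Filter Topology

section hopf
variable (k : Type u) [Field k] {H : Type v} [Ring H] [HopfAlgebra k H]

/-- one good subcoalgebra -/
private theorem d2_good (hA : IsHopfSubalgebra k (coradical k H)) {C : Submodule k H}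
    (hC : Good k C) : GKsub k (coradical k H) + 2 ≤ GKdim k H ∨
      asm_L k C ≤ GKsub k (coradical k H) + 1 := by
  obtain ⟨m, L, h1, h2, h3⟩ := l3_main k hA hC
  have hlin : ∀ K : ℕ, (∀ n : ℕ, Nat.card {w : List (Fin m) // w ∈ L ∧ w.length ≤ n} ≤
      K * (n + 1)) → asm_L k C ≤ GKsub k (coradical k H) + 1 := by
    intro K hK
    have hEfg : (C ⊓ coradical k H).FG := by
      have := Module.Finite.iff_fg.2 hC.fg
      rw [← Module.Finite.iff_fg]
      exact Submodule.finiteDimensional_of_le inf_le_left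
    have h4 := gw_upper k (A := coradical k H) hC.fg hC.one hEfg ⟨hC.one, hA.one_mem⟩ inf_le_right
      K 1 (fun n => by
        rw [pow_one]
        exact (h3 n).1.trans (Nat.mul_le_mul_right _ (hK n)))
    simpa using h4
  rcases Pool.Agent.PH.bg_main L h1 h2 with ⟨K, hK⟩ | ⟨K, hK⟩ | hq
  · right
    refine hlin K fun n => (hK n).trans ?_
    exact Nat.le_mul_of_pos_right K (Nat.succ_pos n)
  · right
    exact hlin K fun n => (hK n).2
  · left
    have h5 := gw_lower k (A := coradical k H) (V := C) hA.one_mem (hA.mul_le k) hC.fg hC.one 4 2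
      (fun n B hB _ hBA => by
        have h6 := (h3 (2 * n)).2 B hB hBA
        have h7 := hq (2 * n)
        have h8 : n ^ 2 ≤ Nat.card {w : List (Fin m) // w ∈ L ∧ w.length ≤ 2 * n} := by nlinarith
        have h9 : C ^ (2 * (2 * n)) * B ≤ C ^ (4 * (n + 1)) * B :=
          mul_le_mul' (pow_le_pow_right' (Submodule.one_le.2 hC.one) (by omega)) le_rfl
        have := Module.Finite.iff_fg.2 ((hC.fg.pow (4 * (n + 1))).mul hB)
        calc n ^ 2 * Module.finrank k B
            ≤ Nat.card {w : List (Fin m) // w ∈ L ∧ w.length ≤ 2 * n} * Module.finrank k B :=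
              Nat.mul_le_mul_right _ h8
          _ ≤ Module.finrank k ↥(C ^ (2 * (2 * n)) * B) := h6
          _ ≤ Module.finrank k ↥(C ^ (4 * (n + 1)) * B) := Submodule.finrank_mono h9)
    simpa using h5

theorem d2_main (hA : IsHopfSubalgebra k (coradical k H)) :
    GKdim k H = GKsub k (coradical k H) ∨ GKdim k H = GKsub k (coradical k H) + 1 ∨
      GKsub k (coradical k H) + 2 ≤ GKdim k H := by
  by_cases h2 : GKsub k (coradical k H) + 2 ≤ GKdim k H
  · exact Or.inr (Or.inr h2)
  rcases st_main k hA with h3 | h3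
  · exact absurd h3 h2
  have hup : GKdim k H ≤ GKsub k (coradical k H) + 1 := by
    refine iSup₂_le fun V hV => ?_
    change asm_L k V ≤ _
    obtain ⟨C, hC, hVC⟩ := h3 V hV.2
    rcases d2_good k hA hC with h4 | h4
    · exact absurd h4 h2
    · exact (asm_L_mono k hVC hC.fg).trans h4
  rcases d1_main k hA le_rfl with h4 | h4
  · exact Or.inl h4
  · exact Or.inr (Or.inl (le_antisymm hup h4))

end hopf

end Pool.Agent.GKP
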