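import Pool.Agent.Lib_helper67.GKC.Q

/-!
MP_49c8ed_al. Gap theorems for the GK dimension of Hopf algebras relative to a Hopf subalgebra which
contains the coradical. Shared definitions.
-/

set_option autoImplicit false

universe u v

namespace Pool.Agent.GKP

open TensorProduct Pool.Agent.GK Pool.Agent.GKC Filter Topology

section bialg
variable (k : Type u) [Field k] {H : Type v} [Ring H] [Bialgebra k H]

/-- stable under `x ↦ x₁ f(x₂)` (right coideal) -/
def LS (D : Submodule k H) : Prop := ∀ f : Module.Dual k H, ∀ x ∈ D, FLAG_L k f x ∈ D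

/-- stable under `x ↦ f(x₁) x₂` (left coideal) -/
def RS (D : Submodule k H) : Prop := ∀ f : Module.Dual k H, ∀ x ∈ D, FLAG_R k f x ∈ D

/-- the functional vanishes on `D` -/
def Van (D : Submodule k H) (g : Module.Dual k H) : Prop := ∀ x ∈ D, g x = 0

/-- coinvariant modulo `F`: `Δ(u) ∈ u ⊗ 1 + F ⊗ H` -/
def CoI (F : Submodule k H) (u : H) : Prop :=
  ∀ f : Module.Dual k H, FLAG_L k f u - f 1 • u ∈ F

/-- `N + ∑_{l < i} e_l K` -/
def Nl (K N : Submodule k H) {ι : Type} [LinearOrder ι] (e : ι → H) (i : ι) : Submodule k H :=
  N ⊔ Submodule.span k (e '' {l | l < i}) * K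

/-- a triangular family of coinvariants over the base `N` -/
structure Fam (K N : Submodule k H) {ι : Type} [LinearOrder ι] (e : ι → H) : Prop where
  base : LS k N
  baseM : N * K ≤ N
  coi : ∀ i, CoI k (Nl k K N e i) (e i)
  indep : ∀ i, e i ∉ Nl k K N e i

/-- the algebra generated by `E` (for `1 ∈ E`): the union of the powers -/
def Kc (E : Submodule k H) : Submodule k H := ⨆ n : ℕ, E ^ n

/-- the part of `C` where the two coactions are trivial modulo `B`, outside of `E` -/
noncomputable def PP (E B C : Submodule k H) : Submodule k H :=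
  C ⊓ ⨅ g : {g : Module.Dual k H // Van k E g},
    B.comap (FLAG_L k g.1) ⊓ B.comap (FLAG_R k g.1)

end bialg

section hopf
variable (k : Type u) [Field k] {H : Type v} [Ring H] [HopfAlgebra k H]

/-- `A` is a Hopf subalgebra of `H`: it contains `1` and is closed under multiplication,
comultiplication and the antipode. -/
structure IsHopfSubalgebra (A : Submodule k H) : Prop where
  one_mem : (1 : H) ∈ A
  mul_mem : ∀ a ∈ A, ∀ b ∈ A, a * b ∈ A
  sub : IsSubcoalgebra k A
  antipode_mem : ∀ a ∈ A, HopfAlgebra.antipode k a ∈ A

/-- `T` is a subbialgebra which meets the Hopf subalgebra `A` in the Hopf subalgebra `K` -/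
structure Ctx (A K T : Submodule k H) : Prop where
  hA : IsHopfSubalgebra k A
  hK : IsHopfSubalgebra k K
  KA : K ≤ A
  KT : K ≤ T
  subT : IsSubcoalgebra k T
  mulT : T * T ≤ T
  inf : T ⊓ A ≤ K

/-- a finite-dimensional subcoalgebra with `1`, whose intersection with the coradical is stable
under the antipode -/
structure Pre (C : Submodule k H) : Prop where
  fg : C.FG
  sub : IsSubcoalgebra k C
  one : (1 : H) ∈ C
  ant : ∀ x ∈ C ⊓ coradical k H, HopfAlgebra.antipode k x ∈ C ⊓ coradical k H

/-- stable finite-dimensional subcoalgebras of `T` -/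
structure Stb (K T B : Submodule k H) : Prop where
  fg : B.FG
  sub : IsSubcoalgebra k B
  one : (1 : H) ∈ B
  le : B ≤ T
  stb : K * B ≤ B * K

/-- good subcoalgebras: `K C ≤ C K` for the algebra `K` generated by `C ∩ coradical` -/
structure Good (C : Submodule k H) : Prop extends Pre k C where
  stb : Kc k (C ⊓ coradical k H) * C ≤ C * Kc k (C ⊓ coradical k H)

/-- the product of the letters of a word -/
def wd {m : ℕ} (x : Fin m → H) (w : List (Fin m)) : H := (w.map x).prod

/-- the right `K`-module of the words which are smaller than `w` (shorter, or of the same length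
and lexicographically smaller) -/
def Nw (K : Submodule k H) {m : ℕ} (x : Fin m → H) (w : List (Fin m)) : Submodule k H :=
  Submodule.span k (wd x '' {v | List.Shortlex (· < ·) v w}) * K

/-- irreducible words -/
def Irr (K : Submodule k H) {m : ℕ} (x : Fin m → H) : Set (List (Fin m)) :=
  {w | wd x w ∉ Nw k K x w}

/-- letters for the subcoalgebra `C` over `K`: a triangular family of coinvariants over `K` -/
structure Letters (K C : Submodule k H) {m : ℕ} (x : Fin m → H) : Prop where
  mem : ∀ i, x i ∈ C * C
  fam : Fam k K K x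
  cov : C ≤ K ⊔ Submodule.span k (Set.range x) * K
  stb : K * Submodule.span k (Set.range x) ≤ K ⊔ Submodule.span k (Set.range x) * K

end hopf

end Pool.Agent.GKP
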